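import Pool.Agent.Helper62.LS.Contract

/-!
# LS: bounds for configurations
-/

namespace Pool.Agent.Helper62.LS

open Finset

theorem hT_hp {ι : Type} {d : ℕ} {x : ι → Fin d → ℤ} {lo up : ι → ℝ} {T : ℝ}
    (hT : ∀ (τ : Fin (d + 2) → ι) (h : Fin (d + 2) → ℝ),
      (∀ i, h i = lo (τ i) ∨ h i = up (τ i)) →
      |(MM h (fun i => (Fin.cons 1 (fun p => (x (τ i) p : ℝ)) : Fin (d + 1) → ℝ))).det| ≤ T) :
    ∀ (τ : Fin (d + 1 + 1) → ι) (h : Fin (d + 1 + 1) → ℝ),
      (∀ i, h i = lo (τ i) ∨ h i = up (τ i)) →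
      |(MM h (fun i p => (hp x (τ i) p : ℝ))).det| ≤ T := by
  intro τ h hh
  have h1 := hT τ h hh
  have h2 : (fun i p => (hp x (τ i) p : ℝ))
      = fun i => (Fin.cons 1 (fun p => (x (τ i) p : ℝ)) : Fin (d + 1) → ℝ) := by
    funext i
    exact hp_real x (τ i)
  rw [h2]
  exact h1

/-- (F1) for points with intervals over distinct integer points of the base -/
theorem conf_all {ι : Type} [Fintype ι] {d : ℕ} (x : ι → Fin d → ℤ)
    (hinj : Function.Injective x) (lo up : ι → ℝ) (hlu : ∀ i, lo i ≤ up i) (T : ℝ)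
    (hT : ∀ (τ : Fin (d + 2) → ι) (h : Fin (d + 2) → ℝ),
      (∀ i, h i = lo (τ i) ∨ h i = up (τ i)) →
      |(MM h (fun i => (Fin.cons 1 (fun p => (x (τ i) p : ℝ)) : Fin (d + 1) → ℝ))).det| ≤ T)
    (hspan : ∃ τ : Fin (d + 1) → ι,
      (Matrix.of fun j => (Fin.cons 1 (x (τ j)) : Fin (d + 1) → ℤ)).det ≠ 0) :
    ∑ i, (up i - lo i) ≤ ((d : ℝ) + 1) * T := by
  classical
  obtain ⟨g, hg0, hgd, hsum⟩ := F_pos (hp x) (hp_inj hinj) lo up hlu T (hT_hp hT) hspan
    (Pi.single 0 1) (by
      intro i
      rw [Finset.sum_eq_single 0]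
      · simp [hp]
      · intro l _ hl
        rw [Pi.single_eq_of_ne hl, mul_zero]
      · intro h
        exact absurd (Finset.mem_univ _) h)
  have hg1 : ∀ z, g z = 1 := by
    intro z
    have h2 := hgd z 0
    have h4 : hp x z 0 = 1 := rfl
    rw [h4] at h2
    have h3 := Int.eq_one_of_dvd_one (Int.natCast_nonneg _) h2
    exact_mod_cast h3
  simp only [hg1, Nat.primeFactors_one, Finset.sum_empty, sub_zero, one_mul] at hsum
  push_cast at hsum
  exact hsum

/-- parallel primitive vectors in a half space are equal -/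
theorem prim_eq {r : ℕ} (v w : Fin r → ℤ) (hv : ∀ p : ℕ, p.Prime → ¬ ∀ q, (p : ℤ) ∣ v q)
    (hw : ∀ p : ℕ, p.Prime → ¬ ∀ q, (p : ℤ) ∣ w q) (hvw : ∀ p q, v p * w q - v q * w p = 0)
    (E : Fin r → ℝ) (hEv : 0 < ∑ p, (v p : ℝ) * E p) (hEw : 0 < ∑ p, (w p : ℝ) * E p) : v = w := by
  have key : ∀ v : Fin r → ℤ, (∀ p : ℕ, p.Prime → ¬ ∀ q, (p : ℤ) ∣ v q) →
      0 < ∑ p, (v p : ℝ) * E p → ∃ c, dt v c = 1 := by
    intro v hv hEv
    have hv0 : v ≠ 0 := by
      rintro rfl
      simp at hEv
    obtain ⟨g, u, c, hg0, hgu, huc⟩ := prim v hv0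
    have hg1 : g = 1 := by
      by_contra hne
      obtain ⟨p, hp, hpg⟩ := Nat.exists_prime_and_dvd hne
      apply hv p hp
      intro q
      rw [hgu q]
      exact Dvd.dvd.mul_right (by exact_mod_cast hpg) _
    refine ⟨c, ?_⟩
    have : v = u := by
      funext q
      rw [hgu q, hg1]
      simp
    rw [this]
    exact huc
  obtain ⟨c, hc⟩ := key v hv hEv
  obtain ⟨c', hc'⟩ := key w hw hEw
  have e1 : ∀ p, w p = dt w c * v p := by
    intro p
    have h1 : w p * dt v c = dt w c * v p := by
      unfold dt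
      rw [Finset.mul_sum, Finset.sum_mul]
      apply Finset.sum_congr rfl
      intro q _
      have h2 := hvw p q
      linear_combination (-(c q)) * h2
    rwa [hc, mul_one] at h1
  have h3 : dt w c * dt v c' = 1 := by
    have h4 : dt w c' = dt w c * dt v c' := by
      unfold dt at e1 ⊢
      rw [Finset.mul_sum]
      apply Finset.sum_congr rfl
      intro p _
      rw [e1 p]
      ring
    rw [hc'] at h4
    linarith
  have h5 : 0 < dt w c := by
    have h6 : ∑ p, (w p : ℝ) * E p = (dt w c : ℝ) * ∑ p, (v p : ℝ) * E p := by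
      rw [Finset.mul_sum]
      apply Finset.sum_congr rfl
      intro p _
      rw [e1 p]
      push_cast
      ring
    rw [h6] at hEw
    have h8 := pos_of_mul_pos_left hEw hEv.le
    exact_mod_cast h8
  have h6 : dt w c = 1 := by
    rcases Int.eq_one_or_neg_one_of_mul_eq_one h3 with h | h
    · exact h
    · linarith
  funext p
  rw [e1 p, h6, one_mul]

/-- a length is small if some determinant with this point is divisible by a prime -/
theorem len_small {ι : Type} [Fintype ι] {d : ℕ} (x : ι → Fin d → ℤ)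
    (lo up : ι → ℝ) (hlu : ∀ i, lo i ≤ up i) (T : ℝ)
    (hT : ∀ (τ : Fin (d + 2) → ι) (h : Fin (d + 2) → ℝ),
      (∀ i, h i = lo (τ i) ∨ h i = up (τ i)) →
      |(MM h (fun i => (Fin.cons 1 (fun p => (x (τ i) p : ℝ)) : Fin (d + 1) → ℝ))).det| ≤ T)
    (hspan : ∃ τ : Fin (d + 1) → ι,
      (Matrix.of fun j => (Fin.cons 1 (x (τ j)) : Fin (d + 1) → ℤ)).det ≠ 0)
    (s : Finset ι) (hs : LinearIndepOn ℝ (fun i p => (hp x i p : ℝ)) (s : Set ι))
    (i0 i j : ι) (hi0 : i0 ∈ s) (hi : i ∈ s) (hj : j ∈ s) (hij : i ≠ j) (p : ℕ) (hp2 : 2 ≤ p)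
    (hd : ∀ q, (p : ℤ) ∣ x i q - x j q) : up i0 - lo i0 ≤ T / 2 := by
  obtain ⟨τ, hτinj, hτ, hcov⟩ := complete (hp x) hspan s hs
  obtain ⟨l0, hl0⟩ := hcov i0 hi0
  obtain ⟨l1, hl1⟩ := hcov i hi
  obtain ⟨l2, hl2⟩ := hcov j hj
  have h12 : l1 ≠ l2 := by
    rintro rfl
    exact hij (hl1.symm.trans hl2)
  have h1 := of_dvd_pair (Matrix.of fun j => hp x (τ j)) l1 l2 h12 p (by
    intro q
    simp only [Matrix.of_apply]
    rw [hl1, hl2]
    refine Fin.cases ?_ (fun q => ?_) q
    · simp [hp]
    · simpa [hp] using hd q)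
  have h2 : (2 : ℤ) ≤ |(Matrix.of fun j => hp x (τ j)).det| := by
    have h3 : (p : ℤ) ≤ |(Matrix.of fun j => hp x (τ j)).det| := by
      apply Int.le_of_dvd (abs_pos.2 hτ)
      rwa [dvd_abs]
    have h4 : (2 : ℤ) ≤ p := by exact_mod_cast hp2
    linarith
  have h3 := len_det (hp x) lo up T hlu (hT_hp hT) τ l0
  rw [hl0] at h3
  have h4 : (2 : ℝ) ≤ |(((Matrix.of fun j => hp x (τ j)).det : ℤ) : ℝ)| := by exact_mod_cast h2
  have h5 := hlu i0
  nlinarith

/-- (C) the improvement if the base has more points than a simplex -/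
theorem conf_many {ι : Type} [Fintype ι] {d : ℕ} (hd : 1 ≤ d) (x : ι → Fin d → ℤ)
    (hinj : Function.Injective x) (lo up : ι → ℝ) (hlu : ∀ i, lo i ≤ up i) (T : ℝ)
    (hT : ∀ (τ : Fin (d + 2) → ι) (h : Fin (d + 2) → ℝ),
      (∀ i, h i = lo (τ i) ∨ h i = up (τ i)) →
      |(MM h (fun i => (Fin.cons 1 (fun p => (x (τ i) p : ℝ)) : Fin (d + 1) → ℝ))).det| ≤ T)
    (hspan : ∃ τ : Fin (d + 1) → ι,
      (Matrix.of fun j => (Fin.cons 1 (x (τ j)) : Fin (d + 1) → ℤ)).det ≠ 0)
    (hcard : d + 2 ≤ Fintype.card ι) :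
    ∑ i, (up i - lo i) ≤ ((d : ℝ) + 1 - min (1 / 36) (1 / ((d : ℝ) + 1))) * T := by
  classical
  have hne : Nonempty ι := Fintype.card_pos_iff.1 (by omega)
  have hT0 : 0 ≤ T := (abs_nonneg _).trans
    (hT (fun _ => hne.some) (fun _ => lo hne.some) fun _ => Or.inl rfl)
  have hmin : min (1 / 36 : ℝ) (1 / ((d : ℝ) + 1)) * T ≤ 1 / 36 * T :=
    mul_le_mul_of_nonneg_right (min_le_left _ _) hT0
  have hmin' : min (1 / 36 : ℝ) (1 / ((d : ℝ) + 1)) * T ≤ 1 / ((d : ℝ) + 1) * T :=
    mul_le_mul_of_nonneg_right (min_le_right _ _) hT0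
  have hsplit : ∀ i0 : ι, ∑ i, (up i - lo i)
      = (up i0 - lo i0) + ∑ i ∈ Finset.univ.erase i0, (up i - lo i) := fun i0 =>
    (Finset.add_sum_erase Finset.univ (fun i => up i - lo i) (Finset.mem_univ i0)).symm
  by_cases hprim : ∀ i j, i ≠ j → ∀ p : ℕ, p.Prime → ¬ ∀ q, (p : ℤ) ∣ x i q - x j q
  · -- all differences are primitive
    obtain ⟨i0, _, hi0⟩ := Finset.exists_min_image Finset.univ (fun i => up i - lo i)
      ⟨hne.some, Finset.mem_univ _⟩
    have hmid : ∀ i j, i ≠ i0 → j ≠ i0 → (x i - x i0) + (x j - x i0) ≠ 0 := by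
      intro i j hi hj h
      have h1 : ∀ q, x i q - x j q = 2 * (x i q - x i0 q) := by
        intro q
        have := congrFun h q
        simp only [Pi.add_apply, Pi.sub_apply, Pi.zero_apply] at this
        linarith
      by_cases hij : i = j
      · subst hij
        apply hi
        apply hinj
        funext q
        have := h1 q
        linarith
      · exact hprim i j hij 2 Nat.prime_two (fun q => by
          rw [h1 q]
          exact dvd_mul_right _ _)
    obtain ⟨g, hg0, hgd, hsum⟩ := contract_bound x hinj lo up hlu T hT hspan i0 hmid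
    have hg1 : ∀ i ∈ Finset.univ.erase i0, (1 - ∑ p ∈ (g i).primeFactors, (1 : ℝ) / p)
        * (up i - lo i) = up i - lo i := by
      intro i hi
      have hi' := (Finset.mem_erase.1 hi).1
      have h1 : (g i).primeFactors = ∅ := by
        rw [Finset.eq_empty_iff_forall_notMem]
        intro p hp
        rw [Nat.mem_primeFactors] at hp
        exact hprim i i0 hi' p hp.1 (fun q => dvd_trans (by exact_mod_cast hp.2.1) (hgd i hi' q))
      rw [h1, Finset.sum_empty, sub_zero, one_mul]
    rw [Finset.sum_congr rfl hg1] at hsum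
    have h1 : ((Finset.univ.erase i0).card : ℝ) * (up i0 - lo i0)
        ≤ ∑ i ∈ Finset.univ.erase i0, (up i - lo i) := by
      rw [← nsmul_eq_mul, ← Finset.sum_const]
      exact Finset.sum_le_sum fun i _ => hi0 i (Finset.mem_univ i)
    rw [Finset.card_erase_of_mem (Finset.mem_univ i0), Finset.card_univ] at h1
    have h2 : ((d + 1 : ℕ) : ℝ) ≤ ((Fintype.card ι - 1 : ℕ) : ℝ) := by
      exact_mod_cast (by omega : d + 1 ≤ Fintype.card ι - 1)
    have h3 : 0 ≤ up i0 - lo i0 := sub_nonneg.2 (hlu i0)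
    have h4 : ((d : ℝ) + 1) * (up i0 - lo i0) ≤ d * T := by
      push_cast at h2
      nlinarith
    have hd1 : (0 : ℝ) < (d : ℝ) + 1 := by positivity
    have h5 : up i0 - lo i0 ≤ T - 1 / ((d : ℝ) + 1) * T := by
      have h6 : T - 1 / ((d : ℝ) + 1) * T = (d * T) / ((d : ℝ) + 1) := by
        field_simp
        ring
      rw [h6, le_div_iff₀ hd1]
      linarith
    rw [hsplit i0]
    nlinarith
  · -- some difference is imprimitive
    push Not at hprim
    obtain ⟨ia, ib, hab, pr, hpr, hdiv⟩ := hprim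
    let Pr : Type := {z : ι × ι // z.1 ≠ z.2}
    obtain ⟨E, hE⟩ := generic (fun z : Pr => x z.1.1 - x z.1.2) (fun z h => z.2
      (hinj (sub_eq_zero.1 h)))
    obtain ⟨i0, _, hi0⟩ := Finset.exists_min_image Finset.univ
      (fun i => ∑ q, (x i q : ℝ) * E q) ⟨hne.some, Finset.mem_univ _⟩
    have hpos : ∀ i, i ≠ i0 → 0 < ∑ q, ((x i q - x i0 q : ℤ) : ℝ) * E q := by
      intro i hi
      have h1 := hE ⟨(i, i0), hi⟩
      have h2 := hi0 i (Finset.mem_univ i)
      have h3 : ∑ q, ((x i q - x i0 q : ℤ) : ℝ) * E q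
          = ∑ q, (x i q : ℝ) * E q - ∑ q, (x i0 q : ℝ) * E q := by
        rw [← Finset.sum_sub_distrib]
        apply Finset.sum_congr rfl
        intro q _
        push_cast
        ring
      have h4 : ∑ q, ((x i q - x i0 q : ℤ) : ℝ) * E q ≠ 0 := h1
      rw [h3] at h4 ⊢
      have h5 : ∑ q, (x i q : ℝ) * E q - ∑ q, (x i0 q : ℝ) * E q ≥ 0 := by linarith
      exact lt_of_le_of_ne h5 h4.symm
    have hmid : ∀ i j, i ≠ i0 → j ≠ i0 → (x i - x i0) + (x j - x i0) ≠ 0 := by
      intro i j hi hj h
      have h1 := hpos i hi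
      have h2 := hpos j hj
      have h3 : ∑ q, ((x i q - x i0 q : ℤ) : ℝ) * E q + ∑ q, ((x j q - x i0 q : ℤ) : ℝ) * E q
          = 0 := by
        rw [← Finset.sum_add_distrib]
        apply Finset.sum_eq_zero
        intro q _
        have h4 := congrFun h q
        simp only [Pi.add_apply, Pi.sub_apply, Pi.zero_apply] at h4
        rw [← add_mul, ← Int.cast_add, h4]
        simp
      linarith
    obtain ⟨g, hg0, hgd, hsum⟩ := contract_bound x hinj lo up hlu T hT hspan i0 hmid
    -- the length at the vertex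
    have hℓ0 : up i0 - lo i0 ≤ T / 2 := by
      by_cases hE1 : ∃ p : ℕ, p.Prime ∧ ∃ i, i ≠ i0 ∧ ∀ q, (p : ℤ) ∣ x i q - x i0 q
      · obtain ⟨p, hp, i, hi, hq⟩ := hE1
        exact len_small x lo up hlu T hT hspan {i, i0}
          (by rw [Finset.coe_pair]; exact pair_indep x hinj i i0 hi)
          i0 i i0 (by simp) (by simp) (by simp) hi p hp.two_le hq
      · push Not at hE1
        have hia : ia ≠ i0 := by
          rintro rfl
          obtain ⟨q, hq⟩ := hE1 pr hpr ib hab.symm
          exact hq (by have := hdiv q; rwa [← dvd_neg, neg_sub] at this)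
        have hib : ib ≠ i0 := by
          rintro rfl
          obtain ⟨q, hq⟩ := hE1 pr hpr ia hab
          exact hq (hdiv q)
        have hli : LinearIndepOn ℝ (fun i p => (hp x i p : ℝ)) (insert ib ({ia, i0} : Set ι)) := by
          rw [linearIndepOn_insert (by
            intro h
            rcases h with h | h
            · exact hab h.symm
            · exact hib h)]
          refine ⟨pair_indep x hinj ia i0 hia, ?_⟩
          rw [Set.image_pair, Submodule.mem_span_pair]
          rintro ⟨s, t, hst⟩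
          have h0 := congrFun hst 0
          simp only [Pi.add_apply, Pi.smul_apply, smul_eq_mul, hp, Fin.cons_zero,
            Int.cast_one, mul_one] at h0
          have h1 : ∀ q, ((x ib q - x i0 q : ℤ) : ℝ) = s * ((x ia q - x i0 q : ℤ) : ℝ) := by
            intro q
            have h2 := congrFun hst q.succ
            simp only [Pi.add_apply, Pi.smul_apply, smul_eq_mul, hp, Fin.cons_succ] at h2
            push_cast
            have h3 : t = 1 - s := by linarith
            rw [h3] at h2
            linarith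
          have h2 : x ia - x i0 = x ib - x i0 := by
            apply prim_eq (x ia - x i0) (x ib - x i0)
              (fun p hp h => by
                obtain ⟨q, hq⟩ := hE1 p hp ia hia
                exact hq (h q))
              (fun p hp h => by
                obtain ⟨q, hq⟩ := hE1 p hp ib hib
                exact hq (h q))
              _ E (hpos ia hia) (hpos ib hib)
            intro p q
            have h3 : (((x ia p - x i0 p) * (x ib q - x i0 q)
                - (x ia q - x i0 q) * (x ib p - x i0 p) : ℤ) : ℝ) = 0 := by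
              rw [Int.cast_sub, Int.cast_mul, Int.cast_mul, h1 p, h1 q]
              ring
            exact_mod_cast h3
          exact hab (hinj (sub_left_injective h2))
        apply len_small x lo up hlu T hT hspan {ib, ia, i0} (by
          have : (({ib, ia, i0} : Finset ι) : Set ι) = insert ib ({ia, i0} : Set ι) := by
            simp
          rw [this]
          exact hli)
          i0 ia ib (by simp) (by simp) (by simp) hab pr hpr.two_le hdiv
    have hℓ0' : 0 ≤ up i0 - lo i0 := sub_nonneg.2 (hlu i0)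
    set P : Finset ℕ := (Finset.univ.erase i0).biUnion fun i => (g i).primeFactors with hP
    have hPprime : ∀ p ∈ P, p.Prime := by
      intro p hp
      rw [hP, Finset.mem_biUnion] at hp
      obtain ⟨i, _, hi⟩ := hp
      exact Nat.prime_of_mem_primeFactors hi
    have hclass : ∀ p ∈ P, ∑ i ∈ (Finset.univ.erase i0).filter (fun i => p ∈ (g i).primeFactors),
        (up i - lo i) ≤ 2 * T / p - (up i0 - lo i0) := by
      intro p hp
      have hpp := hPprime p hp
      rw [hP, Finset.mem_biUnion] at hp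
      obtain ⟨i, hi, hig⟩ := hp
      have hi' := (Finset.mem_erase.1 hi).1
      let C : Finset ι := Finset.univ.filter fun j => ∀ q, (p : ℤ) ∣ x j q - x i0 q
      have hi0C : i0 ∈ C := by
        rw [Finset.mem_filter]
        exact ⟨Finset.mem_univ _, fun q => by simp⟩
      have hCmem : ∀ j, j ≠ i0 → p ∈ (g j).primeFactors → j ∈ C := by
        intro j hj hjg
        rw [Finset.mem_filter]
        refine ⟨Finset.mem_univ _, fun q => dvd_trans ?_ (hgd j hj q)⟩
        exact_mod_cast Nat.dvd_of_mem_primeFactors hjg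
      have hiC := hCmem i hi' hig
      have hCcard : 2 ≤ C.card := Finset.one_lt_card.2 ⟨i, hiC, i0, hi0C, hi'⟩
      have hcl := class_bound x hinj lo up hlu T hT hspan p hpp.two_le C
        (by
          intro j hj l hl q
          have h1 := (Finset.mem_filter.1 hj).2 q
          have h2 := (Finset.mem_filter.1 hl).2 q
          have h3 : x j q - x l q = (x j q - x i0 q) - (x l q - x i0 q) := by ring
          rw [h3]
          exact dvd_sub h1 h2) hCcard
      rw [← Finset.add_sum_erase C (fun i => up i - lo i) hi0C] at hcl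
      have h1 : ∑ i ∈ (Finset.univ.erase i0).filter (fun i => p ∈ (g i).primeFactors),
          (up i - lo i) ≤ ∑ i ∈ C.erase i0, (up i - lo i) := by
        apply Finset.sum_le_sum_of_subset_of_nonneg
        · intro j hj
          rw [Finset.mem_filter, Finset.mem_erase] at hj
          rw [Finset.mem_erase]
          exact ⟨hj.1.1, hCmem j hj.1.1 hj.2⟩
        · intro j _ _
          exact sub_nonneg.2 (hlu j)
      linarith
    have hexch : ∑ i ∈ Finset.univ.erase i0, (∑ p ∈ (g i).primeFactors, (1 : ℝ) / p)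
          * (up i - lo i)
        = ∑ p ∈ P, (1 : ℝ) / p * ∑ i ∈ (Finset.univ.erase i0).filter
          (fun i => p ∈ (g i).primeFactors), (up i - lo i) := by
      have h1 : ∀ i ∈ Finset.univ.erase i0, (∑ p ∈ (g i).primeFactors, (1 : ℝ) / p)
          * (up i - lo i)
          = ∑ p ∈ P, if p ∈ (g i).primeFactors then (1 : ℝ) / p * (up i - lo i) else 0 := by
        intro i hi
        rw [Finset.sum_mul, ← Finset.sum_filter]
        apply Finset.sum_congr _ fun _ _ => rfl
        ext p
        rw [Finset.mem_filter]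
        constructor
        · intro h
          exact ⟨Finset.mem_biUnion.2 ⟨i, hi, h⟩, h⟩
        · intro h
          exact h.2
      rw [Finset.sum_congr rfl h1, Finset.sum_comm]
      apply Finset.sum_congr rfl
      intro p _
      rw [← Finset.sum_filter, Finset.mul_sum]
    have h1 : ∑ i ∈ Finset.univ.erase i0, (up i - lo i)
        ≤ d * T + ∑ p ∈ P, (1 : ℝ) / p * (2 * T / p - (up i0 - lo i0)) := by
      have h2 : ∑ i ∈ Finset.univ.erase i0,
          (1 - ∑ p ∈ (g i).primeFactors, (1 : ℝ) / p) * (up i - lo i)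
          = ∑ i ∈ Finset.univ.erase i0, (up i - lo i)
            - ∑ i ∈ Finset.univ.erase i0, (∑ p ∈ (g i).primeFactors, (1 : ℝ) / p)
              * (up i - lo i) := by
        rw [← Finset.sum_sub_distrib]
        exact Finset.sum_congr rfl fun i _ => by ring
      rw [h2, hexch] at hsum
      have h3 : ∑ p ∈ P, (1 : ℝ) / p * ∑ i ∈ (Finset.univ.erase i0).filter
          (fun i => p ∈ (g i).primeFactors), (up i - lo i)
          ≤ ∑ p ∈ P, (1 : ℝ) / p * (2 * T / p - (up i0 - lo i0)) := by
        apply Finset.sum_le_sum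
        intro p hp
        exact mul_le_mul_of_nonneg_left (hclass p hp) (by positivity)
      linarith
    have h2 := number_bound P hPprime (up i0 - lo i0) T hℓ0' hℓ0
    rw [hsplit i0]
    nlinarith

end Pool.Agent.Helper62.LS
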