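import Pool.Agent.Helper62.LS.App
import Pool.Agent.Helper5.SV.Defs
import Pool.Agent.Helper80.VR.Affine

/-!
# LS (block R1, helper16): integer normal form of a set with integral volumes
-/

namespace Pool.Agent.Helper62.LS

open Finset Pool.Agent.Helper5.SV

theorem det_updateRow_one {m : ℕ} (p : Fin m) (v : Fin m → ℝ) :
    (Matrix.updateRow (1 : Matrix (Fin m) (Fin m) ℝ) p v).det = v p := by
  rw [← Matrix.cramer_transpose_apply, Matrix.transpose_one, Matrix.cramer_one]
  rfl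

/-- A finite set all of whose simplex volumes are integer multiples of the smallest positive one
is, after an affine bijection, a set of integer points containing a unimodular simplex, and
`T/t` is the largest absolute value of a determinant. -/
theorem normal_form {m : ℕ} (S : Finset (Fin m → ℝ))
    (hS : affineSpan ℝ (S : Set (Fin m → ℝ)) = ⊤)
    (hint : ∀ v ∈ simplexVolumes (S : Set (Fin m → ℝ)), ∃ k : ℕ,
      v = k * smallest (S : Set (Fin m → ℝ))) :
    ∃ (Φ : (Fin m → ℝ) ≃ᵃ[ℝ] (Fin m → ℝ)) (X : {x // x ∈ S} → Fin m → ℤ) (R : ℕ),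
      (∀ x : {x // x ∈ S}, Φ (x : Fin m → ℝ) = fun p => (X x p : ℝ)) ∧
      Function.Injective X ∧
      (∀ f : Fin (m + 1) → {x // x ∈ S},
        |(Matrix.of fun i => (Fin.cons 1 (X (f i)) : Fin (m + 1) → ℤ)).det| ≤ R) ∧
      (∃ f : Fin (m + 1) → {x // x ∈ S},
        |(Matrix.of fun i => (Fin.cons 1 (X (f i)) : Fin (m + 1) → ℤ)).det| = 1) ∧
      (∃ f : Fin (m + 1) → {x // x ∈ S},
        |(Matrix.of fun i => (Fin.cons 1 (X (f i)) : Fin (m + 1) → ℤ)).det| = R) ∧
      largest (S : Set (Fin m → ℝ)) / smallest (S : Set (Fin m → ℝ)) = R := by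
  classical
  have hV : 0 < V m := V_pos m
  have hinj0 : ∀ x : Fin (m + 1) → (Fin m → ℝ), G x ≠ 0 → Function.Injective x := by
    intro x hx a b hab
    by_contra hne
    apply hx
    unfold G
    apply Matrix.det_zero_of_row_eq hne
    funext l
    simp [Matrix.of_apply, hab]
  set P : Set ℝ := {v | v ∈ simplexVolumes (S : Set (Fin m → ℝ)) ∧ 0 < v} with hP
  have hPfin : P.Finite := (finite_volumes S).subset (fun v hv => hv.1)
  obtain ⟨z, hzS, hzG⟩ := Helper80.VR.exists_G71 S hS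
  have hvolmem : ∀ w : Fin (m + 1) → (Fin m → ℝ), (∀ i, w i ∈ S) → G w ≠ 0 →
      |G w| * V m ∈ simplexVolumes (S : Set (Fin m → ℝ)) := fun w hw hG =>
    ⟨w, hinj0 w hG, hw, (simplexVolume_eq w).symm⟩
  have hPne : P.Nonempty := ⟨|G z| * V m, hvolmem z hzS hzG, mul_pos (abs_pos.2 hzG) hV⟩
  have hmem : smallest (S : Set (Fin m → ℝ)) ∈ P := hPne.csInf_mem hPfin
  obtain ⟨⟨x0, hx0i, hx0S, hx0v⟩, hsm⟩ := hmem
  rw [simplexVolume_eq] at hx0v
  have hg0 : 0 < |G x0| := by
    rw [hx0v] at hsm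
    exact pos_of_mul_pos_left hsm hV.le
  have hg0' : G x0 ≠ 0 := abs_pos.mp hg0
  have hbdd : BddAbove (simplexVolumes (S : Set (Fin m → ℝ))) := (finite_volumes S).bddAbove
  -- all determinants are integer multiples
  have hk : ∀ w : Fin (m + 1) → (Fin m → ℝ), (∀ i, w i ∈ S) → ∃ k : ℕ,
      |G w| = k * |G x0| := by
    intro w hw
    by_cases hG : G w = 0
    · exact ⟨0, by simp [hG]⟩
    · obtain ⟨k, hk⟩ := hint _ (hvolmem w hw hG)
      rw [hx0v] at hk
      refine ⟨k, ?_⟩
      have : |G w| * V m = (k * |G x0|) * V m := by rw [hk]; ring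
      exact mul_right_cancel₀ hV.ne' this
  -- the affine map
  set A : Matrix (Fin m) (Fin m) ℝ := Matrix.of fun i : Fin m => (x0 i.succ - x0 0 : Fin m → ℝ)
    with hA
  have hAdet : A.det = G x0 := by rw [G_eq_D]; rfl
  have hAu : IsUnit A.det := by rw [hAdet]; exact isUnit_iff_ne_zero.2 hg0'
  let L : (Fin m → ℝ) ≃ₗ[ℝ] (Fin m → ℝ) :=
    { toFun := fun c => Matrix.vecMul c A
      map_add' := fun c d => Matrix.add_vecMul _ _ _
      map_smul' := fun a c => Matrix.smul_vecMul _ _ _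
      invFun := fun v => Matrix.vecMul v A⁻¹
      left_inv := fun c => by
        change Matrix.vecMul (Matrix.vecMul c A) A⁻¹ = c
        rw [Matrix.vecMul_vecMul, Matrix.mul_nonsing_inv _ hAu, Matrix.vecMul_one]
      right_inv := fun v => by
        change Matrix.vecMul (Matrix.vecMul v A⁻¹) A = v
        rw [Matrix.vecMul_vecMul, Matrix.nonsing_inv_mul _ hAu, Matrix.vecMul_one] }
  let Φ : (Fin m → ℝ) ≃ᵃ[ℝ] (Fin m → ℝ) :=
    (AffineEquiv.vaddConst ℝ (x0 0)).symm.trans L.symm.toAffineEquiv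
  have hΦdef : ∀ y, Φ y = L.symm (y - x0 0) := fun y => rfl
  have hLΦ : ∀ y, Matrix.vecMul (Φ y) A = y - x0 0 := by
    intro y
    have : L (L.symm (y - x0 0)) = y - x0 0 := L.apply_symm_apply _
    rw [hΦdef]
    exact this
  have hdiff : ∀ y w, Matrix.vecMul (Φ y - Φ w) A = y - w := by
    intro y w
    rw [Matrix.sub_vecMul, hLΦ, hLΦ]
    abel
  have hGmul : ∀ y : Fin (m + 1) → (Fin m → ℝ), G y = G (fun i => Φ (y i)) * G x0 := by
    intro y
    rw [G_eq_D y, G_eq_D (fun i => Φ (y i)), ← hAdet]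
    unfold D
    rw [← Matrix.det_mul]
    congr 1
    ext i j
    have h1 := congrFun (hdiff (y i.succ) (y 0)) j
    rw [Matrix.mul_apply]
    rw [Matrix.of_apply, ← h1]
    rfl
  have hΦ0 : Φ (x0 0) = 0 := by rw [hΦdef, sub_self, map_zero]
  have hΦs : ∀ p : Fin m, Φ (x0 p.succ) = Pi.single p 1 := by
    intro p
    rw [hΦdef, LinearEquiv.symm_apply_eq]
    change _ = Matrix.vecMul (Pi.single p 1) A
    rw [Matrix.single_one_vecMul]
    rfl
  have hcoord : ∀ y (p : Fin m), G (Function.update x0 p.succ y) = Φ y p * G x0 := by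
    intro y p
    rw [hGmul]
    congr 1
    rw [G_eq_D]
    unfold D
    rw [← det_updateRow_one p (Φ y)]
    congr 1
    ext i j
    have h0 : Function.update x0 p.succ y 0 = x0 0 :=
      Function.update_of_ne (Fin.succ_ne_zero p).symm _ _
    change (Φ (Function.update x0 p.succ y i.succ) - Φ (Function.update x0 p.succ y 0)) j
      = Matrix.updateRow (1 : Matrix (Fin m) (Fin m) ℝ) p (Φ y) i j
    rw [h0, hΦ0, sub_zero]
    by_cases hip : i = p
    · subst hip
      rw [Function.update_self, Matrix.updateRow_self]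
    · have h1 : Function.update x0 p.succ y i.succ = x0 i.succ :=
        Function.update_of_ne (fun h => hip (Fin.succ_injective _ h)) _ _
      rw [h1, Matrix.updateRow_ne hip, hΦs]
      by_cases hij : i = j
      · subst hij; simp
      · rw [Matrix.one_apply_ne hij, Pi.single_eq_of_ne (Ne.symm hij)]
  -- integrality
  have hZ : ∀ (x : {x // x ∈ S}) (p : Fin m), ∃ n : ℤ, Φ (x : Fin m → ℝ) p = n := by
    intro x p
    obtain ⟨k, hk⟩ := hk (Function.update x0 p.succ x) (by
      intro i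
      by_cases h : i = p.succ
      · subst h; simp
      · rw [Function.update_of_ne h]; exact hx0S i)
    rw [hcoord, abs_mul] at hk
    have h1 : |Φ (x : Fin m → ℝ) p| = k := mul_right_cancel₀ hg0.ne' hk
    rcases abs_choice (Φ (x : Fin m → ℝ) p) with h | h
    · exact ⟨k, by rw [← h, h1]; simp⟩
    · exact ⟨-k, by push_cast; rw [← h1, h]; ring⟩
  choose X hX using hZ
  have hXΦ : ∀ x : {x // x ∈ S}, Φ (x : Fin m → ℝ) = fun p => (X x p : ℝ) := fun x =>
    funext fun p => hX x p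
  have hdet : ∀ f : Fin (m + 1) → {x // x ∈ S},
      (((Matrix.of fun i => (Fin.cons 1 (X (f i)) : Fin (m + 1) → ℤ)).det : ℤ) : ℝ) * G x0
        = G (fun i => (f i : Fin m → ℝ)) := by
    intro f
    rw [hGmul (fun i => (f i : Fin m → ℝ))]
    congr 1
    unfold G
    rw [Int.cast_det]
    congr 1
    ext i j
    refine Fin.cases ?_ (fun j => ?_) j
    · simp
    · simp [hXΦ]
  -- the largest volume
  have hne : (simplexVolumes (S : Set (Fin m → ℝ))).Nonempty := ⟨_, hvolmem z hzS hzG⟩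
  obtain ⟨x1, hx1i, hx1S, hx1v⟩ : largest (S : Set (Fin m → ℝ)) ∈
      simplexVolumes (S : Set (Fin m → ℝ)) := hne.csSup_mem (finite_volumes S)
  rw [simplexVolume_eq] at hx1v
  obtain ⟨R, hR⟩ := hk x1 hx1S
  have hmax : ∀ w : Fin (m + 1) → (Fin m → ℝ), (∀ i, w i ∈ S) → |G w| ≤ |G x1| := by
    intro w hw
    by_cases hG : G w = 0
    · rw [hG, abs_zero]; exact abs_nonneg _
    · have h1 := le_csSup hbdd (hvolmem w hw hG)
      have h2 : |G w| * V m ≤ |G x1| * V m := by
        rw [← hx1v]; exact h1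
      exact le_of_mul_le_mul_right h2 hV
  have habs : ∀ f : Fin (m + 1) → {x // x ∈ S},
      (|(Matrix.of fun i => (Fin.cons 1 (X (f i)) : Fin (m + 1) → ℤ)).det| : ℤ) * |G x0|
        = |G (fun i => (f i : Fin m → ℝ))| := by
    intro f
    rw [← hdet f, abs_mul]
    push_cast
    rfl
  refine ⟨Φ, X, R, hXΦ, ?_, ?_, ?_, ?_, ?_⟩
  · intro x y hxy
    apply Subtype.ext
    apply Φ.injective
    rw [hXΦ, hXΦ, hxy]
  · intro f
    have h1 := hmax (fun i => (f i : Fin m → ℝ)) (fun i => (f i).2)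
    rw [← habs f, hR] at h1
    have h2 := le_of_mul_le_mul_right h1 hg0
    exact_mod_cast h2
  · refine ⟨fun i => ⟨x0 i, hx0S i⟩, ?_⟩
    have h1 := habs (fun i => ⟨x0 i, hx0S i⟩)
    have h2 : (|(Matrix.of fun i => (Fin.cons 1 (X ⟨x0 i, hx0S i⟩) :
        Fin (m + 1) → ℤ)).det| : ℤ) * |G x0| = 1 * |G x0| := by
      rw [one_mul]; exact h1
    have h3 := mul_right_cancel₀ hg0.ne' h2
    exact_mod_cast h3
  · refine ⟨fun i => ⟨x1 i, hx1S i⟩, ?_⟩
    have h1 := habs (fun i => ⟨x1 i, hx1S i⟩)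
    have h2 : (|(Matrix.of fun i => (Fin.cons 1 (X ⟨x1 i, hx1S i⟩) :
        Fin (m + 1) → ℤ)).det| : ℤ) * |G x0| = R * |G x0| := by
      rw [← hR]; exact h1
    have h3 := mul_right_cancel₀ hg0.ne' h2
    exact_mod_cast h3
  · rw [hx1v, hx0v, hR]
    field_simp

end Pool.Agent.Helper62.LS
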