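import Pool.Agent.Helper62.LS.App

/-!
# LS (block R2, helper16): a unimodular change of coordinates with a long chord
-/

namespace Pool.Agent.Helper62.LS

open Finset

/-- a vector on which some integer functional takes the value one can be moved to `e_0` -/
theorem to_first {m : ℕ} (v c : Fin (m + 1) → ℤ) (h : ∑ p, c p * v p = 1) :
    ∃ Ψ : (Fin (m + 1) → ℤ) ≃ₗ[ℤ] (Fin (m + 1) → ℤ), Ψ v = Pi.single 0 1 := by
  classical
  let φ : (Fin (m + 1) → ℤ) →ₗ[ℤ] ℤ := Fintype.linearCombination ℤ c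
  have hφ : ∀ x, φ x = ∑ p, x p * c p := fun x => by
    simp [φ, Fintype.linearCombination_apply]
  have hφv : φ v = 1 := by
    rw [hφ, ← h]; exact Finset.sum_congr rfl fun p _ => mul_comm _ _
  let K := LinearMap.ker φ
  have hx : ∀ x, x - φ x • v ∈ K := by
    intro x
    rw [LinearMap.mem_ker, map_sub, map_smul, hφv]
    simp
  let e1 : (Fin (m + 1) → ℤ) ≃ₗ[ℤ] (ℤ × K) :=
    { toFun := fun x => (φ x, ⟨x - φ x • v, hx x⟩)
      map_add' := fun x y => by
        ext1
        · simp
        · ext1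
          simp only [map_add, Submodule.coe_add, Prod.snd_add]
          module
      map_smul' := fun a x => by
        ext1
        · exact map_smul φ a x
        · ext1
          simp only [map_smul, RingHom.id_apply, Prod.smul_snd, Submodule.coe_smul]
          module
      invFun := fun z => z.1 • v + (z.2 : Fin (m + 1) → ℤ)
      left_inv := fun x => by simp
      right_inv := fun z => by
        have hz : φ (z.2 : Fin (m + 1) → ℤ) = 0 := z.2.2
        have hz1 : φ (z.1 • v + (z.2 : Fin (m + 1) → ℤ)) = z.1 := by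
          rw [map_add, map_smul, hφv, hz, smul_eq_mul, mul_one, add_zero]
        ext1
        · exact hz1
        · ext1
          change z.1 • v + (z.2 : Fin (m + 1) → ℤ)
            - φ (z.1 • v + (z.2 : Fin (m + 1) → ℤ)) • v = z.2
          rw [hz1]
          abel }
  obtain ⟨n, ⟨bK⟩⟩ := Submodule.nonempty_basis_of_pid (Pi.basisFun ℤ (Fin (m + 1))) K
  let e2 : (ℤ × K) ≃ₗ[ℤ] (Fin (n + 1) → ℤ) :=
    (LinearEquiv.prodCongr (LinearEquiv.refl ℤ ℤ) bK.equivFun).trans
      (Fin.consLinearEquiv ℤ (fun _ : Fin (n + 1) => ℤ))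
  have hn : n = m := by
    have h1 := (e1.trans e2).finrank_eq
    rw [Module.finrank_fintype_fun_eq_card, Module.finrank_fintype_fun_eq_card,
      Fintype.card_fin, Fintype.card_fin] at h1
    omega
  subst hn
  refine ⟨e1.trans e2, ?_⟩
  have h1 : e1 v = (1, 0) := by
    ext1
    · exact hφv
    · ext1
      change v - φ v • v = 0
      rw [hφv]; simp
  rw [LinearEquiv.trans_apply, h1]
  funext p
  refine Fin.cases ?_ (fun p => ?_) p
  · simp [e2]
  · simp [e2]

/-- More than `q^(m+1)` integer points of `(m+1)`-space: after a unimodular change of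
coordinates two of them lie on a line parallel to the first axis, at distance at least `q`. -/
theorem direction {m : ℕ} {ι : Type} [Fintype ι] (X : ι → Fin (m + 1) → ℤ)
    (hX : Function.Injective X) (q : ℕ) (hq : 0 < q) (hn : q ^ (m + 1) < Fintype.card ι) :
    ∃ Ψ : (Fin (m + 1) → ℤ) ≃ₗ[ℤ] (Fin (m + 1) → ℤ), ∃ i j : ι,
      (∀ p : Fin m, Ψ (X i) p.succ = Ψ (X j) p.succ) ∧
      (q : ℤ) ≤ Ψ (X i) 0 - Ψ (X j) 0 := by
  classical
  have : NeZero q := ⟨hq.ne'⟩
  obtain ⟨i, j, hij, hmod⟩ := Fintype.exists_ne_map_eq_of_card_lt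
    (fun i : ι => fun p : Fin (m + 1) => ((X i p : ℤ) : ZMod q)) (by simpa using hn)
  set d : Fin (m + 1) → ℤ := X i - X j with hd
  have hdq : ∀ p, (q : ℤ) ∣ d p := by
    intro p
    have h1 : ((X i p : ℤ) : ZMod q) = ((X j p : ℤ) : ZMod q) := congrFun hmod p
    rw [hd, Pi.sub_apply, ← ZMod.intCast_zmod_eq_zero_iff_dvd]
    push_cast
    rw [h1, sub_self]
  have hd0 : d ≠ 0 := by
    intro h
    exact hij (hX (sub_eq_zero.mp h))
  let I : Ideal ℤ := Ideal.span (Set.range d)
  obtain ⟨g, hg⟩ : ∃ g, I = Ideal.span {g} :=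
    ⟨Submodule.IsPrincipal.generator I, (Ideal.span_singleton_generator I).symm⟩
  have hdI : ∀ p, g ∣ d p := by
    intro p
    rw [← Ideal.mem_span_singleton, ← hg]
    exact Ideal.subset_span ⟨p, rfl⟩
  have hgI : g ∈ I := by rw [hg]; exact Ideal.mem_span_singleton_self g
  obtain ⟨c, hc⟩ := (Ideal.mem_span_range_iff_exists_fun (R := ℤ)).mp hgI
  choose v hv using hdI
  have hg0 : g ≠ 0 := by
    intro h
    apply hd0
    funext p
    rw [hv p, h]; simp
  have hcv : ∑ p, c p * v p = 1 := by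
    have h1 : g * ∑ p, c p * v p = g * 1 := by
      rw [mul_one, Finset.mul_sum]
      conv_rhs => rw [← hc]
      refine Finset.sum_congr rfl fun p _ => ?_
      rw [hv p]; ring
    exact mul_left_cancel₀ hg0 h1
  have hqg : (q : ℤ) ∣ g := by
    rw [← hc]
    exact Finset.dvd_sum fun p _ => Dvd.dvd.mul_left (hdq p) _
  obtain ⟨Ψ, hΨ⟩ := to_first v c hcv
  have hΨd : Ψ (X i) - Ψ (X j) = g • Pi.single 0 1 := by
    rw [← map_sub, ← hΨ, ← map_smul]
    congr 1
    funext p
    rw [← hd, hv p]; simp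
  have hsucc : ∀ p : Fin m, Ψ (X i) p.succ = Ψ (X j) p.succ := by
    intro p
    have := congrFun hΨd p.succ
    simp only [Pi.sub_apply, Pi.smul_apply, smul_eq_mul] at this
    rw [Pi.single_eq_of_ne (Fin.succ_ne_zero p), mul_zero] at this
    linarith
  have hzero : Ψ (X i) 0 - Ψ (X j) 0 = g := by
    have := congrFun hΨd 0
    simpa using this
  rcases lt_or_gt_of_ne hg0 with h | h
  · refine ⟨Ψ, j, i, fun p => (hsucc p).symm, ?_⟩
    have : (q : ℤ) ≤ -g := Int.le_of_dvd (by omega) ((dvd_neg).mpr hqg)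
    linarith
  · exact ⟨Ψ, i, j, hsucc, by rw [hzero]; exact Int.le_of_dvd h hqg⟩

/-- unimodular changes of coordinates preserve the determinants up to sign -/
theorem det_unimodular {m : ℕ} (Ψ : (Fin m → ℤ) ≃ₗ[ℤ] (Fin m → ℤ))
    (x : Fin (m + 1) → Fin m → ℤ) :
    |(Matrix.of fun i => (Fin.cons 1 (Ψ (x i)) : Fin (m + 1) → ℤ)).det|
      = |(Matrix.of fun i => (Fin.cons 1 (x i) : Fin (m + 1) → ℤ)).det| := by
  set A : Matrix (Fin m) (Fin m) ℤ := LinearMap.toMatrix' (Ψ : (Fin m → ℤ) →ₗ[ℤ] (Fin m → ℤ))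
    with hA
  have hAdet : |A.det| = 1 := by
    have h1 : IsUnit A.det := by
      rw [hA, LinearMap.det_toMatrix']
      exact Ψ.isUnit_det'
    exact Int.isUnit_iff_abs_eq.mp h1
  have hΨ : ∀ y p, Ψ y p = ∑ r, A p r * y r := by
    intro y p
    have h1 : A.mulVec y = Ψ y := by
      rw [hA, LinearMap.toMatrix'_mulVec]; rfl
    rw [← h1]; rfl
  let N : Matrix (Fin (m + 1)) (Fin (m + 1)) ℤ := Matrix.of fun i j =>
    (Fin.cases (Fin.cases 1 (fun _ => 0) j) (fun i' => Fin.cases 0 (fun j' => A j' i') j) i : ℤ)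
  have hN : N.det = A.det := by
    rw [Matrix.det_succ_row_zero, Fin.sum_univ_succ]
    have h1 : ∀ j : Fin m, N 0 j.succ = 0 := fun j => rfl
    simp only [h1, mul_zero, zero_mul, Finset.sum_const_zero, add_zero]
    have h2 : N.submatrix Fin.succ (Fin.succAbove 0) = A.transpose := by
      ext i j
      simp [N]
    rw [h2, Matrix.det_transpose]
    simp [N]
  have hmul : (Matrix.of fun i => (Fin.cons 1 (Ψ (x i)) : Fin (m + 1) → ℤ)) =
      (Matrix.of fun i => (Fin.cons 1 (x i) : Fin (m + 1) → ℤ)) * N := by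
    ext i j
    rw [Matrix.mul_apply, Fin.sum_univ_succ]
    refine Fin.cases ?_ (fun j => ?_) j
    · simp [N]
    · simp only [N, Matrix.of_apply, Fin.cons_succ, Fin.cons_zero, Fin.cases_succ, Fin.cases_zero,
        mul_zero, zero_add]
      rw [hΨ]
      exact Finset.sum_congr rfl fun r _ => mul_comm _ _
  rw [hmul, Matrix.det_mul, abs_mul, hN, hAdet, mul_one]

/-- the rows `(1, s, x)` and `(s, 1, x)` have the same determinant up to sign -/
theorem det_swap {m : ℕ} (s : Fin (m + 2) → ℤ) (x : Fin (m + 2) → Fin m → ℤ) :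
    |(Matrix.of fun i => (Fin.cons 1 (Fin.cons (s i) (x i) : Fin (m + 1) → ℤ) :
        Fin (m + 2) → ℤ)).det|
      = |(MM s (fun i => (Fin.cons 1 (x i) : Fin (m + 1) → ℤ))).det| := by
  have h1 : (MM s (fun i => (Fin.cons 1 (x i) : Fin (m + 1) → ℤ))) =
      (Matrix.of fun i => (Fin.cons 1 (Fin.cons (s i) (x i) : Fin (m + 1) → ℤ) :
        Fin (m + 2) → ℤ)).submatrix id (Equiv.swap 0 1) := by
    ext i j
    refine Fin.cases ?_ (fun j => Fin.cases ?_ (fun j => ?_) j) j
    · simp [MM]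
    · have : (Fin.succ 0 : Fin (m + 2)) = 1 := rfl
      simp [MM, this]
    · have h2 : (Equiv.swap (0 : Fin (m + 2)) 1) j.succ.succ = j.succ.succ := by
        apply Equiv.swap_apply_of_ne_of_ne
        · exact Fin.succ_ne_zero _
        · intro h
          have : (1 : Fin (m + 2)) = Fin.succ 0 := rfl
          rw [this] at h
          exact Fin.succ_ne_zero _ (Fin.succ_injective _ h)
      simp [MM, h2]
  rw [h1, Matrix.det_permute', abs_mul]
  have h3 : Equiv.Perm.sign (Equiv.swap (0 : Fin (m + 2)) 1) = -1 :=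
    Equiv.Perm.sign_swap (by simp)
  rw [h3]
  simp

end Pool.Agent.Helper62.LS
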