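import Mathlib

/-!
# LS: solvability of two-sided linear inequalities, tested on circuits
-/

namespace Pool.Agent.Helper62.LS

open Finset

/-- the support function of the box `∏ [L i, U i]` -/
noncomputable def GG {ι : Type} [Fintype ι] (L U β : ι → ℝ) : ℝ :=
  ∑ i, (if 0 < β i then β i * U i else β i * L i)

/-- a linear dependency -/
def IsDep {ι : Type} [Fintype ι] {r : ℕ} (b : ι → Fin r → ℝ) (β : ι → ℝ) : Prop :=
  ∀ p, ∑ i, β i * b i p = 0

/-- no nonzero dependency has a strictly smaller support -/
def IsCirc {ι : Type} [Fintype ι] {r : ℕ} (b : ι → Fin r → ℝ) (β : ι → ℝ) : Prop :=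
  ∀ γ : ι → ℝ, IsDep b γ → (∀ i, β i = 0 → γ i = 0) → (∃ i, β i ≠ 0 ∧ γ i = 0) → γ = 0

/-- projection to an interval -/
noncomputable def pr (L U t : ℝ) : ℝ := max L (min U t)

theorem pr_mem {L U : ℝ} (h : L ≤ U) (t : ℝ) : L ≤ pr L U t ∧ pr L U t ≤ U := by
  unfold pr
  exact ⟨le_max_left _ _, max_le h (min_le_left _ _)⟩

theorem pr_sq {L U : ℝ} (t p : ℝ) (h1 : L ≤ p) (h2 : p ≤ U) :
    (t - pr L U t) ^ 2 ≤ (t - p) ^ 2 := by
  unfold pr
  rcases le_total U t with h | h
  · rw [min_eq_left h, max_eq_right (h1.trans h2)]
    nlinarith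
  · rw [min_eq_right h]
    rcases le_total L t with h' | h'
    · rw [max_eq_right h']
      nlinarith [sq_nonneg (t - p)]
    · rw [max_eq_left h']
      nlinarith

theorem pr_pos {L U : ℝ} (t : ℝ) (h : 0 < t - pr L U t) (hLU : L ≤ U) : pr L U t = U := by
  unfold pr at *
  rcases le_total U t with h1 | h1
  · rw [min_eq_left h1, max_eq_right hLU]
  · rw [min_eq_right h1] at h
    have := le_max_right L t
    linarith

theorem pr_neg {L U : ℝ} (t : ℝ) (h : t - pr L U t < 0) : pr L U t = L := by
  unfold pr at *
  rcases le_total (min U t) L with h1 | h1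
  · rw [max_eq_left h1]
  · rw [max_eq_right h1] at h
    have := min_le_right U t
    linarith

theorem continuous_pr (L U : ℝ) : Continuous (pr L U) := by
  unfold pr
  exact continuous_const.max (continuous_const.min continuous_id)

/-- Farkas: an unsolvable system has a dependency of negative support function -/
theorem farkas {ι : Type} [Fintype ι] {r : ℕ} (b : ι → Fin r → ℝ) (L U : ι → ℝ)
    (hLU : ∀ i, L i ≤ U i)
    (hno : ¬ ∃ y : Fin r → ℝ, ∀ i, L i ≤ ∑ p, b i p * y p ∧ ∑ p, b i p * y p ≤ U i) :
    ∃ β : ι → ℝ, IsDep b β ∧ GG L U β < 0 := by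
  classical
  -- the linear map
  let B : (Fin r → ℝ) →ₗ[ℝ] (ι → ℝ) :=
    { toFun := fun y i => ∑ p, b i p * y p
      map_add' := by
        intro x y
        funext i
        simp only [Pi.add_apply, mul_add, Finset.sum_add_distrib]
      map_smul' := by
        intro c y
        funext i
        simp only [Pi.smul_apply, smul_eq_mul, RingHom.id_apply, Finset.mul_sum]
        exact Finset.sum_congr rfl fun p _ => by ring }
  have hB : ∀ y i, B y i = ∑ p, b i p * y p := fun y i => rfl
  let φ : (ι → ℝ) → ℝ := fun z => ∑ i, (z i - pr (L i) (U i) (z i)) ^ 2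
  have hφ : ∀ z, φ z = ∑ i, (z i - pr (L i) (U i) (z i)) ^ 2 := fun z => rfl
  have hφ0 : ∀ z, 0 ≤ φ z := fun z => Finset.sum_nonneg fun i _ => sq_nonneg _
  have hcont : Continuous φ := by
    apply continuous_finsetSum
    intro i _
    exact ((continuous_apply i).sub ((continuous_pr _ _).comp (continuous_apply i))).pow 2
  set c : ℝ := ∑ i, (|L i| + |U i|) with hc
  have hci : ∀ i t, |pr (L i) (U i) t| ≤ c := by
    intro i t
    have h1 : |L i| + |U i| ≤ c :=
      Finset.single_le_sum (f := fun i => |L i| + |U i|) (fun i _ => by positivity)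
        (Finset.mem_univ i)
    obtain ⟨h2, h3⟩ := pr_mem (hLU i) t
    have h4 := neg_abs_le (L i)
    have h5 := le_abs_self (U i)
    have h6 := abs_nonneg (L i)
    have h7 := abs_nonneg (U i)
    rw [abs_le]
    constructor <;> linarith
  have hclosed : IsClosed (LinearMap.range B : Set (ι → ℝ)) :=
    (LinearMap.range B).closed_of_finiteDimensional
  obtain ⟨z, hz, hmin⟩ := ContinuousOn.exists_isMinOn' (f := φ) hcont.continuousOn hclosed
    (x₀ := 0) (Submodule.zero_mem _) (by
      apply Filter.Eventually.filter_mono inf_le_left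
      have h1 := (tendsto_norm_cocompact_atTop (E := ι → ℝ)).eventually_ge_atTop (c + φ 0 + 1)
      filter_upwards [h1] with x hx
      have hc0 : 0 ≤ c := Finset.sum_nonneg fun i _ => by positivity
      have hx0 : 0 < ‖x‖ := by
        have := hφ0 0
        linarith
      obtain ⟨i, hi⟩ : ∃ i, ‖x‖ ≤ |x i| := by
        by_contra hcon
        push Not at hcon
        have := (pi_norm_lt_iff (x := x) hx0).2 fun i => by
          rw [Real.norm_eq_abs]
          exact hcon i
        exact lt_irrefl _ this
      have h2 := hci i (x i)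
      have h3 : φ 0 + 1 ≤ |x i - pr (L i) (U i) (x i)| := by
        have := abs_sub_abs_le_abs_sub (x i) (pr (L i) (U i) (x i))
        linarith
      have h4 : (x i - pr (L i) (U i) (x i)) ^ 2 ≤ φ x :=
        Finset.single_le_sum (f := fun i => (x i - pr (L i) (U i) (x i)) ^ 2)
          (fun i _ => sq_nonneg _) (Finset.mem_univ i)
      have h5 : (φ 0 + 1) ^ 2 ≤ (x i - pr (L i) (U i) (x i)) ^ 2 := by
        rw [← sq_abs (x i - pr (L i) (U i) (x i))]
        have := hφ0 0
        gcongr
      have h6 := hφ0 0
      nlinarith)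
  obtain ⟨y, rfl⟩ := hz
  set δ : ι → ℝ := fun i => B y i - pr (L i) (U i) (B y i) with hδ
  -- stationarity
  have hstat : ∀ v : Fin r → ℝ, ∑ i, δ i * B v i = 0 := by
    intro v
    set A : ℝ := ∑ i, δ i * B v i with hA
    set C : ℝ := ∑ i, (B v i) ^ 2 with hC
    have hC0 : 0 ≤ C := Finset.sum_nonneg fun i _ => sq_nonneg _
    have h1 : ∀ h : ℝ, 0 ≤ 2 * h * A + h ^ 2 * C := by
      intro h
      have h2 : φ (B y) ≤ φ (B (y + h • v)) := hmin (LinearMap.mem_range_self B _)
      have h3 : φ (B (y + h • v)) ≤ ∑ i, (δ i + h * B v i) ^ 2 := by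
        apply Finset.sum_le_sum
        intro i _
        have h4 := pr_mem (hLU i) (B y i)
        have h5 := pr_sq (B (y + h • v) i) (pr (L i) (U i) (B y i)) h4.1 h4.2
        have h6 : B (y + h • v) i = B y i + h * B v i := by
          rw [map_add, map_smul]
          simp
        rw [h6] at h5 ⊢
        have h7 : B y i + h * B v i - pr (L i) (U i) (B y i) = δ i + h * B v i := by
          simp only [hδ]
          ring
        rw [h7] at h5
        exact h5
      have h4 : ∑ i, (δ i + h * B v i) ^ 2 = φ (B y) + 2 * h * A + h ^ 2 * C := by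
        rw [hφ, hA, hC, Finset.mul_sum, Finset.mul_sum, ← Finset.sum_add_distrib,
          ← Finset.sum_add_distrib]
        apply Finset.sum_congr rfl
        intro i _
        simp only [hδ]
        ring
      linarith
    by_contra hA0
    have h2 := h1 (-A / (C + 1))
    have hC1 : 0 < C + 1 := by linarith
    have h3 : 2 * (-A / (C + 1)) * A + (-A / (C + 1)) ^ 2 * C
        = -(A ^ 2 * (C + 2)) / (C + 1) ^ 2 := by
      field_simp
      ring
    rw [h3] at h2
    have h4 : 0 < A ^ 2 * (C + 2) := by positivity
    have h5 : -(A ^ 2 * (C + 2)) / (C + 1) ^ 2 < 0 := by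
      apply div_neg_of_neg_of_pos
      · linarith
      · positivity
    linarith
  refine ⟨δ, ?_, ?_⟩
  · intro p
    have h1 := hstat (Pi.single p 1)
    rw [← h1]
    apply Finset.sum_congr rfl
    intro i _
    rw [hB]
    congr 1
    rw [Finset.sum_eq_single p]
    · simp
    · intro q _ hq
      rw [Pi.single_eq_of_ne hq, mul_zero]
    · simp
  · have h1 : GG L U δ = ∑ i, δ i * pr (L i) (U i) (B y i) := by
      unfold GG
      apply Finset.sum_congr rfl
      intro i _
      split_ifs with h
      · rw [pr_pos _ h (hLU i)]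
      · rcases lt_or_eq_of_le (not_lt.1 h) with h' | h'
        · rw [pr_neg _ h']
        · rw [h', zero_mul, zero_mul]
    have h2 : ∑ i, δ i * pr (L i) (U i) (B y i) = ∑ i, δ i * B y i - ∑ i, δ i ^ 2 := by
      rw [← Finset.sum_sub_distrib]
      apply Finset.sum_congr rfl
      intro i _
      simp only [hδ]
      ring
    rw [h1, h2, hstat y]
    have h3 : 0 < ∑ i, δ i ^ 2 := by
      by_contra hcon
      have h4 : ∑ i, δ i ^ 2 = 0 :=
        le_antisymm (not_lt.1 hcon) (Finset.sum_nonneg fun i _ => sq_nonneg _)
      rw [Finset.sum_eq_zero_iff_of_nonneg (fun i _ => sq_nonneg _)] at h4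
      apply hno
      refine ⟨y, fun i => ?_⟩
      have h5 : δ i = 0 := by
        have := h4 i (Finset.mem_univ i)
        exact pow_eq_zero_iff (two_ne_zero) |>.1 this
      have h6 : B y i = pr (L i) (U i) (B y i) := by
        have : B y i - pr (L i) (U i) (B y i) = 0 := h5
        linarith
      have h7 := pr_mem (hLU i) (B y i)
      rw [← hB, h6]
      exact h7
    linarith

/-- moving along a dependency until a coordinate vanishes -/
theorem move {ι : Type} [Fintype ι] {r : ℕ} (b : ι → Fin r → ℝ) (L U : ι → ℝ)
    (β γ : ι → ℝ) (hβ : IsDep b β) (hG : GG L U β < 0) (hγ : IsDep b γ)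
    (hsub : ∀ i, β i = 0 → γ i = 0)
    (hc : ∑ i, (if 0 < β i then γ i * U i else γ i * L i) ≤ 0)
    (hopp : ∃ i, β i * γ i < 0) :
    ∃ β' : ι → ℝ, IsDep b β' ∧ GG L U β' < 0 ∧ (∀ i, β i = 0 → β' i = 0) ∧
      ∃ i, β i ≠ 0 ∧ β' i = 0 := by
  classical
  obtain ⟨i0, hi0⟩ := hopp
  obtain ⟨i1, hi1, hmin⟩ := Finset.exists_min_image (Finset.univ.filter fun i => β i * γ i < 0)
    (fun i => -β i / γ i) ⟨i0, by simpa using hi0⟩
  rw [Finset.mem_filter] at hi1
  have hg1 : γ i1 ≠ 0 := by
    intro h
    rw [h, mul_zero] at hi1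
    exact lt_irrefl _ hi1.2
  have hb1 : β i1 ≠ 0 := by
    intro h
    rw [h, zero_mul] at hi1
    exact lt_irrefl _ hi1.2
  set t : ℝ := -β i1 / γ i1 with ht
  have ht0 : 0 < t := by
    have h1 : t * (γ i1) ^ 2 = -(β i1 * γ i1) := by
      rw [ht]
      field_simp
    have h2 : 0 < (γ i1) ^ 2 := by positivity
    by_contra hcon
    have h3 := mul_nonpos_of_nonpos_of_nonneg (not_lt.1 hcon) h2.le
    linarith [hi1.2]
  -- signs
  have hsign : ∀ i, (0 < β i → 0 ≤ β i + t * γ i) ∧ (β i < 0 → β i + t * γ i ≤ 0) := by
    intro i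
    constructor
    · intro h
      rcases le_or_gt 0 (γ i) with hg | hg
      · positivity
      · have h1 := hmin i (by simp only [Finset.mem_filter, Finset.mem_univ, true_and]; nlinarith)
        have h2 : t * (-γ i) ≤ β i := by
          have h3 : t ≤ -β i / γ i := h1
          have h4 : -β i / γ i = β i / (-γ i) := by
            rw [div_neg, neg_div]
          rw [h4, le_div_iff₀ (by linarith)] at h3
          exact h3
        linarith
    · intro h
      rcases le_or_gt (γ i) 0 with hg | hg
      · nlinarith
      · have h1 := hmin i (by simp only [Finset.mem_filter, Finset.mem_univ, true_and]; nlinarith)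
        have h3 : t ≤ -β i / γ i := h1
        rw [le_div_iff₀ hg] at h3
        linarith
  refine ⟨fun i => β i + t * γ i, ?_, ?_, ?_, i1, hb1, ?_⟩
  · intro p
    have h1 : ∑ i, (β i + t * γ i) * b i p = ∑ i, β i * b i p + t * ∑ i, γ i * b i p := by
      rw [Finset.mul_sum, ← Finset.sum_add_distrib]
      exact Finset.sum_congr rfl fun i _ => by ring
    rw [h1, hβ p, hγ p]
    ring
  · have h1 : GG L U (fun i => β i + t * γ i)
        = GG L U β + t * ∑ i, (if 0 < β i then γ i * U i else γ i * L i) := by
      unfold GG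
      rw [Finset.mul_sum, ← Finset.sum_add_distrib]
      apply Finset.sum_congr rfl
      intro i _
      show (if 0 < β i + t * γ i then (β i + t * γ i) * U i else (β i + t * γ i) * L i)
        = (if 0 < β i then β i * U i else β i * L i)
          + t * (if 0 < β i then γ i * U i else γ i * L i)
      rcases lt_trichotomy (β i) 0 with h | h | h
      · have h2 := (hsign i).2 h
        rw [if_neg (not_lt.2 h2), if_neg (not_lt.2 h.le), if_neg (not_lt.2 h.le)]
        ring
      · rw [hsub i h, h]
        simp
      · have h2 := (hsign i).1 h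
        rw [if_pos h, if_pos h]
        rcases lt_or_eq_of_le h2 with h3 | h3
        · rw [if_pos h3]
          ring
        · rw [← h3, if_neg (lt_irrefl _)]
          have h4 : β i * U i + t * (γ i * U i) = (β i + t * γ i) * U i := by ring
          rw [h4, ← h3]
          ring
    rw [h1]
    have h2 := mul_nonpos_of_nonneg_of_nonpos ht0.le hc
    linarith
  · intro i hi
    show β i + t * γ i = 0
    rw [hi, hsub i hi]
    ring
  · show β i1 + t * γ i1 = 0
    rw [ht]
    field_simp
    ring

/-- a system is solvable if no circuit obstructs it -/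
theorem solvable {ι : Type} [Fintype ι] {r : ℕ} (b : ι → Fin r → ℝ) (L U : ι → ℝ)
    (hLU : ∀ i, L i ≤ U i)
    (h : ∀ β : ι → ℝ, β ≠ 0 → IsDep b β → IsCirc b β → 0 ≤ GG L U β) :
    ∃ y : Fin r → ℝ, ∀ i, L i ≤ ∑ p, b i p * y p ∧ ∑ p, b i p * y p ≤ U i := by
  classical
  by_contra hno
  obtain ⟨β, hβ, hG⟩ := farkas b L U hLU hno
  have key : ∀ n : ℕ, ∀ β : ι → ℝ, (Finset.univ.filter fun i => β i ≠ 0).card = n →
      IsDep b β → GG L U β < 0 → False := by
    intro n
    induction n using Nat.strong_induction_on with
    | _ n ih =>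
      intro β hn hβ hG
      have hsmall : ∀ β' : ι → ℝ, IsDep b β' → GG L U β' < 0 → (∀ i, β i = 0 → β' i = 0) →
          (∃ i, β i ≠ 0 ∧ β' i = 0) → False := by
        intro β' h1 h2 h3 h4
        obtain ⟨i, hi1, hi2⟩ := h4
        apply ih _ _ β' rfl h1 h2
        rw [← hn]
        apply Finset.card_lt_card
        rw [Finset.ssubset_iff_of_subset]
        · exact ⟨i, by simpa using hi1, by simpa using hi2⟩
        · intro j hj
          rw [Finset.mem_filter] at hj ⊢
          exact ⟨hj.1, fun hj0 => hj.2 (h3 j hj0)⟩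
      have hne : β ≠ 0 := by
        rintro rfl
        simp [GG] at hG
      by_cases hcirc : IsCirc b β
      · exact absurd (h β hne hβ hcirc) (not_le.2 hG)
      · unfold IsCirc at hcirc
        push Not at hcirc
        obtain ⟨γ, hγ, hsub, hz, hγ0⟩ := hcirc
        -- conformal case
        have hconf : ∀ γ : ι → ℝ, (∀ i, β i = 0 → γ i = 0) → (¬ ∃ i, β i * γ i < 0) →
            GG L U γ = ∑ i, (if 0 < β i then γ i * U i else γ i * L i) := by
          intro γ hs ho
          push Not at ho
          unfold GG
          apply Finset.sum_congr rfl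
          intro i _
          rcases lt_trichotomy (β i) 0 with h1 | h1 | h1
          · have h2 := ho i
            have h3 : γ i ≤ 0 := by
              by_contra hc
              nlinarith [not_le.1 hc]
            rw [if_neg (not_lt.2 h3), if_neg (not_lt.2 h1.le)]
          · rw [hs i h1]
            simp
          · have h2 := ho i
            have h3 : 0 ≤ γ i := by
              by_contra hc
              nlinarith [not_le.1 hc]
            rw [if_pos h1]
            rcases lt_or_eq_of_le h3 with h4 | h4
            · rw [if_pos h4]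
            · rw [← h4]
              simp
        have hneg : IsDep b (fun i => -γ i) := by
          intro p
          have h1 := hγ p
          have h2 : ∑ i, -γ i * b i p = -∑ i, γ i * b i p := by
            rw [← Finset.sum_neg_distrib]
            exact Finset.sum_congr rfl fun i _ => by ring
          rw [h2, h1, neg_zero]
        have hnegsub : ∀ i, β i = 0 → -γ i = 0 := fun i hi => by rw [hsub i hi, neg_zero]
        have hnegc : ∑ i, (if 0 < β i then -γ i * U i else -γ i * L i)
            = -∑ i, (if 0 < β i then γ i * U i else γ i * L i) := by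
          rw [← Finset.sum_neg_distrib]
          apply Finset.sum_congr rfl
          intro i _
          split_ifs <;> ring
        set c : ℝ := ∑ i, (if 0 < β i then γ i * U i else γ i * L i) with hc
        rcases lt_or_ge 0 c with hc0 | hc0
        · -- use -γ
          by_cases hopp : ∃ i, β i * -γ i < 0
          · obtain ⟨β', h1, h2, h3, h4⟩ := move b L U β (fun i => -γ i) hβ hG hneg hnegsub
              (by rw [hnegc]; linarith) hopp
            exact hsmall β' h1 h2 h3 h4
          · have h1 := hconf (fun i => -γ i) hnegsub hopp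
            have h1' : GG L U (fun i => -γ i) = -c := by rw [h1, hnegc]
            refine hsmall (fun i => -γ i) hneg (by rw [h1']; linarith) hnegsub ?_
            obtain ⟨i, hi1, hi2⟩ := hz
            exact ⟨i, hi1, by rw [hi2, neg_zero]⟩
        · by_cases hopp : ∃ i, β i * γ i < 0
          · obtain ⟨β', h1, h2, h3, h4⟩ := move b L U β γ hβ hG hγ hsub hc0 hopp
            exact hsmall β' h1 h2 h3 h4
          · have h1 := hconf γ hsub hopp
            rcases lt_or_eq_of_le hc0 with hc1 | hc1
            · exact hsmall γ hγ (by rw [h1]; exact hc1) hsub hz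
            · -- c = 0
              obtain ⟨i, hi⟩ : ∃ i, γ i ≠ 0 := by
                by_contra hcon
                push Not at hcon
                exact hγ0 (funext hcon)
              have hbi : β i ≠ 0 := fun h0 => hi (hsub i h0)
              push Not at hopp
              have h2 := hopp i
              have h3 : β i * γ i ≠ 0 := mul_ne_zero hbi hi
              have h4 : 0 < β i * γ i := lt_of_le_of_ne h2 (Ne.symm h3)
              obtain ⟨β', h5, h6, h7, h8⟩ := move b L U β (fun i => -γ i) hβ hG hneg hnegsub
                (by rw [hnegc, hc1]; simp) ⟨i, by nlinarith⟩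
              exact hsmall β' h5 h6 h7 h8
  exact key _ β rfl hβ hG

end Pool.Agent.Helper62.LS
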