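import Pool.Agent.Helper62.LS.Dep
import Pool.Agent.Helper62.LS.Circ

/-!
# LS: the determinant bound makes the floor system solvable
-/

namespace Pool.Agent.Helper62.LS

open Finset

theorem MM_cast {r : ℕ} (x : Fin (r + 1) → ℤ) (a : Fin (r + 1) → Fin r → ℤ) :
    (((MM x a).det : ℤ) : ℝ) = (MM (fun i => (x i : ℝ)) (fun i p => (a i p : ℝ))).det := by
  have h1 : (((MM x a).det : ℤ) : ℝ) = ((Int.castRingHom ℝ).mapMatrix (MM x a)).det :=
    RingHom.map_det (Int.castRingHom ℝ) (MM x a)
  rw [h1]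
  congr 1
  ext i j
  refine Fin.cases ?_ (fun j => ?_) j <;> simp [MM]

theorem of_cast {r : ℕ} (a : Fin r → Fin r → ℤ) :
    (((Matrix.of a).det : ℤ) : ℝ) = (Matrix.of (fun i p => (a i p : ℝ))).det := by
  have h1 : (((Matrix.of a).det : ℤ) : ℝ) = ((Int.castRingHom ℝ).mapMatrix (Matrix.of a)).det :=
    RingHom.map_det (Int.castRingHom ℝ) (Matrix.of a)
  rw [h1]
  congr 1

/-- transfer of sums to a completed circuit -/
theorem sum_transfer {ι' : Type} [Fintype ι'] [DecidableEq ι'] {ι : Type} (e : ι' → ι)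
    {r : ℕ} (τ : Fin r → ι) (hτ : Function.Injective τ)
    (β : ι' → ℝ) (j0 : ι') (s : Finset ι') (hs : ∀ j, j ∈ s ↔ β j ≠ 0 ∧ j ≠ j0)
    (hcov : ∀ j ∈ s, ∃ i, τ i = e j) (he : Function.Injective e)
    (β' : Fin (r + 1) → ℝ) (h0 : β' 0 = β j0)
    (h1 : ∀ i : Fin r, ∀ j ∈ s, τ i = e j → β' i.succ = β j)
    (h2 : ∀ i : Fin r, (∀ j ∈ s, τ i ≠ e j) → β' i.succ = 0)
    (X : ι' → ℝ) (x : Fin (r + 1) → ℝ) (hx0 : x 0 = X j0)
    (hx : ∀ i : Fin r, ∀ j ∈ s, τ i = e j → x i.succ = X j) :
    ∑ i, β' i * x i = ∑ j, β j * X j := by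
  classical
  rw [Fin.sum_univ_succ, h0, hx0]
  have h3 : ∑ j, β j * X j = β j0 * X j0 + ∑ j ∈ s, β j * X j := by
    rw [← Finset.add_sum_erase Finset.univ (fun j => β j * X j) (Finset.mem_univ j0)]
    congr 1
    symm
    apply Finset.sum_subset
    · intro j hj
      rw [Finset.mem_erase]
      exact ⟨((hs j).1 hj).2, Finset.mem_univ j⟩
    · intro j hj hjs
      rw [Finset.mem_erase] at hj
      have h4 : β j = 0 := by
        by_contra hne
        exact hjs ((hs j).2 ⟨hne, hj.1⟩)
      rw [h4, zero_mul]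
  rw [h3]
  congr 1
  have h4 : ∀ i : Fin r, β' i.succ * x i.succ = ∑ j ∈ s, if τ i = e j then β j * X j else 0 := by
    intro i
    by_cases h : ∃ j ∈ s, τ i = e j
    · obtain ⟨j, hj, hij⟩ := h
      rw [Finset.sum_eq_single j]
      · rw [if_pos hij, h1 i j hj hij, hx i j hj hij]
      · intro j' _ hne
        rw [if_neg]
        intro h
        exact hne (he (h.symm.trans hij))
      · intro h
        exact absurd hj h
    · push Not at h
      rw [h2 i h, zero_mul]
      symm
      apply Finset.sum_eq_zero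
      intro j hj
      rw [if_neg (h j hj)]
  simp only [h4]
  rw [Finset.sum_comm]
  apply Finset.sum_congr rfl
  intro j hj
  obtain ⟨i, hi⟩ := hcov j hj
  rw [Finset.sum_eq_single i]
  · rw [if_pos hi]
  · intro i' _ hne
    rw [if_neg]
    intro h
    exact hne (hτ (h.trans hi.symm))
  · intro h
    exact absurd (Finset.mem_univ i) h

theorem inj_of_det {ι : Type} {r : ℕ} (a : ι → Fin r → ℝ) (τ : Fin r → ι)
    (h : (Matrix.of fun j => a (τ j)).det ≠ 0) : Function.Injective τ := by
  intro i j hij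
  by_contra hne
  apply h
  apply Matrix.det_zero_of_row_eq hne
  ext p
  simp [hij]

/-- The floor system of a configuration with bounded determinants is solvable. The
subfamily `C` may have all its completed determinants divisible by `q`. -/
theorem floor_solvable {ι : Type} [Fintype ι] {r : ℕ} (a : ι → Fin r → ℤ) (lo up : ι → ℝ) (T : ℝ)
    (hT : ∀ (τ : Fin (r + 1) → ι) (x : Fin (r + 1) → ℝ),
      (∀ i, x i = lo (τ i) ∨ x i = up (τ i)) →
      |(MM x (fun i p => (a (τ i) p : ℝ))).det| ≤ T)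
    (C : Finset ι) (q : ℕ) (hq : 0 < q)
    (hcomp : ∀ s : Finset ι, s ⊆ C → LinearIndepOn ℝ (fun i p => (a i p : ℝ)) (s : Set ι) →
      ∃ τ : Fin r → ι, (Matrix.of fun j => a (τ j)).det ≠ 0 ∧ (∀ i ∈ s, ∃ j, τ j = i) ∧
        ∀ j ∈ C, ∀ x : Fin (r + 1) → ℤ,
          (q : ℤ) ∣ (MM x (fun i => a ((Fin.cons j τ : Fin (r + 1) → ι) i))).det)
    (E : Fin r → ℝ) (hE : ∀ i ∈ C, 0 < ∑ p, (a i p : ℝ) * E p)
    (M : ℕ) (hM : 0 < M) (k : Fin r → ℤ) :
    ∃ y : Fin r → ℝ, ∀ i ∈ C,
      T / q * (((∑ p, a i p * k p) / (M : ℤ) : ℤ) : ℝ) - lo i ≤ ∑ p, (a i p : ℝ) * y p ∧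
      ∑ p, (a i p : ℝ) * y p
        ≤ T / q * (((∑ p, a i p * k p) / (M : ℤ) : ℤ) : ℝ) + T / q - up i := by
  classical
  have hqR : (0 : ℝ) < q := by exact_mod_cast hq
  rcases C.eq_empty_or_nonempty with rfl | hCne
  · exact ⟨0, fun i hi => absurd hi (Finset.notMem_empty i)⟩
  set f : ι → ℤ := fun i => (∑ p, a i p * k p) / (M : ℤ) with hf
  have hT0 : 0 ≤ T := by
    obtain ⟨i, _⟩ := hCne
    exact (abs_nonneg _).trans (hT (fun _ => i) (fun _ => lo i) fun _ => Or.inl rfl)
  -- length of the intervals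
  have hlen : ∀ j ∈ C, up j - lo j ≤ T / q := by
    intro j hj
    obtain ⟨τ, hτ, hcov, hdiv⟩ := hcomp {j} (by simpa using hj) (by
      rw [Finset.coe_singleton, linearIndepOn_singleton_iff]
      intro h0
      have h1 := hE j hj
      have h2 : ∑ p, (a j p : ℝ) * E p = 0 := by
        apply Finset.sum_eq_zero
        intro p _
        have := congrFun h0 p
        simp only [Pi.zero_apply] at this
        rw [this, zero_mul]
      linarith)
    obtain ⟨i1, hi1⟩ := hcov j (Finset.mem_singleton_self j)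
    set τ' : Fin (r + 1) → ι := Fin.cons j τ with hτ'
    set D0 : ℤ := (Matrix.of fun j => a (τ j)).det with hD0
    have hD0R : (Matrix.of fun j : Fin r => (fun p => (a (τ' j.succ) p : ℝ))).det = (D0 : ℝ) := by
      rw [hD0, of_cast]
      congr 1
    -- |D0| ≥ q
    have h1 : (q : ℤ) ∣ D0 := by
      have h2 := hdiv j hj (Fin.cons 1 (fun _ => 0))
      have h3 : (MM (Fin.cons 1 (fun _ => 0) : Fin (r + 1) → ℤ) (fun i => a (τ' i))).det = D0 := by
        rw [MM_expand, Fin.sum_univ_succ]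
        have h4 : ∑ i : Fin r, (-1 : ℤ) ^ ((i.succ : Fin (r + 1)) : ℕ)
            * (Fin.cons 1 (fun _ => 0) : Fin (r + 1) → ℤ) i.succ
            * (Matrix.of fun j : Fin r => a (τ' (i.succ.succAbove j))).det = 0 := by
          apply Finset.sum_eq_zero
          intro i _
          simp
        rw [h4]
        simp [hτ', hD0]
      rw [h3] at h2
      exact h2
    have h2 : (q : ℤ) ≤ |D0| := by
      apply Int.le_of_dvd (abs_pos.2 hτ)
      rwa [dvd_abs]
    have h2R : (q : ℝ) ≤ |(D0 : ℝ)| := by exact_mod_cast h2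
    set β' : Fin (r + 1) → ℝ := Fin.cons 1 (fun i => if i = i1 then -1 else 0) with hβ'
    set x : Fin (r + 1) → ℝ := Fin.cons (up j) (fun i => lo (τ i)) with hx
    have h3 := dep (fun i p => (a (τ' i) p : ℝ)) β' (by
      intro p
      rw [Fin.sum_univ_succ]
      simp only [hβ', hτ', Fin.cons_zero, Fin.cons_succ]
      rw [Finset.sum_eq_single i1]
      · simp [hi1]
      · intro b _ hb
        simp [hb]
      · simp) (by rw [hD0R]; exact_mod_cast hτ) x
    rw [hD0R] at h3
    have h4 : ∑ i, β' i * x i = up j - lo j := by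
      rw [Fin.sum_univ_succ]
      simp only [hβ', hx, Fin.cons_zero, Fin.cons_succ]
      rw [Finset.sum_eq_single i1]
      · simp only [if_true, hi1]
        ring
      · intro b _ hb
        simp [hb]
      · simp
    rw [h4] at h3
    have h5 := hT τ' x (by
      intro i
      refine Fin.cases ?_ (fun i => ?_) i
      · right
        simp [hx, hτ']
      · left
        simp [hx, hτ'])
    have h6 : β' 0 = 1 := by simp [hβ']
    rw [h6, one_mul] at h3
    rw [h3, abs_mul] at h5
    rw [le_div_iff₀ hqR]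
    rcases le_or_gt 0 (up j - lo j) with h7 | h7
    · rw [abs_of_nonneg h7] at h5
      nlinarith
    · nlinarith
  -- generic point
  obtain ⟨η, hη0, hη⟩ : ∃ η : ℝ, 0 < η ∧ ∀ i ∈ C, η * ∑ p, (a i p : ℝ) * E p < 1 := by
    set W : ℝ := ∑ i ∈ C, ∑ p, (a i p : ℝ) * E p with hW
    have hW0 : ∀ i ∈ C, ∑ p, (a i p : ℝ) * E p ≤ W := fun i hi =>
      Finset.single_le_sum (f := fun i => ∑ p, (a i p : ℝ) * E p) (fun j hj => (hE j hj).le) hi
    have hWp : 0 < W := by
      obtain ⟨i, hi⟩ := hCne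
      exact (hE i hi).trans_le (hW0 i hi)
    refine ⟨1 / (2 * W), by positivity, fun i hi => ?_⟩
    have h1 : 1 / (2 * W) * ∑ p, (a i p : ℝ) * E p ≤ 1 / (2 * W) * W :=
      mul_le_mul_of_nonneg_left (hW0 i hi) (by positivity)
    have h2 : 1 / (2 * W) * W = 1 / 2 := by field_simp
    linarith
  have hMR : (0 : ℝ) < M := by exact_mod_cast hM
  set θ : Fin r → ℝ := fun p => ((k p : ℝ) + η * E p) / M with hθ
  have hfloor : ∀ i ∈ C, (f i : ℝ) < ∑ p, (a i p : ℝ) * θ p ∧
      ∑ p, (a i p : ℝ) * θ p < (f i : ℝ) + 1 := by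
    intro i hi
    have h1 : ∑ p, (a i p : ℝ) * θ p
        = (((∑ p, a i p * k p : ℤ) : ℝ) + η * ∑ p, (a i p : ℝ) * E p) / M := by
      push_cast
      rw [eq_div_iff hMR.ne', Finset.sum_mul, Finset.mul_sum, ← Finset.sum_add_distrib]
      apply Finset.sum_congr rfl
      intro p _
      simp only [hθ]
      field_simp
    have h2 := Int.emod_add_mul_ediv (∑ p, a i p * k p) (M : ℤ)
    have h3 := Int.emod_nonneg (∑ p, a i p * k p) (by exact_mod_cast hM.ne' : (M : ℤ) ≠ 0)
    have h4 := Int.emod_lt_of_pos (∑ p, a i p * k p) (by exact_mod_cast hM : (0 : ℤ) < M)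
    have h5 : ((∑ p, a i p * k p : ℤ) : ℝ)
        = (((∑ p, a i p * k p) % (M : ℤ) : ℤ) : ℝ) + M * (f i : ℝ) := by
      rw [hf]
      exact_mod_cast h2.symm
    have h6 : (0 : ℝ) ≤ (((∑ p, a i p * k p) % (M : ℤ) : ℤ) : ℝ) := by exact_mod_cast h3
    have h7 : (((∑ p, a i p * k p) % (M : ℤ) : ℤ) : ℝ) ≤ M - 1 := by
      have : ((∑ p, a i p * k p) % (M : ℤ) : ℤ) ≤ (M : ℤ) - 1 := by omega
      exact_mod_cast this
    have h8 := hE i hi
    have h9 := hη i hi
    have h10 : 0 < η * ∑ p, (a i p : ℝ) * E p := by positivity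
    rw [h1, h5]
    constructor
    · rw [lt_div_iff₀ hMR]
      linarith
    · rw [div_lt_iff₀ hMR]
      linarith
  -- the solvability criterion
  let ι' : Type := {i // i ∈ C}
  have hsol := solvable (ι := ι') (fun i p => (a i.1 p : ℝ))
    (fun i => T / q * (f i.1 : ℝ) - lo i.1) (fun i => T / q * (f i.1 : ℝ) + T / q - up i.1)
    (fun i => by have := hlen i.1 i.2; linarith) (by
    intro β hne hdep hcirc
    obtain ⟨j0, hj0⟩ : ∃ j, β j ≠ 0 := by
      by_contra hcon
      push Not at hcon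
      exact hne (funext hcon)
    set s : Finset ι' := Finset.univ.filter fun j => β j ≠ 0 ∧ j ≠ j0 with hs
    have hsmem : ∀ j, j ∈ s ↔ β j ≠ 0 ∧ j ≠ j0 := fun j => by simp [hs]
    set s' : Finset ι := s.map ⟨Subtype.val, Subtype.val_injective⟩ with hs'
    have hs'mem : ∀ i, i ∈ s' ↔ ∃ j ∈ s, j.1 = i := fun i => by
      rw [hs', Finset.mem_map]
      rfl
    have hind : LinearIndepOn ℝ (fun i p => (a i p : ℝ)) (s' : Set ι) := by
      rw [linearIndepOn_finset_iff]
      intro g hg i hi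
      set γ : ι' → ℝ := fun j => if j ∈ s then g j.1 else 0 with hγ
      have h1 : γ = 0 := by
        apply hcirc γ
        · intro p
          have h2 := congrFun hg p
          rw [Finset.sum_apply] at h2
          rw [hs', Finset.sum_map] at h2
          simp only [Function.Embedding.coeFn_mk, Pi.smul_apply, smul_eq_mul, Pi.zero_apply] at h2
          rw [← h2]
          symm
          have h3 : ∑ j ∈ s, g j.1 * (a j.1 p : ℝ) = ∑ j ∈ s, γ j * (a j.1 p : ℝ) :=
            Finset.sum_congr rfl fun j hj => by simp only [hγ, if_pos hj]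
          rw [h3]
          apply Finset.sum_subset (Finset.subset_univ s)
          intro j _ hj
          simp only [hγ, if_neg hj, zero_mul]
        · intro j hj
          simp only [hγ]
          rw [if_neg]
          intro h
          exact ((hsmem j).1 h).1 hj
        · refine ⟨j0, hj0, ?_⟩
          simp only [hγ]
          rw [if_neg]
          intro h
          exact ((hsmem j0).1 h).2 rfl
      obtain ⟨j, hj, rfl⟩ := (hs'mem i).1 hi
      have h2 := congrFun h1 j
      simpa [hγ, hj] using h2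
    obtain ⟨τ, hτ, hcov, hdiv⟩ := hcomp s' (by
      intro i hi
      obtain ⟨j, _, rfl⟩ := (hs'mem i).1 hi
      exact j.2) hind
    set D0 : ℤ := (Matrix.of fun j => a (τ j)).det with hD0
    set τ' : Fin (r + 1) → ι := Fin.cons j0.1 τ with hτ'
    have hD0R : (Matrix.of fun j : Fin r => (fun p => (a (τ' j.succ) p : ℝ))).det = (D0 : ℝ) := by
      rw [hD0, of_cast]
      congr 1
    have hτinj : Function.Injective τ := by
      apply inj_of_det (fun i p => (a i p : ℝ)) τ
      have h1 := of_cast (fun j => a (τ j))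
      rw [← h1]
      exact_mod_cast hτ
    -- the completed dependency
    set β' : Fin (r + 1) → ℝ := Fin.cons (β j0)
      (fun i => if h : ∃ j ∈ s, τ i = j.1 then β h.choose else 0) with hβ'
    have hb1 : ∀ i : Fin r, ∀ j ∈ s, τ i = j.1 → β' i.succ = β j := by
      intro i j hj hij
      have hex : ∃ j ∈ s, τ i = j.1 := ⟨j, hj, hij⟩
      simp only [hβ', Fin.cons_succ]
      rw [dif_pos hex]
      congr 1
      apply Subtype.ext
      rw [← hex.choose_spec.2, hij]
    have hb2 : ∀ i : Fin r, (∀ j ∈ s, τ i ≠ j.1) → β' i.succ = 0 := by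
      intro i hi
      simp only [hβ', Fin.cons_succ]
      rw [dif_neg]
      push Not
      exact hi
    have hcov' : ∀ j ∈ s, ∃ i, τ i = j.1 := fun j hj => hcov j.1 ((hs'mem _).2 ⟨j, hj, rfl⟩)
    have htr : ∀ (X : ι' → ℝ) (x : Fin (r + 1) → ℝ), x 0 = X j0 →
        (∀ i : Fin r, ∀ j ∈ s, τ i = j.1 → x i.succ = X j) →
        ∑ i, β' i * x i = ∑ j, β j * X j := fun X x h0 h1 =>
      sum_transfer (fun j : ι' => j.1) τ hτinj β j0 s hsmem hcov' Subtype.val_injective β'
        (by simp [hβ']) hb1 hb2 X x h0 h1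
    have hdep' : ∀ p, ∑ i, β' i * (a (τ' i) p : ℝ) = 0 := by
      intro p
      rw [htr (fun j => (a j.1 p : ℝ)) (fun i => (a (τ' i) p : ℝ)) (by simp [hτ'])
        (fun i j _ hij => by simp [hτ', hij])]
      exact hdep p
    have hD := dep (fun i p => (a (τ' i) p : ℝ)) β' hdep' (by rw [hD0R]; exact_mod_cast hτ)
    rw [hD0R] at hD
    -- the two choices of the column
    set Q : ℝ := ∑ j, β j * (if 0 < β j then (f j.1 : ℝ) + 1 else (f j.1 : ℝ)) with hQ
    set H : ℝ := ∑ j, β j * (if 0 < β j then up j.1 else lo j.1) with hH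
    have hGG : GG (fun i : ι' => T / q * (f i.1 : ℝ) - lo i.1)
        (fun i => T / q * (f i.1 : ℝ) + T / q - up i.1) β = T / q * Q - H := by
      unfold GG
      rw [hQ, hH, Finset.mul_sum, ← Finset.sum_sub_distrib]
      apply Finset.sum_congr rfl
      intro j _
      split_ifs <;> ring
    have hQpos : 0 < Q := by
      have h1 : ∑ j, β j * (∑ p, (a j.1 p : ℝ) * θ p) = 0 := by
        simp only [Finset.mul_sum]
        rw [Finset.sum_comm]
        apply Finset.sum_eq_zero
        intro p _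
        have h2 := hdep p
        have h3 : ∑ j, β j * ((a j.1 p : ℝ) * θ p) = (∑ j, β j * (a j.1 p : ℝ)) * θ p := by
          rw [Finset.sum_mul]
          exact Finset.sum_congr rfl fun j _ => by ring
        rw [h3, h2, zero_mul]
      have h2 : Q = ∑ j, β j * ((if 0 < β j then (f j.1 : ℝ) + 1 else (f j.1 : ℝ))
          - ∑ p, (a j.1 p : ℝ) * θ p) := by
        simp only [mul_sub, Finset.sum_sub_distrib]
        rw [h1, sub_zero]
      rw [h2]
      apply Finset.sum_pos'
      · intro j _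
        have h3 := hfloor j.1 j.2
        split_ifs with h
        · exact mul_nonneg h.le (by linarith [h3.2])
        · exact mul_nonneg_of_nonpos_of_nonpos (not_lt.1 h) (by linarith [h3.1])
      · refine ⟨j0, Finset.mem_univ _, ?_⟩
        have h3 := hfloor j0.1 j0.2
        split_ifs with h
        · exact mul_pos h (by linarith [h3.2])
        · exact mul_pos_of_neg_of_neg (lt_of_le_of_ne (not_lt.1 h) hj0) (by linarith [h3.1])
    -- integer column
    set xq : Fin (r + 1) → ℤ := Fin.cons (if 0 < β j0 then f j0.1 + 1 else f j0.1)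
      (fun i => if 0 < β' i.succ then f (τ i) + 1 else f (τ i)) with hxq
    have hxqs : ∑ i, β' i * (xq i : ℝ) = Q := by
      apply htr
      · simp only [hxq, Fin.cons_zero]
        split_ifs <;> push_cast <;> rfl
      · intro i j hj hij
        simp only [hxq, Fin.cons_succ, hb1 i j hj hij, hij]
        split_ifs <;> push_cast <;> rfl
    set xh : Fin (r + 1) → ℝ := Fin.cons (if 0 < β j0 then up j0.1 else lo j0.1)
      (fun i => if 0 < β' i.succ then up (τ i) else lo (τ i)) with hxh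
    have hxhs : ∑ i, β' i * xh i = H := by
      apply htr
      · simp only [hxh, Fin.cons_zero]
      · intro i j hj hij
        simp only [hxh, Fin.cons_succ, hb1 i j hj hij, hij]
    have hq1 := hD (fun i => (xq i : ℝ))
    rw [hxqs] at hq1
    have hh1 := hD xh
    rw [hxhs] at hh1
    have hβ0 : β' 0 = β j0 := by simp [hβ']
    rw [hβ0] at hq1 hh1
    have hdq : (q : ℤ) ∣ (MM xq (fun i => a (τ' i))).det := hdiv j0.1 j0.2 xq
    have hcast := MM_cast xq (fun i => a (τ' i))
    have hD0ne : (D0 : ℝ) ≠ 0 := by exact_mod_cast hτ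
    have hdetne : (MM xq (fun i => a (τ' i))).det ≠ 0 := by
      intro h
      rw [← hcast, h] at hq1
      simp only [Int.cast_zero, mul_zero] at hq1
      have := mul_ne_zero hD0ne hQpos.ne'
      exact this hq1.symm
    have hge : (q : ℝ) ≤ |(MM (fun i => (xq i : ℝ)) (fun i p => (a (τ' i) p : ℝ))).det| := by
      rw [← hcast]
      have h1 : (q : ℤ) ≤ |(MM xq (fun i => a (τ' i))).det| := by
        apply Int.le_of_dvd (abs_pos.2 hdetne)
        rwa [dvd_abs]
      exact_mod_cast h1
    have hle := hT τ' xh (by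
      intro i
      refine Fin.cases ?_ (fun i => ?_) i
      · simp only [hxh, hτ', Fin.cons_zero]
        split_ifs
        · exact Or.inr rfl
        · exact Or.inl rfl
      · simp only [hxh, hτ', Fin.cons_succ]
        split_ifs
        · exact Or.inr rfl
        · exact Or.inl rfl)
    rw [hGG]
    have e1 : |β j0| * |(MM (fun i => (xq i : ℝ)) (fun i p => (a (τ' i) p : ℝ))).det|
        = |(D0 : ℝ)| * Q := by
      rw [← abs_mul, hq1, abs_mul, abs_of_pos hQpos]
    have e2 : |β j0| * |(MM xh (fun i p => (a (τ' i) p : ℝ))).det| = |(D0 : ℝ)| * |H| := by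
      rw [← abs_mul, hh1, abs_mul]
    have hb0 : 0 < |β j0| := abs_pos.2 hj0
    have hD0p : 0 < |(D0 : ℝ)| := abs_pos.2 hD0ne
    have e3 : |β j0| * q ≤ |(D0 : ℝ)| * Q := by
      rw [← e1]
      exact mul_le_mul_of_nonneg_left hge hb0.le
    have e4 : |(D0 : ℝ)| * |H| ≤ |β j0| * T := by
      rw [← e2]
      exact mul_le_mul_of_nonneg_left hle hb0.le
    have e5 : |(D0 : ℝ)| * H ≤ |(D0 : ℝ)| * (T / q * Q) := by
      calc |(D0 : ℝ)| * H ≤ |(D0 : ℝ)| * |H| :=
            mul_le_mul_of_nonneg_left (le_abs_self H) hD0p.le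
        _ ≤ |β j0| * T := e4
        _ = T / q * (|β j0| * q) := by field_simp
        _ ≤ T / q * (|(D0 : ℝ)| * Q) :=
            mul_le_mul_of_nonneg_left e3 (div_nonneg hT0 hqR.le)
        _ = |(D0 : ℝ)| * (T / q * Q) := by ring
    have e6 := le_of_mul_le_mul_left e5 hD0p
    linarith)
  obtain ⟨y, hy⟩ := hsol
  exact ⟨y, fun i hi => hy ⟨i, hi⟩⟩

end Pool.Agent.Helper62.LS
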