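import Pool.Agent.Helper62.LS.Fld

/-!
# LS: the averaging theorem
-/

namespace Pool.Agent.Helper62.LS

open Finset

section Avg

variable {κ : Type} [Fintype κ] [DecidableEq κ] {r : ℕ} {u c : κ → Fin r → ℤ} {G : κ → Finset ℕ}
  {lo up : κ → ℕ → ℝ} {T : ℝ} {M : ℕ} {C : ℤ}

/-- `C` bounds all the shifts -/
def CB (u c : κ → Fin r → ℤ) (C : ℤ) : Prop :=
  0 ≤ C ∧ ∀ i j p, (|u i p| + 1) * |dt (u j) (c i)| + |u j p| ≤ C

theorem CB.v1 (h : CB u c C) (i j : κ) (p : Fin r) (s : ℕ) (hs : s < (u i p).natAbs) :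
    |dt (u j) ((-(sg (u i p) s)) • c i)| ≤ C := by
  rw [dt_smul, abs_mul, abs_neg]
  have h1 := h.2 i j p
  have h2 := abs_sg_le (u i p) s hs
  have h3 := abs_nonneg (dt (u j) (c i))
  have h4 := abs_nonneg (u j p)
  nlinarith

theorem CB.v2 (h : CB u c C) (i j : κ) (p : Fin r) (s : ℕ) (hs : s < (u i p).natAbs) :
    |dt (u j) ((-(sg (u i p) s)) • c i + Pi.single p 1)| ≤ C := by
  rw [dt_add, dt_smul, dt_single]
  refine (abs_add_le _ _).trans ?_
  rw [abs_mul, abs_neg]
  have h1 := h.2 i j p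
  have h2 := abs_sg_le (u i p) s hs
  have h3 := abs_nonneg (dt (u j) (c i))
  have h4 := abs_nonneg (u j p)
  nlinarith

theorem CB.v3 (h : CB u c C) (i j : κ) (p : Fin r) : |dt (u j) (c i)| ≤ C := by
  have h1 := h.2 i j p
  have h3 := abs_nonneg (dt (u j) (c i))
  have h4 := abs_nonneg (u j p)
  have h5 := abs_nonneg (u i p)
  nlinarith

theorem CB.v4 (h : CB u c C) (j : κ) (p : Fin r) : |u j p| ≤ C := by
  have h1 := h.2 j j p
  have h3 := abs_nonneg (dt (u j) (c j))
  have h5 := abs_nonneg (u j p)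
  nlinarith

theorem CB.v5 (h : CB u c C) (j : κ) : |dt (u j) (0 : Fin r → ℤ)| ≤ C := by
  have : dt (u j) (0 : Fin r → ℤ) = 0 := by simp [dt]
  rw [this, abs_zero]
  exact h.1

theorem step_sum {y : (Fin r → ℤ) → Fin r → ℝ} (h : Sol u G lo up T M y) {n : ℕ} (hM : 0 < M)
    (hGM : ∀ i, ∀ g ∈ G i, g ∣ M) (hG0 : ∀ i, ∀ g ∈ G i, 0 < g)
    (hn : ∀ i, ∀ g ∈ G i, n ∣ M / g) (hnC : C < n) (hCB : CB u c C) (i : κ)
    (hc : dt (u i) (c i) = 1) (k : Fin r → ℤ) (hbad : ¬ Bad u G M C k)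
    (hlay : Lay M (G i) (dt (u i) k)) (p : Fin r) :
    ∑ s ∈ Finset.range (u i p).natAbs,
      (y (k + (-(sg (u i p) s)) • c i + Pi.single p 1) p - y (k + (-(sg (u i p) s)) • c i) p)
      = (u i p : ℝ) * (y (k + c i) p - y k p) := by
  have hz : dt (u i) (0 : Fin r → ℤ) = 0 := by simp [dt]
  have key : ∀ v w : Fin r → ℤ, (∀ j, |dt (u j) v| ≤ C) → (∀ j, |dt (u j) w| ≤ C) →
      ((dt (u i) v ≤ 0 ∧ dt (u i) w ≤ 0) ∨ (1 ≤ dt (u i) v ∧ 1 ≤ dt (u i) w)) →
      y (k + v) = y (k + w) := fun v w hv hw hs =>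
    h.same _ _ (sameF_of hM hGM hG0 hn hnC i k v w hbad hlay hCB.1 hv hw hs)
  rcases le_or_gt 0 (u i p) with ha | ha
  · have h1 : ∀ s ∈ Finset.range (u i p).natAbs,
      (y (k + (-(sg (u i p) s)) • c i + Pi.single p 1) p - y (k + (-(sg (u i p) s)) • c i) p)
        = y (k + c i) p - y k p := by
      intro s hs
      rw [Finset.mem_range] at hs
      have hsg : sg (u i p) s = (s : ℤ) := if_pos ha
      have e1 : y (k + (-(sg (u i p) s)) • c i) = y (k + 0) := by
        apply key _ _ (fun j => hCB.v1 i j p s hs) (fun j => hCB.v5 j)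
        left
        rw [dt_smul, hc, hz, hsg]
        constructor
        · have : (0 : ℤ) ≤ s := Int.natCast_nonneg s
          linarith
        · exact le_refl 0
      have e2 : y (k + ((-(sg (u i p) s)) • c i + Pi.single p 1)) = y (k + c i) := by
        apply key _ _ (fun j => hCB.v2 i j p s hs) (fun j => hCB.v3 i j p)
        right
        rw [dt_add, dt_smul, dt_single, hc, hsg]
        constructor
        · omega
        · exact le_refl 1
      rw [add_assoc, e2, e1, add_zero]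
    rw [Finset.sum_congr rfl h1, Finset.sum_const, Finset.card_range, nsmul_eq_mul]
    rw [Nat.cast_natAbs, abs_of_nonneg ha]
  · have h1 : ∀ s ∈ Finset.range (u i p).natAbs,
      (y (k + (-(sg (u i p) s)) • c i + Pi.single p 1) p - y (k + (-(sg (u i p) s)) • c i) p)
        = -(y (k + c i) p - y k p) := by
      intro s hs
      rw [Finset.mem_range] at hs
      have hsg : sg (u i p) s = -1 - (s : ℤ) := if_neg (not_le.2 ha)
      have e1 : y (k + (-(sg (u i p) s)) • c i) = y (k + c i) := by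
        apply key _ _ (fun j => hCB.v1 i j p s hs) (fun j => hCB.v3 i j p)
        right
        rw [dt_smul, hc, hsg]
        constructor
        · have : (0 : ℤ) ≤ s := Int.natCast_nonneg s
          linarith
        · exact le_refl 1
      have e2 : y (k + ((-(sg (u i p) s)) • c i + Pi.single p 1)) = y (k + 0) := by
        apply key _ _ (fun j => hCB.v2 i j p s hs) (fun j => hCB.v5 j)
        left
        rw [dt_add, dt_smul, dt_single, hc, hsg, hz]
        constructor
        · omega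
        · exact le_refl 0
      rw [add_assoc, e2, e1, add_zero]
      ring
    rw [Finset.sum_congr rfl h1, Finset.sum_const, Finset.card_range, nsmul_eq_mul, mul_neg,
      ← neg_mul]
    rw [Nat.cast_natAbs, abs_of_neg ha]
    push_cast
    ring

/-- step differences -/
def Df (y : (Fin r → ℤ) → Fin r → ℝ) (p : Fin r) (k : Fin r → ℤ) : ℝ :=
  y (k + Pi.single p 1) p - y k p

theorem Df_per {y : (Fin r → ℤ) → Fin r → ℝ} (h : Sol u G lo up T M y) (p : Fin r) :
    Per M (Df y p) := by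
  intro k z
  unfold Df
  have h1 : k + (fun p => (M : ℤ) * z p) + Pi.single p 1
      = (k + Pi.single p 1) + fun p => (M : ℤ) * z p := by abel
  rw [h1, h.per, h.per]
  simp only [Pi.add_apply]
  ring

theorem sum_Df [NeZero M] {y : (Fin r → ℤ) → Fin r → ℝ} (h : Sol u G lo up T M y) (p : Fin r) :
    (M : ℝ) * SS M (Df y p) = (M : ℝ) ^ r * T := by
  have h1 : ∀ s ∈ Finset.range M, SS M (Df y p)
      = SS M (fun k => Df y p (k + (s : ℤ) • (Pi.single p 1 : Fin r → ℤ))) := fun s _ =>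
    (SS_shift (Df_per h p) _).symm
  have h2 : (M : ℝ) * SS M (Df y p) = ∑ s ∈ Finset.range M, SS M (Df y p) := by
    rw [Finset.sum_const, Finset.card_range, nsmul_eq_mul]
  rw [h2, Finset.sum_congr rfl h1, ← SS_sum, ← SS_const]
  congr 1
  funext k
  have h3 : ∀ s : ℕ, Df y p (k + (s : ℤ) • (Pi.single p 1 : Fin r → ℤ))
      = y (k + ((s + 1 : ℕ) : ℤ) • (Pi.single p 1 : Fin r → ℤ)) p
        - y (k + (s : ℤ) • (Pi.single p 1 : Fin r → ℤ)) p := by
    intro s
    unfold Df
    congr 2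
    push_cast
    rw [add_smul, one_smul, add_assoc]
  rw [Finset.sum_congr rfl fun s _ => h3 s]
  rw [Finset.sum_range_sub (fun s : ℕ => y (k + (s : ℤ) • (Pi.single p 1 : Fin r → ℤ)) p) M]
  have h4 : (k + ((M : ℕ) : ℤ) • (Pi.single p 1 : Fin r → ℤ))
      = k + fun q => (M : ℤ) * (Pi.single p 1 : Fin r → ℤ) q := by
    congr 1
  rw [h4, h.per]
  simp

open Classical in
/-- the indicator of the bad points -/
noncomputable def bd (u : κ → Fin r → ℤ) (G : κ → Finset ℕ) (M : ℕ) (C : ℤ) (k : Fin r → ℤ) : ℝ :=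
  if Bad u G M C k then 1 else 0

theorem bd_nonneg (k : Fin r → ℤ) : 0 ≤ bd u G M C k := by
  unfold bd
  split_ifs <;> norm_num

theorem SS_bd [NeZero M] (hGM : ∀ i, ∀ g ∈ G i, g ∣ M) (hG0 : ∀ i, ∀ g ∈ G i, 0 < g)
    (hnp : ∀ i j, i ≠ j → ∃ p q, u i p * u j q - u i q * u j p ≠ 0) :
    (M : ℝ) ^ 2 * SS M (bd u G M C) ≤ cbad u G C * (M : ℝ) ^ r := by
  classical
  have h1 : SS M (bd u G M C)
      = ((Finset.univ.filter fun k : Fin r → ZMod M => Bad u G M C (lift M k)).card : ℝ) := by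
    unfold SS bd
    rw [Finset.sum_boole]
  rw [h1]
  exact_mod_cast card_bad hGM hG0 hnp C

open Classical in
/-- pointwise comparison -/
theorem point_one {y : (Fin r → ℤ) → Fin r → ℝ} (h : Sol u G lo up T M y) {n : ℕ} (hM : 0 < M)
    (hGM : ∀ i, ∀ g ∈ G i, g ∣ M) (hG0 : ∀ i, ∀ g ∈ G i, 0 < g)
    (hn : ∀ i, ∀ g ∈ G i, n ∣ M / g) (hnC : C < n) (hCB : CB u c C)
    (hc : ∀ i, dt (u i) (c i) = 1) (K : ℝ) (hK0 : 0 ≤ K)
    (hK : ∀ (k v : Fin r → ℤ), (∀ j, |dt (u j) v| ≤ C) → ∀ p, |y (k + v) p - y k p| ≤ K)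
    (i : κ) (k : Fin r → ℤ) :
    wt M (G i) (fun g => up i g - lo i g) (dt (u i) k)
      ≤ (∑ p, ∑ s ∈ Finset.range (u i p).natAbs,
        if Lay M (G i) (dt (u i) k) then Df y p (k + (-(sg (u i p) s)) • c i) else 0)
        + (∑ p, 4 * |(u i p : ℝ)| * K) * bd u G M C k := by
  have hK2 : 0 ≤ ∑ p, 4 * |(u i p : ℝ)| * K := Finset.sum_nonneg fun p _ => by positivity
  by_cases hlay : Lay M (G i) (dt (u i) k)
  · have h1 := h.jump hM hGM hG0 i (hc i) k hlay
    simp only [if_pos hlay]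
    refine h1.trans ?_
    unfold rd
    by_cases hbad : Bad u G M C k
    · have hb : bd u G M C k = 1 := if_pos hbad
      rw [hb, mul_one, ← Finset.sum_add_distrib]
      apply Finset.sum_le_sum
      intro p _
      have h2 : (u i p : ℝ) * (y (k + c i) - y k) p ≤ |(u i p : ℝ)| * K := by
        refine (le_abs_self _).trans ?_
        rw [abs_mul]
        exact mul_le_mul_of_nonneg_left (hK k (c i) (fun j => hCB.v3 i j p) p) (abs_nonneg _)
      have h3 : -(3 * |(u i p : ℝ)| * K) ≤ ∑ s ∈ Finset.range (u i p).natAbs,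
          Df y p (k + (-(sg (u i p) s)) • c i) := by
        have h4 : ∑ s ∈ Finset.range (u i p).natAbs, (-(2 * K)) ≤ ∑ s ∈ Finset.range (u i p).natAbs,
          Df y p (k + (-(sg (u i p) s)) • c i) := by
          apply Finset.sum_le_sum
          intro s hs
          rw [Finset.mem_range] at hs
          unfold Df
          have h5 := abs_le.1 (hK k ((-(sg (u i p) s)) • c i) (fun j => hCB.v1 i j p s hs) p)
          have h6 := abs_le.1 (hK k ((-(sg (u i p) s)) • c i + Pi.single p 1)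
            (fun j => hCB.v2 i j p s hs) p)
          rw [← add_assoc] at h6
          linarith [h5.1, h5.2, h6.1, h6.2]
        rw [Finset.sum_const, Finset.card_range, nsmul_eq_mul, Nat.cast_natAbs, Int.cast_abs] at h4
        nlinarith [abs_nonneg (u i p : ℝ)]
      linarith
    · have hb : bd u G M C k = 0 := if_neg hbad
      rw [hb, mul_zero, add_zero]
      apply le_of_eq
      apply Finset.sum_congr rfl
      intro p _
      rw [Pi.sub_apply, ← step_sum h hM hGM hG0 hn hnC hCB i (hc i) k hbad hlay p]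
      rfl
  · rw [wt_of_not hlay]
    simp only [if_neg hlay, Finset.sum_const_zero, zero_add]
    exact mul_nonneg hK2 (bd_nonneg k)

open Classical in
theorem shift_one [NeZero M] {y : (Fin r → ℤ) → Fin r → ℝ} (h : Sol u G lo up T M y)
    (hGM : ∀ i, ∀ g ∈ G i, g ∣ M) (i : κ) (hc : dt (u i) (c i) = 1) (p : Fin r) (δ : ℤ) :
    SS M (fun k => if Lay M (G i) (dt (u i) k) then Df y p (k + (-δ) • c i) else 0)
      = SS M (fun k => if Lay M (G i) (dt (u i) k + δ) then Df y p k else 0) := by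
  have hper : Per M (fun k : Fin r → ℤ => if Lay M (G i) (dt (u i) k + δ) then Df y p k else 0) := by
    intro k z
    show (if Lay M (G i) (dt (u i) (k + fun p => (M : ℤ) * z p) + δ)
      then Df y p (k + fun p => (M : ℤ) * z p) else 0) = _
    rw [Df_per h p k z, dt_add, dt_mul]
    have h1 : dt (u i) k + (M : ℤ) * dt (u i) z + δ = (dt (u i) k + δ) + (M : ℤ) * dt (u i) z := by
      ring
    rw [h1, if_congr (Lay_shift (hGM i) _ _) rfl rfl]
  rw [← SS_shift hper ((-δ) • c i)]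
  congr 1
  funext k
  rw [dt_add, dt_smul, hc]
  have h1 : dt (u i) k + -δ * 1 + δ = dt (u i) k := by ring
  rw [h1]

/-- pointwise comparison -/
theorem point_two {y : (Fin r → ℤ) → Fin r → ℝ} (h : Sol u G lo up T M y) {n : ℕ} (hM : 0 < M)
    (hGM : ∀ i, ∀ g ∈ G i, g ∣ M) (hG0 : ∀ i, ∀ g ∈ G i, 0 < g)
    (hn : ∀ i, ∀ g ∈ G i, n ∣ M / g) (hnC : C < n) (hCB : CB u c C) (K : ℝ) (hK0 : 0 ≤ K)
    (hK : ∀ (k v : Fin r → ℤ), (∀ j, |dt (u j) v| ≤ C) → ∀ p, |y (k + v) p - y k p| ≤ K)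
    (p : Fin r) (k : Fin r → ℤ) :
    (∑ i, nn M (G i) (u i p) (dt (u i) k)) * Df y p k
      ≤ Df y p k + ((∑ i, |(u i p : ℝ)|) + 1) * K * bd u G M C k := by
  classical
  have hDf : |Df y p k| ≤ K := by
    unfold Df
    apply hK
    intro j
    rw [dt_single]
    exact hCB.v4 j p
  by_cases hbad : Bad u G M C k
  · have hb : bd u G M C k = 1 := if_pos hbad
    rw [hb, mul_one]
    have h1 : (∑ i, nn M (G i) (u i p) (dt (u i) k)) ≤ ∑ i, |(u i p : ℝ)| := by
      apply Finset.sum_le_sum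
      intro i _
      have := nn_le (M := M) (S := G i) (a := u i p) (τ := dt (u i) k)
      rwa [Nat.cast_natAbs, Int.cast_abs] at this
    have h2 : 0 ≤ ∑ i, nn M (G i) (u i p) (dt (u i) k) := Finset.sum_nonneg fun i _ => nn_nonneg
    have h3 : ((∑ i, nn M (G i) (u i p) (dt (u i) k)) - 1) * Df y p k
        ≤ ((∑ i, |(u i p : ℝ)|) + 1) * K := by
      refine (le_abs_self _).trans ?_
      rw [abs_mul]
      apply mul_le_mul _ hDf (abs_nonneg _) (by linarith)
      rw [abs_le]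
      constructor <;> linarith
    linarith
  · have hb : bd u G M C k = 0 := if_neg hbad
    rw [hb, mul_zero, add_zero]
    by_cases hall : ∀ i, nn M (G i) (u i p) (dt (u i) k) = 0
    · have h1 : y (k + Pi.single p 1) = y k := by
        apply h.same
        intro i g hg
        have hmg : 0 < M / g := Nat.div_pos (Nat.le_of_dvd hM (hGM i g hg)) (hG0 i g hg)
        apply floor_eq _ (by exact_mod_cast hmg)
        intro τ h1 h2 hd
        rw [dt_add, dt_single] at h1 h2
        rw [min_comm] at h1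
        rw [max_comm] at h2
        exact nn_zero (hall i) τ h1 h2 ⟨g, hg, hd⟩
      have h2 : Df y p k = 0 := by
        unfold Df
        rw [h1, sub_self]
      rw [h2, mul_zero]
    · push Not at hall
      obtain ⟨i, hi⟩ := hall
      obtain ⟨h1, δ, h2, h3, h4⟩ := nn_one (hn i) (hCB.v4 i p) hnC hi
      have h5 : ∑ i, nn M (G i) (u i p) (dt (u i) k) = 1 := by
        rw [Finset.sum_eq_single i]
        · exact h1
        · intro j _ hji
          by_contra hne
          obtain ⟨_, δ', h2', h3', h4'⟩ := nn_one (hn j) (hCB.v4 j p) hnC hne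
          exact hbad ⟨j, i, hji, ⟨δ', h2', h3', h4'⟩, ⟨δ, h2, h3, h4⟩⟩
        · intro h'
          exact absurd (Finset.mem_univ i) h'
      rw [h5, one_mul]

/-- the total error constant -/
noncomputable def kerr (u : κ → Fin r → ℤ) (K : ℝ) : ℝ :=
  (∑ i, ∑ p, 4 * |(u i p : ℝ)| * K) + ∑ p, ((∑ i, |(u i p : ℝ)|) + 1) * K

theorem avg_fixed [NeZero M] {y : (Fin r → ℤ) → Fin r → ℝ} (h : Sol u G lo up T M y) {n : ℕ}
    (hGM : ∀ i, ∀ g ∈ G i, g ∣ M) (hG0 : ∀ i, ∀ g ∈ G i, 0 < g)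
    (hn : ∀ i, ∀ g ∈ G i, n ∣ M / g) (hnC : C < n) (hCB : CB u c C)
    (hc : ∀ i, dt (u i) (c i) = 1)
    (hnp : ∀ i j, i ≠ j → ∃ p q, u i p * u j q - u i q * u j p ≠ 0)
    (hℓ : ∀ i, ∀ g ∈ G i, lo i g ≤ up i g) (K : ℝ) (hK0 : 0 ≤ K)
    (hK : ∀ (k v : Fin r → ℤ), (∀ j, |dt (u j) v| ≤ C) → ∀ p, |y (k + v) p - y k p| ≤ K) :
    (M : ℝ) * ∑ i, ∑ g ∈ G i, (own (G i) g : ℝ) / g * (up i g - lo i g)
      ≤ (M : ℝ) * (r * T) + kerr u K * cbad u G C := by
  classical
  have hM : 0 < M := Nat.pos_of_ne_zero (NeZero.ne M)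
  have hMR : (0 : ℝ) < M := by exact_mod_cast hM
  have hMr : (0 : ℝ) < (M : ℝ) ^ r := by positivity
  -- weights
  have e1 : ∀ i, (M : ℝ) ^ r * ∑ g ∈ G i, (own (G i) g : ℝ) / g * (up i g - lo i g)
      ≤ (M : ℝ) * SS M (fun k => wt M (G i) (fun g => up i g - lo i g) (dt (u i) k)) := by
    intro i
    have h1 := SS_char (M := M) (u i) (c i) (hc i)
      (fun t : ZMod M => wt M (G i) (fun g => up i g - lo i g) (t.val : ℤ))
    have h2 : (fun k : Fin r → ℤ => wt M (G i) (fun g => up i g - lo i g) (dt (u i) k))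
        = fun k => wt M (G i) (fun g => up i g - lo i g)
          ((((∑ p, u i p * k p : ℤ) : ZMod M).val : ℕ) : ℤ) := by
      funext k
      have h3 : ∃ s : ℤ, ((((∑ p, u i p * k p : ℤ) : ZMod M).val : ℕ) : ℤ)
          = dt (u i) k + (M : ℤ) * s := by
        rw [ZMod.val_intCast]
        refine ⟨-(dt (u i) k / M), ?_⟩
        have := Int.emod_add_mul_ediv (dt (u i) k) (M : ℤ)
        unfold dt at this ⊢
        linarith
      obtain ⟨s, hs⟩ := h3
      rw [hs, wt_shift (hGM i)]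
    rw [h2, h1]
    exact mul_le_mul_of_nonneg_left
      (sum_wt (hGM i) (hG0 i) _ fun g hg => sub_nonneg.2 (hℓ i g hg)) hMr.le
  -- first comparison
  have e2 : ∀ i, SS M (fun k => wt M (G i) (fun g => up i g - lo i g) (dt (u i) k))
      ≤ (∑ p, SS M (fun k => nn M (G i) (u i p) (dt (u i) k) * Df y p k))
        + (∑ p, 4 * |(u i p : ℝ)| * K) * SS M (bd u G M C) := by
    intro i
    have h1 := SS_mono (M := M) (fun k => point_one h hM hGM hG0 hn hnC hCB hc K hK0 hK i k)
    refine h1.trans (le_of_eq ?_)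
    rw [SS_add]
    congr 1
    · rw [SS_sum]
      apply Finset.sum_congr rfl
      intro p _
      rw [SS_sum]
      rw [Finset.sum_congr rfl fun s _ => shift_one h hGM i (hc i) p (sg (u i p) s)]
      rw [← SS_sum]
      congr 1
      funext k
      unfold nn
      rw [Finset.sum_mul]
      apply Finset.sum_congr rfl
      intro s _
      split_ifs <;> ring
    · unfold SS
      rw [Finset.mul_sum]
  -- second comparison
  have e3 : ∀ p, ∑ i, SS M (fun k => nn M (G i) (u i p) (dt (u i) k) * Df y p k)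
      ≤ SS M (Df y p) + ((∑ i, |(u i p : ℝ)|) + 1) * K * SS M (bd u G M C) := by
    intro p
    rw [← SS_sum]
    have h1 := SS_mono (M := M) (fun k => point_two h hM hGM hG0 hn hnC hCB K hK0 hK p k)
    have h2 : SS M (fun k => Df y p k + ((∑ i, |(u i p : ℝ)|) + 1) * K * bd u G M C k)
        = SS M (Df y p) + ((∑ i, |(u i p : ℝ)|) + 1) * K * SS M (bd u G M C) := by
      rw [SS_add]
      congr 1
      unfold SS
      rw [Finset.mul_sum]
    rw [← h2]
    refine le_trans (le_of_eq ?_) h1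
    congr 1
    funext k
    rw [Finset.sum_mul]
  have e4 : ∑ i, SS M (fun k => wt M (G i) (fun g => up i g - lo i g) (dt (u i) k))
      ≤ (∑ p, SS M (Df y p)) + kerr u K * SS M (bd u G M C) := by
    calc ∑ i, SS M (fun k => wt M (G i) (fun g => up i g - lo i g) (dt (u i) k))
        ≤ ∑ i, ((∑ p, SS M (fun k => nn M (G i) (u i p) (dt (u i) k) * Df y p k))
          + (∑ p, 4 * |(u i p : ℝ)| * K) * SS M (bd u G M C)) :=
          Finset.sum_le_sum fun i _ => e2 i
      _ = (∑ p, ∑ i, SS M (fun k => nn M (G i) (u i p) (dt (u i) k) * Df y p k))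
          + (∑ i, ∑ p, 4 * |(u i p : ℝ)| * K) * SS M (bd u G M C) := by
          rw [Finset.sum_add_distrib, Finset.sum_comm, ← Finset.sum_mul]
      _ ≤ (∑ p, (SS M (Df y p) + ((∑ i, |(u i p : ℝ)|) + 1) * K * SS M (bd u G M C)))
          + (∑ i, ∑ p, 4 * |(u i p : ℝ)| * K) * SS M (bd u G M C) := by
          have := Finset.sum_le_sum fun (p : Fin r) (_ : p ∈ Finset.univ) => e3 p
          linarith
      _ = (∑ p, SS M (Df y p)) + kerr u K * SS M (bd u G M C) := by
          rw [Finset.sum_add_distrib, ← Finset.sum_mul]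
          unfold kerr
          ring
  -- combine
  have e5 : (M : ℝ) * ∑ p, SS M (Df y p) = (M : ℝ) ^ r * (r * T) := by
    rw [Finset.mul_sum, Finset.sum_congr rfl fun p _ => sum_Df h p, Finset.sum_const,
      Finset.card_univ, Fintype.card_fin, nsmul_eq_mul]
    ring
  have e6 := SS_bd (M := M) (C := C) hGM hG0 hnp
  have hkerr : 0 ≤ kerr u K := by
    unfold kerr
    apply add_nonneg
    · exact Finset.sum_nonneg fun i _ => Finset.sum_nonneg fun p _ => by positivity
    · exact Finset.sum_nonneg fun p _ => mul_nonneg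
        (add_nonneg (Finset.sum_nonneg fun i _ => abs_nonneg _) zero_le_one) hK0
  have e7 : (M : ℝ) ^ r * ∑ i, ∑ g ∈ G i, (own (G i) g : ℝ) / g * (up i g - lo i g)
      ≤ (M : ℝ) * ((∑ p, SS M (Df y p)) + kerr u K * SS M (bd u G M C)) := by
    rw [Finset.mul_sum]
    refine (Finset.sum_le_sum fun i _ => e1 i).trans ?_
    rw [← Finset.mul_sum]
    exact mul_le_mul_of_nonneg_left e4 hMR.le
  have e8 : (M : ℝ) ^ r * ((M : ℝ) * ∑ i, ∑ g ∈ G i, (own (G i) g : ℝ) / g * (up i g - lo i g))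
      ≤ (M : ℝ) ^ r * ((M : ℝ) * (r * T) + kerr u K * cbad u G C) := by
    have h1 : (M : ℝ) * ((M : ℝ) ^ r * ∑ i, ∑ g ∈ G i, (own (G i) g : ℝ) / g * (up i g - lo i g))
        ≤ (M : ℝ) * ((M : ℝ) * ((∑ p, SS M (Df y p)) + kerr u K * SS M (bd u G M C))) :=
      mul_le_mul_of_nonneg_left e7 hMR.le
    have h2 : (M : ℝ) * ((M : ℝ) * ((∑ p, SS M (Df y p)) + kerr u K * SS M (bd u G M C)))
        = (M : ℝ) * ((M : ℝ) * ∑ p, SS M (Df y p))
          + kerr u K * ((M : ℝ) ^ 2 * SS M (bd u G M C)) := by ring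
    have h3 : kerr u K * ((M : ℝ) ^ 2 * SS M (bd u G M C))
        ≤ kerr u K * (cbad u G C * (M : ℝ) ^ r) := mul_le_mul_of_nonneg_left e6 hkerr
    rw [h2, e5] at h1
    nlinarith [h1, h3]
  exact le_of_mul_le_mul_left e8 hMr

/-- **The averaging theorem.** -/
theorem avg (hc : ∀ i, dt (u i) (c i) = 1)
    (hnp : ∀ i j, i ≠ j → ∃ p q, u i p * u j q - u i q * u j p ≠ 0)
    (hG0 : ∀ i, ∀ g ∈ G i, 0 < g) (hne : ∀ i, (G i).Nonempty)
    (hℓ : ∀ i, ∀ g ∈ G i, lo i g ≤ up i g) {lam : Fin r → κ → ℝ}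
    (hlam : ∀ (y : Fin r → ℝ) p, y p = ∑ i, lam p i * rd (u i) y)
    (hfeas : ∀ M : ℕ, 0 < M → ∀ k : Fin r → ℤ, ∃ y : Fin r → ℝ, ∀ i, ∀ g ∈ G i,
      T * (((g * dt (u i) k) / (M : ℤ) : ℤ) : ℝ) - lo i g ≤ g * rd (u i) y ∧
      g * rd (u i) y ≤ T * (((g * dt (u i) k) / (M : ℤ) : ℤ) : ℝ) + T - up i g) :
    ∑ i, ∑ g ∈ G i, (own (G i) g : ℝ) / g * (up i g - lo i g) ≤ r * T := by
  classical
  set C : ℤ := ∑ i, ∑ j, ∑ p, ((|u i p| + 1) * |dt (u j) (c i)| + |u j p|) with hCdef
  have hCB : CB u c C := by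
    have hterm : ∀ i j p, 0 ≤ (|u i p| + 1) * |dt (u j) (c i)| + |u j p| := fun i j p => by
      positivity
    constructor
    · exact Finset.sum_nonneg fun i _ => Finset.sum_nonneg fun j _ =>
        Finset.sum_nonneg fun p _ => hterm i j p
    · intro i j p
      calc (|u i p| + 1) * |dt (u j) (c i)| + |u j p|
          ≤ ∑ p, ((|u i p| + 1) * |dt (u j) (c i)| + |u j p|) :=
            Finset.single_le_sum (f := fun p => (|u i p| + 1) * |dt (u j) (c i)| + |u j p|)
              (fun p _ => hterm i j p) (Finset.mem_univ p)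
        _ ≤ ∑ j, ∑ p, ((|u i p| + 1) * |dt (u j) (c i)| + |u j p|) :=
            Finset.single_le_sum
              (f := fun j => ∑ p, ((|u i p| + 1) * |dt (u j) (c i)| + |u j p|))
              (fun j _ => Finset.sum_nonneg fun p _ => hterm i j p) (Finset.mem_univ j)
        _ ≤ C := Finset.single_le_sum
              (f := fun i => ∑ j, ∑ p, ((|u i p| + 1) * |dt (u j) (c i)| + |u j p|))
              (fun i _ => Finset.sum_nonneg fun j _ => Finset.sum_nonneg fun p _ => hterm i j p)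
              (Finset.mem_univ i)
  have hinj : ∀ z : Fin r → ℤ, (∀ i, dt (u i) z = 0) → z = 0 := by
    intro z hz
    funext p
    have h1 := hlam (fun p => (z p : ℝ)) p
    have h2 : ∀ i, rd (u i) (fun p => (z p : ℝ)) = 0 := by
      intro i
      have h3 := rd_cast (u i) z 1
      simp only [one_mul] at h3
      rw [h3, hz i]
      norm_num
    simp only [h2, mul_zero, Finset.sum_const_zero] at h1
    exact_mod_cast h1
  set B : ℝ := ∑ i, ∑ g ∈ G i, (|lo i g| + |up i g|) with hBdef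
  have hB : ∀ i, ∀ g ∈ G i, |lo i g| + |up i g| ≤ B := by
    intro i g hg
    calc |lo i g| + |up i g| ≤ ∑ g ∈ G i, (|lo i g| + |up i g|) :=
          Finset.single_le_sum (f := fun g => |lo i g| + |up i g|)
            (fun g _ => by positivity) hg
      _ ≤ B := Finset.single_le_sum (f := fun i => ∑ g ∈ G i, (|lo i g| + |up i g|))
            (fun i _ => Finset.sum_nonneg fun g _ => by positivity) (Finset.mem_univ i)
  have hB0 : 0 ≤ B := Finset.sum_nonneg fun i _ => Finset.sum_nonneg fun g _ => by positivity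
  set K : ℝ := kdiff lam T B C with hKdef
  have hK0 : 0 ≤ K := by
    have hCR : (0 : ℝ) ≤ C := by exact_mod_cast hCB.1
    rw [hKdef]
    unfold kdiff
    exact Finset.sum_nonneg fun p _ => Finset.sum_nonneg fun i _ => by positivity
  set Q : ℕ := ∏ i, ∏ g ∈ G i, g with hQdef
  have hQ0 : 0 < Q := Finset.prod_pos fun i _ => Finset.prod_pos fun g hg => hG0 i g hg
  have hgQ : ∀ i, ∀ g ∈ G i, g ∣ Q := fun i g hg =>
    (Finset.dvd_prod_of_mem (fun g => g) hg).trans
      (Finset.dvd_prod_of_mem (fun i => ∏ g ∈ G i, g) (Finset.mem_univ i))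
  set W : ℝ := ∑ i, ∑ g ∈ G i, (own (G i) g : ℝ) / g * (up i g - lo i g) with hW
  have main : ∀ n : ℕ, C < n → (n : ℝ) * W ≤ (n : ℝ) * (r * T) + kerr u K * cbad u G C := by
    intro n hn
    have hn0 : 0 < n := by
      have := hCB.1
      omega
    have hMpos : 0 < Q * n := Nat.mul_pos hQ0 hn0
    haveI : NeZero (Q * n) := ⟨hMpos.ne'⟩
    have hGM : ∀ i, ∀ g ∈ G i, g ∣ Q * n := fun i g hg => Dvd.dvd.mul_right (hgQ i g hg) n
    have hnd : ∀ i, ∀ g ∈ G i, n ∣ Q * n / g := by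
      intro i g hg
      obtain ⟨q, hq⟩ := hgQ i g hg
      refine ⟨q, ?_⟩
      rw [hq, mul_assoc, Nat.mul_div_cancel_left _ (hG0 i g hg), mul_comm]
    obtain ⟨y, hy⟩ := exists_sol (u := u) (lo := lo) (up := up) (T := T) hMpos hGM hG0 hne hinj
      (by
        intro k
        obtain ⟨y, hy⟩ := hfeas (Q * n) hMpos k
        refine ⟨y, fun i g hg => ?_⟩
        have h1 : ((g : ℤ) * dt (u i) k) / ((Q * n : ℕ) : ℤ)
            = dt (u i) k / ((Q * n / g : ℕ) : ℤ) := by
          have h2 : ((Q * n : ℕ) : ℤ) = (g : ℤ) * ((Q * n / g : ℕ) : ℤ) := by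
            exact_mod_cast (Nat.mul_div_cancel' (hGM i g hg)).symm
          rw [h2]
          exact Int.mul_ediv_mul_of_pos _ _ (by exact_mod_cast hG0 i g hg)
        have h3 := hy i g hg
        rw [h1] at h3
        exact h3)
    have hKb : ∀ (k v : Fin r → ℤ), (∀ j, |dt (u j) v| ≤ C) → ∀ p, |y (k + v) p - y k p| ≤ K :=
      fun k v hv p => hy.bdd hMpos hGM hG0 hne hlam hCB.1 hB hB0 k v hv p
    have h1 := avg_fixed hy hGM hG0 hnd hn hCB hc hnp hℓ K hK0 hKb
    rw [← hW] at h1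
    have hnR : (0 : ℝ) < n := by exact_mod_cast hn0
    have hQR : (1 : ℝ) ≤ Q := by exact_mod_cast hQ0
    have herr : 0 ≤ kerr u K * cbad u G C := by
      apply mul_nonneg _ (Nat.cast_nonneg _)
      unfold kerr
      apply add_nonneg
      · exact Finset.sum_nonneg fun i _ => Finset.sum_nonneg fun p _ => by positivity
      · exact Finset.sum_nonneg fun p _ => mul_nonneg
          (add_nonneg (Finset.sum_nonneg fun i _ => abs_nonneg _) zero_le_one) hK0
    push_cast at h1
    -- Q n W ≤ Q n r T + E, so n (W - rT) ≤ E / Q ≤ E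
    have h2 : (Q : ℝ) * ((n : ℝ) * (W - r * T)) ≤ kerr u K * cbad u G C := by nlinarith
    by_contra hcon
    push Not at hcon
    have h3 : kerr u K * cbad u G C < (n : ℝ) * (W - r * T) := by linarith
    nlinarith
  by_contra hcon
  push Not at hcon
  have hd : 0 < W - r * T := by linarith
  obtain ⟨n, hn⟩ := exists_nat_gt ((kerr u K * cbad u G C) / (W - r * T))
  have h1 := main (max n (C.toNat + 1)) (by
    have : C.toNat + 1 ≤ max n (C.toNat + 1) := le_max_right _ _
    omega)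
  have h2 : (n : ℝ) ≤ ((max n (C.toNat + 1) : ℕ) : ℝ) := by exact_mod_cast le_max_left _ _
  rw [div_lt_iff₀ hd] at hn
  nlinarith

end Avg

end Pool.Agent.Helper62.LS
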