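import Pool.Agent.Helper62.LS.Step

/-!
# LS: bad points are rare
-/

namespace Pool.Agent.Helper62.LS

open Finset

section BadCnt

variable {κ : Type} [Fintype κ] [DecidableEq κ] {r : ℕ} (u : κ → Fin r → ℤ) (G : κ → Finset ℕ)

/-- sum of the minors of two characters -/
def mnr (i j : κ) : ℕ := ∑ p, ∑ q, (u i p * u j q - u i q * u j p).natAbs

/-- the constant in the count of bad points -/
noncomputable def cbad (C : ℤ) : ℕ :=
  ∑ i, ∑ j, (Finset.Icc (-C) C).card ^ 2 * ((∑ g ∈ G i, g) * (∑ g ∈ G j, g) * (mnr u i j) ^ 2)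

variable {u G}

theorem card_bad {M : ℕ} [NeZero M] (hGM : ∀ i, ∀ g ∈ G i, g ∣ M) (hG0 : ∀ i, ∀ g ∈ G i, 0 < g)
    (hnp : ∀ i j, i ≠ j → ∃ p q, u i p * u j q - u i q * u j p ≠ 0) (C : ℤ)
    [DecidablePred fun k : Fin r → ZMod M => Bad u G M C (lift M k)] :
    M ^ 2 * (Finset.univ.filter fun k : Fin r → ZMod M => Bad u G M C (lift M k)).card
      ≤ cbad u G C * M ^ r := by
  classical
  let L : κ → Finset (ZMod M) := fun i => Finset.univ.filter fun t : ZMod M => Lay M (G i) (t.val : ℤ)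
  have hL : ∀ i, (L i).card ≤ ∑ g ∈ G i, g := fun i => card_lay (hGM i) (hG0 i)
  let A : κ → κ → ZMod M → ZMod M → Finset (Fin r → ZMod M) := fun i j a b =>
    if i = j then ∅ else Finset.univ.filter fun k : Fin r → ZMod M =>
        ∑ p, (u i p : ZMod M) * k p = a ∧ ∑ p, (u j p : ZMod M) * k p = b
  have hA : ∀ i j a b, M ^ 2 * (A i j a b).card ≤ (mnr u i j) ^ 2 * M ^ r := by
    intro i j a b
    by_cases hij : i = j
    · have : A i j a b = ∅ := if_pos hij
      rw [this]
      simp
    · have h0 : A i j a b = Finset.univ.filter fun k : Fin r → ZMod M =>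
        ∑ p, (u i p : ZMod M) * k p = a ∧ ∑ p, (u j p : ZMod M) * k p = b := if_neg hij
      rw [h0]
      obtain ⟨p, q, hpq⟩ := hnp i j hij
      refine (card_two (u i) (u j) p q hpq a b).trans ?_
      apply Nat.mul_le_mul_right
      apply Nat.pow_le_pow_left
      unfold mnr
      calc (u i p * u j q - u i q * u j p).natAbs
          ≤ ∑ q, (u i p * u j q - u i q * u j p).natAbs :=
            Finset.single_le_sum (f := fun q => (u i p * u j q - u i q * u j p).natAbs)
              (fun _ _ => Nat.zero_le _) (Finset.mem_univ q)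
        _ ≤ ∑ p, ∑ q, (u i p * u j q - u i q * u j p).natAbs :=
            Finset.single_le_sum (f := fun p => ∑ q, (u i p * u j q - u i q * u j p).natAbs)
              (fun _ _ => Nat.zero_le _) (Finset.mem_univ p)
  have hsub : (Finset.univ.filter fun k : Fin r → ZMod M => Bad u G M C (lift M k))
      ⊆ Finset.univ.biUnion fun i : κ => Finset.univ.biUnion fun j : κ =>
        (Finset.Icc (-C) C ×ˢ Finset.Icc (-C) C).biUnion fun d =>
          (L i ×ˢ L j).biUnion fun t => A i j (t.1 - (d.1 : ZMod M)) (t.2 - (d.2 : ZMod M)) := by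
    intro k hk
    rw [Finset.mem_filter] at hk
    obtain ⟨i, j, hij, ⟨δ, h1, h2, h3⟩, ⟨δ', h4, h5, h6⟩⟩ := hk.2
    have key : ∀ (i : κ) (δ : ℤ), Lay M (G i) (dt (u i) (lift M k) + δ) →
        (((dt (u i) (lift M k) + δ : ℤ)) : ZMod M) ∈ L i ∧
        ∑ p, (u i p : ZMod M) * k p
          = (((dt (u i) (lift M k) + δ : ℤ)) : ZMod M) - (δ : ZMod M) := by
      intro i δ h
      constructor
      · rw [Finset.mem_filter]
        refine ⟨Finset.mem_univ _, ?_⟩
        set τ : ℤ := dt (u i) (lift M k) + δ with hτ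
        have h3 : ∃ s : ℤ, (((τ : ZMod M).val : ℕ) : ℤ) = τ + (M : ℤ) * s := by
          rw [ZMod.val_intCast]
          refine ⟨-(τ / M), ?_⟩
          have := Int.emod_add_mul_ediv τ (M : ℤ)
          linarith
        obtain ⟨s, hs⟩ := h3
        rw [hs, Lay_shift (hGM i)]
        exact h
      · push_cast
        rw [add_sub_cancel_right]
        unfold dt
        push_cast
        apply Finset.sum_congr rfl
        intro p _
        rw [lift_cast]
    obtain ⟨h7, h8⟩ := key i δ h3
    obtain ⟨h9, h10⟩ := key j δ' h6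
    rw [Finset.mem_biUnion]
    refine ⟨i, Finset.mem_univ _, ?_⟩
    rw [Finset.mem_biUnion]
    refine ⟨j, Finset.mem_univ _, ?_⟩
    rw [Finset.mem_biUnion]
    refine ⟨(δ, δ'), Finset.mem_product.2 ⟨Finset.mem_Icc.2 ⟨h1, h2⟩, Finset.mem_Icc.2 ⟨h4, h5⟩⟩, ?_⟩
    rw [Finset.mem_biUnion]
    refine ⟨(_, _), Finset.mem_product.2 ⟨h7, h9⟩, ?_⟩
    have h0 : ∀ a b, A i j a b = Finset.univ.filter fun k : Fin r → ZMod M =>
        ∑ p, (u i p : ZMod M) * k p = a ∧ ∑ p, (u j p : ZMod M) * k p = b := fun a b => if_neg hij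
    rw [h0, Finset.mem_filter]
    exact ⟨Finset.mem_univ _, h8, h10⟩
  calc M ^ 2 * (Finset.univ.filter fun k : Fin r → ZMod M => Bad u G M C (lift M k)).card
      ≤ M ^ 2 * ∑ i, ∑ j, ∑ d ∈ Finset.Icc (-C) C ×ˢ Finset.Icc (-C) C, ∑ t ∈ L i ×ˢ L j,
          (A i j (t.1 - (d.1 : ZMod M)) (t.2 - (d.2 : ZMod M))).card := by
        apply Nat.mul_le_mul_left
        refine (Finset.card_le_card hsub).trans ?_
        refine Finset.card_biUnion_le.trans (Finset.sum_le_sum fun i _ => ?_)
        refine Finset.card_biUnion_le.trans (Finset.sum_le_sum fun j _ => ?_)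
        refine Finset.card_biUnion_le.trans (Finset.sum_le_sum fun d _ => ?_)
        exact Finset.card_biUnion_le
    _ = ∑ i, ∑ j, ∑ d ∈ Finset.Icc (-C) C ×ˢ Finset.Icc (-C) C, ∑ t ∈ L i ×ˢ L j,
          M ^ 2 * (A i j (t.1 - (d.1 : ZMod M)) (t.2 - (d.2 : ZMod M))).card := by
        simp only [Finset.mul_sum]
    _ ≤ ∑ i, ∑ j, ∑ d ∈ Finset.Icc (-C) C ×ˢ Finset.Icc (-C) C, ∑ t ∈ L i ×ˢ L j,
          (mnr u i j) ^ 2 * M ^ r := by
        refine Finset.sum_le_sum fun i _ => Finset.sum_le_sum fun j _ =>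
          Finset.sum_le_sum fun d _ => Finset.sum_le_sum fun t _ => hA i j _ _
    _ = ∑ i, ∑ j, (Finset.Icc (-C) C).card ^ 2 * ((L i).card * (L j).card
          * ((mnr u i j) ^ 2 * M ^ r)) := by
        apply Finset.sum_congr rfl
        intro i _
        apply Finset.sum_congr rfl
        intro j _
        rw [Finset.sum_const, Finset.sum_const, Finset.card_product, Finset.card_product,
          smul_eq_mul, smul_eq_mul]
        ring
    _ ≤ ∑ i, ∑ j, (Finset.Icc (-C) C).card ^ 2 * ((∑ g ∈ G i, g) * (∑ g ∈ G j, g)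
          * ((mnr u i j) ^ 2 * M ^ r)) := by
        refine Finset.sum_le_sum fun i _ => Finset.sum_le_sum fun j _ => ?_
        apply Nat.mul_le_mul_left
        apply Nat.mul_le_mul_right
        exact Nat.mul_le_mul (hL i) (hL j)
    _ = cbad u G C * M ^ r := by
        unfold cbad
        rw [Finset.sum_mul]
        apply Finset.sum_congr rfl
        intro i _
        rw [Finset.sum_mul]
        apply Finset.sum_congr rfl
        intro j _
        ring

end BadCnt

end Pool.Agent.Helper62.LS
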