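import Pool.Agent.Helper62.LS.App
import Pool.Agent.Helper80.VR.Final

/-!
# LS (block N, helper16): few lines in the direction of a long chord
-/

namespace Pool.Agent.Helper62.LS

open Finset

/-- the determinant of the base points `g` -/
def bdet {m : ℕ} {ι : Type} (x : ι → Fin m → ℤ) (g : Fin (m + 1) → ι) : ℤ :=
  (Matrix.of fun k => (Fin.cons 1 (x (g k)) : Fin (m + 1) → ℤ)).det

theorem bdet_congr {m : ℕ} {ι : Type} (x : ι → Fin m → ℤ) {g g' : Fin (m + 1) → ι}
    (h : ∀ k, x (g k) = x (g' k)) : bdet x g = bdet x g' := by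
  have h1 : (fun k => (Fin.cons 1 (x (g k)) : Fin (m + 1) → ℤ))
      = fun k => (Fin.cons 1 (x (g' k)) : Fin (m + 1) → ℤ) := by
    funext k; rw [h]
  unfold bdet
  rw [h1]

/-- alternating sum identity: the coordinates of a point with respect to a simplex have sum one -/
theorem bdet_sum {m : ℕ} {ι : Type} (x : ι → Fin m → ℤ) (h : Fin (m + 2) → ι) :
    ∑ p : Fin (m + 2), (-1) ^ (p : ℕ) * bdet x (fun k => h (p.succAbove k)) = 0 := by
  have h1 := MM_expand (r := m + 1) (fun _ => (1 : ℤ))
    (fun i => (Fin.cons 1 (x (h i)) : Fin (m + 1) → ℤ))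
  have h2 : (MM (fun _ => (1 : ℤ)) (fun i => (Fin.cons 1 (x (h i)) : Fin (m + 1) → ℤ))).det
      = 0 := by
    apply Matrix.det_zero_of_column_eq (i := 0) (j := Fin.succ 0) (Fin.succ_ne_zero _).symm
    intro k
    simp only [MM, Matrix.of_apply, Fin.cons_zero, Fin.cons_succ]
  rw [h2] at h1
  rw [h1]
  exact Finset.sum_congr rfl fun p _ => by simp [bdet]

theorem MM_pair {m : ℕ} {ι : Type} (s : ι → ℤ) (x : ι → Fin m → ℤ) (i j : ι) (hij : x i = x j)
    (g : Fin m → ι) :
    (MM (fun p => s ((Fin.cons i (Fin.cons j g) : Fin (m + 2) → ι) p))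
      (fun p => (Fin.cons 1 (x ((Fin.cons i (Fin.cons j g) : Fin (m + 2) → ι) p)) :
        Fin (m + 1) → ℤ))).det = (s i - s j) * bdet x (Fin.cons i g) := by
  rw [MM_expand, Fin.sum_univ_succ, Fin.sum_univ_succ]
  set f : Fin (m + 2) → ι := Fin.cons i (Fin.cons j g) with hf
  have h0 : (Matrix.of fun k : Fin (m + 1) =>
      (Fin.cons 1 (x (f ((0 : Fin (m + 2)).succAbove k))) : Fin (m + 1) → ℤ)).det
      = bdet x (Fin.cons i g) := by
    apply bdet_congr x (g := fun k => f ((0 : Fin (m + 2)).succAbove k))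
    intro k
    refine Fin.cases ?_ (fun k => ?_) k
    · simp [hf, hij]
    · simp [hf]
  have h1 : (Matrix.of fun k : Fin (m + 1) =>
      (Fin.cons 1 (x (f ((Fin.succ 0 : Fin (m + 2)).succAbove k))) : Fin (m + 1) → ℤ)).det
      = bdet x (Fin.cons i g) := by
    apply bdet_congr x (g := fun k => f ((Fin.succ 0 : Fin (m + 2)).succAbove k))
    intro k
    refine Fin.cases ?_ (fun k => ?_) k
    · have : (Fin.succ 0 : Fin (m + 2)).succAbove 0 = 0 :=
        Fin.succAbove_ne_zero_zero (Fin.succ_ne_zero _)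
      rw [this, hf, Fin.cons_zero, Fin.cons_zero]
    · have : (Fin.succ 0 : Fin (m + 2)).succAbove k.succ = k.succ.succ := by
        rw [Fin.succ_succAbove_succ]
        simp
      rw [this, hf, Fin.cons_succ, Fin.cons_succ, Fin.cons_succ]
  have h2 : ∀ p : Fin m, (Matrix.of fun k : Fin (m + 1) =>
      (Fin.cons 1 (x (f ((p.succ.succ : Fin (m + 2)).succAbove k))) :
        Fin (m + 1) → ℤ)).det = 0 := by
    intro p
    obtain ⟨m', rfl⟩ : ∃ m', m = m' + 1 := ⟨m - 1, by have := p.pos; omega⟩
    apply Matrix.det_zero_of_row_eq (i := 0) (j := Fin.succ 0) (by simp)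
    have e0 : (p.succ.succ : Fin (m' + 1 + 2)).succAbove 0 = 0 :=
      Fin.succAbove_ne_zero_zero (Fin.succ_ne_zero _)
    have e1 : (p.succ.succ : Fin (m' + 1 + 2)).succAbove (Fin.succ 0) = Fin.succ 0 := by
      rw [Fin.succ_succAbove_succ, Fin.succAbove_ne_zero_zero (Fin.succ_ne_zero _)]
    funext l
    simp only [Matrix.of_apply, e0, e1]
    simp [hf, hij]
  rw [h0, h1]
  simp only [h2, mul_zero, Finset.sum_const_zero, add_zero]
  simp [hf]
  ring

/-- Points `(s i, x i)` of integer `(m+1)`-space (height `s`), `m ≥ 1`, all determinants at most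
`R`, two points over the same base point at height difference at least `q`: the number of base
points is at most `2 m (m+1)^2 R / q`. -/
theorem card_base {m : ℕ} (hm : 1 ≤ m) {ι : Type} [Fintype ι] [DecidableEq ι]
    (s : ι → ℤ) (x : ι → Fin m → ℤ) (R : ℕ)
    (hR : ∀ f : Fin (m + 2) → ι,
      |(MM (fun i => s (f i)) (fun i => (Fin.cons 1 (x (f i)) : Fin (m + 1) → ℤ))).det| ≤ R)
    (hspan : ∃ f : Fin (m + 2) → ι,
      (MM (fun i => s (f i)) (fun i => (Fin.cons 1 (x (f i)) : Fin (m + 1) → ℤ))).det ≠ 0)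
    (q : ℕ) (hq : 0 < q) (i j : ι) (hij : x i = x j) (hqij : (q : ℤ) ≤ s i - s j) :
    q * (Finset.univ.image x).card ≤ 2 * m * (m + 1) ^ 2 * R := by
  set Bf : Finset (Fin m → ℤ) := Finset.univ.image x with hBf
  -- a nonzero base determinant
  obtain ⟨g0, hg0⟩ : ∃ g : Fin (m + 1) → ι, bdet x g ≠ 0 := by
    obtain ⟨f, hf⟩ := hspan
    by_contra hcon
    push Not at hcon
    apply hf
    rw [MM_expand]
    apply Finset.sum_eq_zero
    intro p _
    have := hcon (fun k => f (p.succAbove k))
    unfold bdet at this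
    rw [this, mul_zero]
  have hne : Nonempty ι := ⟨i⟩
  obtain ⟨g, hg⟩ := Finite.exists_max (fun g : Fin (m + 1) → ι => |bdet x g|)
  set TB : ℤ := |bdet x g| with hTB
  have hTB1 : 1 ≤ TB := by
    have h1 := hg g0
    have h2 : 1 ≤ |bdet x g0| := Int.one_le_abs hg0
    exact h2.trans h1
  -- replace a vertex of `g` by `i`
  have hkey : TB * q ≤ (m + 1) * R := by
    have h1 := bdet_sum x (Fin.cons i g)
    rw [Fin.sum_univ_succ] at h1
    have h2 : bdet x (fun k => (Fin.cons i g : Fin (m + 2) → ι) ((0 : Fin (m + 2)).succAbove k))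
        = bdet x g := by
      congr 1
    rw [h2] at h1
    have h3 : TB ≤ ∑ k : Fin (m + 1),
        |bdet x (fun l => (Fin.cons i g : Fin (m + 2) → ι) (k.succ.succAbove l))| := by
      have h4 : bdet x g = - ∑ k : Fin (m + 1), (-1) ^ ((k.succ : Fin (m + 2)) : ℕ) *
          bdet x (fun l => (Fin.cons i g : Fin (m + 2) → ι) (k.succ.succAbove l)) := by
        have : (-1 : ℤ) ^ ((0 : Fin (m + 2)) : ℕ) = 1 := by simp
        rw [this, one_mul] at h1
        linarith
      rw [hTB, h4, abs_neg]
      refine (Finset.abs_sum_le_sum_abs _ _).trans (Finset.sum_le_sum fun k _ => ?_)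
      rw [abs_mul, abs_pow, abs_neg, abs_one, one_pow, one_mul]
    have h5 : ∀ k : Fin (m + 1),
        |bdet x (fun l => (Fin.cons i g : Fin (m + 2) → ι) (k.succ.succAbove l))| * q ≤ R := by
      intro k
      set h : Fin (m + 1) → ι := fun l => (Fin.cons i g : Fin (m + 2) → ι) (k.succ.succAbove l)
        with hh
      have hh0 : h 0 = i := by
        have : (k.succ : Fin (m + 2)).succAbove 0 = 0 :=
          Fin.succAbove_ne_zero_zero (Fin.succ_ne_zero _)
        simp [hh, this]
      have hhc : h = Fin.cons i (fun l : Fin m => h l.succ) := by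
        funext l
        refine Fin.cases ?_ (fun l => ?_) l
        · simp [hh0]
        · simp
      have h6 := hR (Fin.cons i (Fin.cons j fun l : Fin m => h l.succ))
      rw [MM_pair s x i j hij, ← hhc, abs_mul] at h6
      have h7 : (q : ℤ) ≤ |s i - s j| := hqij.trans (le_abs_self _)
      calc |bdet x h| * q ≤ |bdet x h| * |s i - s j| :=
            mul_le_mul_of_nonneg_left h7 (abs_nonneg _)
        _ = |s i - s j| * |bdet x h| := mul_comm _ _
        _ ≤ R := h6
    calc TB * q ≤ (∑ k : Fin (m + 1),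
        |bdet x (fun l => (Fin.cons i g : Fin (m + 2) → ι) (k.succ.succAbove l))|) * q :=
          mul_le_mul_of_nonneg_right h3 (by positivity)
      _ = ∑ k : Fin (m + 1),
        |bdet x (fun l => (Fin.cons i g : Fin (m + 2) → ι) (k.succ.succAbove l))| * q := by
          rw [Finset.sum_mul]
      _ ≤ ∑ _k : Fin (m + 1), (R : ℤ) := Finset.sum_le_sum fun k _ => h5 k
      _ = (m + 1) * R := by simp
  -- the number of base points
  let v : {b // b ∈ Bf} → Fin (m + 1) → ℝ :=
    fun b => Fin.cons 1 (fun p => (b.1 p : ℝ))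
  have hpre : ∀ b : {b // b ∈ Bf}, ∃ i, x i = b.1 := by
    intro b
    obtain ⟨i, -, hi⟩ := Finset.mem_image.mp b.2
    exact ⟨i, hi⟩
  choose pre hpre using hpre
  have hG : ∀ f : Fin (m + 1) → {b // b ∈ Bf},
      Helper80.VR.G v f = ((bdet x (fun k => pre (f k)) : ℤ) : ℝ) := by
    intro f
    unfold Helper80.VR.G bdet
    rw [Int.cast_det]
    congr 1
    ext a c
    refine Fin.cases ?_ (fun c => ?_) c
    · simp [v]
    · simp [v, hpre]
  have hratio : Helper80.VR.Ratio v (TB : ℝ) := by
    intro f f' hf'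
    rw [hG] at hf'
    rw [hG, hG]
    have h1 : bdet x (fun k => pre (f' k)) ≠ 0 := by exact_mod_cast hf'
    have h2 : 1 ≤ |bdet x (fun k => pre (f' k))| := Int.one_le_abs h1
    have h3 : |bdet x (fun k => pre (f k))| ≤ TB := hg _
    have h4 : |bdet x (fun k => pre (f k))| ≤ TB * |bdet x (fun k => pre (f' k))| := by
      calc |bdet x (fun k => pre (f k))| ≤ TB * 1 := by rw [mul_one]; exact h3
        _ ≤ _ := mul_le_mul_of_nonneg_left h2 (by linarith)
    exact_mod_cast h4
  let bpt : ι → {b // b ∈ Bf} :=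
    fun i => ⟨x i, Finset.mem_image_of_mem x (Finset.mem_univ i)⟩
  have hspanv : Submodule.span ℝ (Set.range v) = ⊤ := by
    have hli : LinearIndependent ℝ (fun k : Fin (m + 1) => v (bpt (g k))) := by
      have h1 : IsUnit (Matrix.of fun k : Fin (m + 1) => v (bpt (g k))) := by
        rw [Matrix.isUnit_iff_isUnit_det]
        apply isUnit_iff_ne_zero.2
        have h2 := hG (fun k => bpt (g k))
        unfold Helper80.VR.G at h2
        rw [h2]
        have h3 : bdet x (fun k => pre (bpt (g k))) = bdet x g :=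
          bdet_congr x fun k => hpre _
        rw [h3]
        intro h4
        have h5 : bdet x g = 0 := by exact_mod_cast h4
        rw [hTB, h5, abs_zero] at hTB1
        omega
      exact Matrix.linearIndependent_rows_iff_isUnit.2 h1
    have h2 : Submodule.span ℝ (Set.range fun k : Fin (m + 1) => v (bpt (g k))) = ⊤ := by
      apply hli.span_eq_top_of_card_eq_finrank'
      simp
    rw [eq_top_iff, ← h2]
    apply Submodule.span_mono
    rintro _ ⟨k, rfl⟩
    exact ⟨_, rfl⟩
  have hpair : ∀ b c, b ≠ c → LinearIndependent ℝ ![v b, v c] := by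
    intro b c hbc
    rw [LinearIndependent.pair_iff]
    intro t u h
    have h0 : t + u = 0 := by
      have := congrFun h 0
      simpa [v] using this
    have hne : b.1 ≠ c.1 := fun h => hbc (Subtype.ext h)
    obtain ⟨p, hp⟩ := Function.ne_iff.1 hne
    have h1 : t * (b.1 p : ℝ) + u * (c.1 p : ℝ) = 0 := by
      have := congrFun h p.succ
      simpa [v] using this
    have hu : u = -t := by linarith
    have h2 : t * ((b.1 p : ℝ) - (c.1 p : ℝ)) = 0 := by
      rw [hu] at h1; linarith
    have ht : t = 0 := by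
      rcases mul_eq_zero.1 h2 with h3 | h3
      · exact h3
      · exact absurd (by exact_mod_cast sub_eq_zero.1 h3) hp
    exact ⟨ht, by rw [hu, ht, neg_zero]⟩
  have hcard2 : 2 ≤ Fintype.card {b // b ∈ Bf} := by
    have h1 : Function.Injective (fun k : Fin (m + 1) => bpt (g k)) := by
      intro k k' hk
      by_contra hne
      have h2 : bdet x g = 0 := by
        unfold bdet
        apply Matrix.det_zero_of_row_eq hne
        have h3 : x (g k) = x (g k') := congrArg Subtype.val hk
        funext l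
        simp only [Matrix.of_apply, h3]
      rw [hTB, h2, abs_zero] at hTB1
      omega
    have h2 := Fintype.card_le_of_injective _ h1
    rw [Fintype.card_fin] at h2
    omega
  have hmain := Helper80.VR.card_le (r := m + 1) (by omega) v hspanv hratio hpair hcard2
  rw [Fintype.card_coe] at hmain
  push_cast at hmain
  have hTBr : (1 : ℝ) ≤ (TB : ℝ) := by exact_mod_cast hTB1
  have hmr : (1 : ℝ) ≤ (m : ℝ) := by exact_mod_cast hm
  have hkeyr : (TB : ℝ) * q ≤ (m + 1) * R := by exact_mod_cast hkey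
  have hqr : (0 : ℝ) < q := by exact_mod_cast hq
  have hb1 : (Bf.card : ℝ) ≤ 2 * m * (m + 1) * TB := by
    nlinarith
  have hb2 : (q : ℝ) * (Bf.card : ℝ) ≤ 2 * m * (m + 1) ^ 2 * R := by
    calc (q : ℝ) * (Bf.card : ℝ) ≤ q * (2 * m * (m + 1) * TB) :=
          mul_le_mul_of_nonneg_left hb1 hqr.le
      _ = 2 * m * (m + 1) * (TB * q) := by ring
      _ ≤ 2 * m * (m + 1) * ((m + 1) * R) :=
          mul_le_mul_of_nonneg_left hkeyr (by positivity)
      _ = _ := by ring
  exact_mod_cast hb2

end Pool.Agent.Helper62.LS
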