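import Pool.Agent.Helper62.LS.App

/-!
# LS (block D, helper16): divisibility of determinants, contraction
-/

namespace Pool.Agent.Helper62.LS

open Finset

/-- rows divisible by `p` -/
theorem det_dvd_rows {n : ℕ} (N : Matrix (Fin n) (Fin n) ℤ) (I : Finset (Fin n)) (p : ℤ)
    (h : ∀ i ∈ I, ∀ j, p ∣ N i j) : p ^ I.card ∣ N.det := by
  classical
  have h1 : ∀ i j, ∃ z : ℤ, N i j = (if i ∈ I then p else 1) * z := by
    intro i j
    by_cases hi : i ∈ I
    · obtain ⟨z, hz⟩ := h i hi j
      exact ⟨z, by rw [if_pos hi, hz]⟩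
    · exact ⟨N i j, by rw [if_neg hi, one_mul]⟩
  choose Z hZ using h1
  have h2 : N = Matrix.of fun i j => (if i ∈ I then p else 1) * Z i j := by
    ext i j
    rw [Matrix.of_apply]
    exact hZ i j
  rw [h2]
  have h3 := Matrix.det_mul_column (fun i : Fin n => if i ∈ I then p else 1)
    (Matrix.of fun i j => Z i j)
  have h4 : (∏ i : Fin n, if i ∈ I then p else 1) = p ^ I.card := by
    rw [Finset.prod_ite_mem, Finset.univ_inter, Finset.prod_const]
  rw [h4] at h3
  exact ⟨_, h3⟩

/-- points congruent modulo `p` make the determinant divisible by a power of `p` -/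
theorem MM_dvd {d : ℕ} (s : Fin (d + 2) → ℤ) (x : Fin (d + 2) → Fin d → ℤ) (p : ℤ)
    (I : Finset (Fin (d + 2))) (hI : ∀ i ∈ I, ∀ j ∈ I, ∀ q, p ∣ x i q - x j q) :
    p ^ (I.card - 2) ∣ (MM s (fun i => (Fin.cons 1 (x i) : Fin (d + 1) → ℤ))).det := by
  classical
  rcases I.eq_empty_or_nonempty with rfl | ⟨i0, hi0⟩
  · simp
  set J := I.erase i0 with hJ
  have hJcard : J.card = I.card - 1 := Finset.card_erase_of_mem hi0
  have hi0J : i0 ∉ J := Finset.notMem_erase i0 I
  set s' : Fin (d + 2) → ℤ := fun i => if i ∈ J then s i - s i0 else s i with hs'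
  set a' : Fin (d + 2) → Fin (d + 1) → ℤ := fun i =>
    if i ∈ J then (fun q => (Fin.cons 1 (x i) : Fin (d + 1) → ℤ) q
      - (Fin.cons 1 (x i0) : Fin (d + 1) → ℤ) q) else Fin.cons 1 (x i) with ha'
  have h1 : (MM s' a').det = (MM s (fun i => (Fin.cons 1 (x i) : Fin (d + 1) → ℤ))).det := by
    apply Matrix.det_eq_of_forall_row_eq_smul_add_const (fun i => if i ∈ J then (-1 : ℤ) else 0) i0
    · rw [if_neg hi0J]
    · intro i j
      by_cases hi : i ∈ J
      · refine Fin.cases ?_ (fun j => ?_) j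
        · simp [MM, hs', hi, sub_eq_add_neg]
        · simp [MM, ha', hi, sub_eq_add_neg]
      · refine Fin.cases ?_ (fun j => ?_) j
        · simp [MM, hs', hi]
        · simp [MM, ha', hi]
  rw [← h1, MM_expand]
  apply Finset.dvd_sum
  intro k _
  apply Dvd.dvd.mul_left
  set K : Finset (Fin (d + 1)) := Finset.univ.filter fun j => k.succAbove j ∈ J with hK
  have h2 : p ^ K.card ∣ (Matrix.of fun j : Fin (d + 1) => a' (k.succAbove j)).det := by
    apply det_dvd_rows
    intro i hi j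
    rw [hK, Finset.mem_filter] at hi
    rw [Matrix.of_apply, ha']
    simp only [hi.2, if_true]
    refine Fin.cases ?_ (fun j => ?_) j
    · simp
    · simp only [Fin.cons_succ]
      exact hI _ (Finset.mem_of_mem_erase hi.2) _ hi0 j
  refine dvd_trans (pow_dvd_pow p ?_) h2
  have h3 : K.image k.succAbove = J.erase k := by
    ext i
    rw [Finset.mem_image, Finset.mem_erase]
    constructor
    · rintro ⟨j, hj, rfl⟩
      rw [hK, Finset.mem_filter] at hj
      exact ⟨Fin.succAbove_ne k j, hj.2⟩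
    · rintro ⟨hik, hiJ⟩
      obtain ⟨j, rfl⟩ := Fin.exists_succAbove_eq hik
      exact ⟨j, by simp [hK, hiJ], rfl⟩
  have h4 : K.card = (J.erase k).card := by
    rw [← h3, Finset.card_image_of_injective _ Fin.succAbove_right_injective]
  have h5 : J.card - 1 ≤ (J.erase k).card := Finset.pred_card_le_card_erase
  omega

/-- subtracting the row of one point from the others -/
theorem MM_contract {d : ℕ} (h0 : ℝ) (h : Fin (d + 1) → ℝ) (x0 : Fin d → ℝ)
    (x : Fin (d + 1) → Fin d → ℝ) :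
    |(MM (Fin.cons h0 h : Fin (d + 2) → ℝ) (fun i =>
        (Fin.cons 1 ((Fin.cons x0 x : Fin (d + 2) → Fin d → ℝ) i) : Fin (d + 1) → ℝ))).det|
      = |(MM (fun i => h i - h0) (fun i => x i - x0)).det| := by
  classical
  set A : Matrix (Fin (d + 2)) (Fin (d + 2)) ℝ := Matrix.of fun i j =>
    (MM (Fin.cons h0 h : Fin (d + 2) → ℝ) (fun i =>
        (Fin.cons 1 ((Fin.cons x0 x : Fin (d + 2) → Fin d → ℝ) i) : Fin (d + 1) → ℝ))) i j
      + (if i = 0 then (0 : ℝ) else -1) *
    (MM (Fin.cons h0 h : Fin (d + 2) → ℝ) (fun i =>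
        (Fin.cons 1 ((Fin.cons x0 x : Fin (d + 2) → Fin d → ℝ) i) : Fin (d + 1) → ℝ))) 0 j with hA
  have h1 : A.det = (MM (Fin.cons h0 h : Fin (d + 2) → ℝ) (fun i =>
        (Fin.cons 1 ((Fin.cons x0 x : Fin (d + 2) → Fin d → ℝ) i) : Fin (d + 1) → ℝ))).det :=
    Matrix.det_eq_of_forall_row_eq_smul_add_const (fun i => if i = 0 then (0 : ℝ) else -1) 0
      (by simp) (fun i j => rfl)
  rw [← h1, Matrix.det_succ_column A (Fin.succ 0), Fin.sum_univ_succ]
  have h2 : ∀ i : Fin (d + 1), A i.succ (Fin.succ 0) = 0 := by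
    intro i
    simp [hA, MM]
  have h3 : A 0 (Fin.succ 0) = 1 := by
    simp [hA, MM]
  simp only [h2, h3, mul_zero, zero_mul, Finset.sum_const_zero, add_zero, mul_one]
  have h4 : A.submatrix (Fin.succAbove 0) (Fin.succAbove (Fin.succ 0))
      = MM (fun i => h i - h0) (fun i => x i - x0) := by
    ext i j
    refine Fin.cases ?_ (fun j => ?_) j
    · have e : (Fin.succ 0 : Fin (d + 2)).succAbove 0 = 0 :=
        Fin.succAbove_ne_zero_zero (Fin.succ_ne_zero _)
      simp only [Matrix.submatrix_apply, e, Fin.zero_succAbove]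
      simp [hA, MM, sub_eq_add_neg]
    · have e : (Fin.succ 0 : Fin (d + 2)).succAbove j.succ = j.succ.succ := by
        rw [Fin.succ_succAbove_succ]
        simp
      simp only [Matrix.submatrix_apply, e, Fin.zero_succAbove]
      simp [hA, MM, sub_eq_add_neg]
  rw [h4, abs_mul, abs_pow, abs_neg, abs_one, one_pow, one_mul]

end Pool.Agent.Helper62.LS
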