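import Pool.Agent.Helper62.LS.F
import Pool.Agent.Helper62.LS.Div

/-!
# LS: the bound for a congruence class
-/

namespace Pool.Agent.Helper62.LS

open Finset

/-- homogenised point -/
def hp {ι : Type} {d : ℕ} (x : ι → Fin d → ℤ) (i : ι) : Fin (d + 1) → ℤ := Fin.cons 1 (x i)

theorem hp_real {ι : Type} {d : ℕ} (x : ι → Fin d → ℤ) (i : ι) :
    (fun p => (hp x i p : ℝ)) = (Fin.cons 1 (fun p => (x i p : ℝ)) : Fin (d + 1) → ℝ) := by
  funext p
  refine Fin.cases ?_ (fun p => ?_) p
  · simp [hp]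
  · simp [hp]

theorem hp_inj {ι : Type} {d : ℕ} {x : ι → Fin d → ℤ} (hinj : Function.Injective x) :
    Function.Injective (hp x) := by
  intro i j h
  apply hinj
  have h1 := Fin.cons_injective2 h
  exact h1.2

/-- rank of a subfamily -/
theorem card_basis {ι : Type} [Fintype ι] {r : ℕ} (a : ι → Fin r → ℤ) (b C : Finset ι)
    (hbC : b ⊆ C) (hli : LinearIndepOn ℝ (fun i p => (a i p : ℝ)) (b : Set ι))
    (hspan : ∀ i ∈ C, (fun p => (a i p : ℝ)) ∈
        Submodule.span ℝ ((fun i p => (a i p : ℝ)) '' (b : Set ι))) :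
    b.card = Module.finrank ℝ (Submodule.span ℝ ((fun i p => (a i p : ℝ)) '' (C : Set ι))) := by
  classical
  have h1 : Submodule.span ℝ ((fun i p => (a i p : ℝ)) '' (C : Set ι))
      = Submodule.span ℝ ((fun i p => (a i p : ℝ)) '' (b : Set ι)) := by
    apply le_antisymm
    · rw [Submodule.span_le]
      rintro _ ⟨i, hi, rfl⟩
      exact hspan i hi
    · exact Submodule.span_mono (Set.image_mono (by exact_mod_cast hbC))
  have hli' : LinearIndependent ℝ (fun i : (b : Set ι) => (fun p => (a i.1 p : ℝ))) := hli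
  have hrange : Set.range (fun i : (b : Set ι) => (fun p => (a i.1 p : ℝ)))
      = (fun i p => (a i p : ℝ)) '' (b : Set ι) := by
    ext v
    constructor
    · rintro ⟨i, rfl⟩
      exact ⟨i.1, i.2, rfl⟩
    · rintro ⟨i, hi, rfl⟩
      exact ⟨⟨i, hi⟩, rfl⟩
  rw [h1, ← hrange, finrank_span_eq_card hli']
  simp

theorem pair_indep {ι : Type} {d : ℕ} (x : ι → Fin d → ℤ) (hinj : Function.Injective x) (i j : ι)
    (hij : i ≠ j) : LinearIndepOn ℝ (fun i p => (hp x i p : ℝ)) ({i, j} : Set ι) := by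
  rw [LinearIndepOn.pair_iff _ hij]
  intro s t h
  have h0 := congrFun h 0
  simp only [Pi.add_apply, Pi.smul_apply, smul_eq_mul, Pi.zero_apply, hp, Fin.cons_zero,
    Int.cast_one, mul_one] at h0
  obtain ⟨q, hq⟩ : ∃ q, x i q ≠ x j q := by
    by_contra hcon
    push Not at hcon
    exact hij (hinj (funext hcon))
  have h1 := congrFun h q.succ
  simp only [Pi.add_apply, Pi.smul_apply, smul_eq_mul, Pi.zero_apply, hp, Fin.cons_succ] at h1
  have h2 : s = -t := by linarith
  rw [h2] at h1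
  have h3 : t * ((x j q : ℝ) - x i q) = 0 := by linarith
  have h4 : (x j q : ℝ) - x i q ≠ 0 := by
    rw [sub_ne_zero]
    exact_mod_cast hq.symm
  have h5 : t = 0 := (mul_eq_zero.1 h3).resolve_right h4
  exact ⟨by rw [h2, h5, neg_zero], h5⟩

theorem pow_bound (p k : ℕ) (hp : 2 ≤ p) (hk : 2 ≤ k) (T : ℝ) (hT : 0 ≤ T) :
    (k : ℝ) * (T / (p ^ (k - 1) : ℕ)) ≤ 2 * T / p := by
  obtain ⟨j, rfl⟩ := Nat.exists_eq_add_of_le hk
  have h1 : 2 + j - 1 = j + 1 := by omega
  rw [h1]
  have h2 : (2 + j : ℝ) ≤ 2 * 2 ^ j := by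
    have h3 : 2 + j ≤ 2 * 2 ^ j := by
      induction j with
      | zero => norm_num
      | succ j ih =>
        have := ih (by omega) (by omega)
        have h4 : 1 ≤ 2 ^ j := Nat.one_le_two_pow
        rw [pow_succ]
        omega
    exact_mod_cast h3
  have h3 : (2 : ℝ) ^ j ≤ (p : ℝ) ^ j := by
    apply pow_le_pow_left₀ (by norm_num)
    exact_mod_cast hp
  have hp0 : (0 : ℝ) < p := by
    have : 0 < p := by omega
    exact_mod_cast this
  push_cast
  rw [← mul_div_assoc, div_le_div_iff₀ (by positivity) hp0, pow_succ]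
  have h4 : (2 + (j : ℝ)) ≤ 2 * (p : ℝ) ^ j := by linarith
  have h5 : (2 + (j : ℝ)) * (T * p) ≤ 2 * (p : ℝ) ^ j * (T * p) :=
    mul_le_mul_of_nonneg_right h4 (by positivity)
  nlinarith

/-- **class bound** -/
theorem class_bound {ι : Type} [Fintype ι] [DecidableEq ι] {d : ℕ} (x : ι → Fin d → ℤ)
    (hinj : Function.Injective x) (lo up : ι → ℝ) (hlu : ∀ i, lo i ≤ up i) (T : ℝ)
    (hT : ∀ (τ : Fin (d + 2) → ι) (h : Fin (d + 2) → ℝ),
      (∀ i, h i = lo (τ i) ∨ h i = up (τ i)) →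
      |(MM h (fun i => (Fin.cons 1 (fun p => (x (τ i) p : ℝ)) : Fin (d + 1) → ℝ))).det| ≤ T)
    (hspan : ∃ τ : Fin (d + 1) → ι,
      (Matrix.of fun j => (Fin.cons 1 (x (τ j)) : Fin (d + 1) → ℤ)).det ≠ 0)
    (p : ℕ) (hp2 : 2 ≤ p) (C : Finset ι)
    (hC : ∀ i ∈ C, ∀ j ∈ C, ∀ q, (p : ℤ) ∣ x i q - x j q) (hcard : 2 ≤ C.card) :
    ∑ i ∈ C, (up i - lo i) ≤ 2 * T / p := by
  classical
  have hT' : ∀ (τ : Fin (d + 1 + 1) → ι) (h : Fin (d + 1 + 1) → ℝ),
      (∀ i, h i = lo (τ i) ∨ h i = up (τ i)) →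
      |(MM h (fun i p => (hp x (τ i) p : ℝ))).det| ≤ T := by
    intro τ h hh
    have h1 := hT τ h hh
    have h2 : (fun i p => (hp x (τ i) p : ℝ))
        = fun i => (Fin.cons 1 (fun p => (x (τ i) p : ℝ)) : Fin (d + 1) → ℝ) := by
      funext i
      exact hp_real x (τ i)
    rw [h2]
    exact h1
  obtain ⟨i1, hi1, i2, hi2, h12⟩ := Finset.one_lt_card.1 hcard
  have hT0 : 0 ≤ T := (abs_nonneg _).trans (hT (fun _ => i1) (fun _ => lo i1) fun _ => Or.inl rfl)
  -- a basis of the class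
  obtain ⟨b, hsb, hbC, hbli, hbspan⟩ := extend_in (hp x) {i1, i2} C
    (by intro i hi; rw [Finset.mem_insert, Finset.mem_singleton] at hi; rcases hi with rfl | rfl <;> assumption)
    (by rw [Finset.coe_pair]; exact pair_indep x hinj i1 i2 h12)
  have hk2 : 2 ≤ b.card := by
    have := Finset.card_le_card hsb
    rwa [Finset.card_pair h12] at this
  have hkrank := card_basis (hp x) b C hbC hbli hbspan
  set k := b.card with hk
  set q : ℕ := p ^ (k - 1) with hq
  have hq0 : 0 < q := pow_pos (by omega) _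
  set T' : ℝ := T / q with hT'def
  have hT'0 : 0 ≤ T' := div_nonneg hT0 (Nat.cast_nonneg _)
  -- solvability on the class
  have hE0 : ∀ i ∈ C, 0 < ∑ l, (hp x i l : ℝ) * (Pi.single 0 1 : Fin (d + 1) → ℝ) l := by
    intro i _
    rw [Finset.sum_eq_single 0]
    · simp [hp]
    · intro l _ hl
      rw [Pi.single_eq_of_ne hl, mul_zero]
    · intro h
      exact absurd (Finset.mem_univ _) h
  have hsolv := floor_solvable (hp x) lo up T hT' C q hq0
    (by
      intro s hsC hs
      obtain ⟨b', hsb', hb'C, hb'li, hb'span⟩ := extend_in (hp x) s C hsC hs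
      have hk' : b'.card = k := by
        rw [card_basis (hp x) b' C hb'C hb'li hb'span, hkrank]
      obtain ⟨τ, hτinj, hτ, hcov⟩ := complete (hp x) hspan b' hb'li
      refine ⟨τ, hτ, fun i hi => hcov i (hsb' hi), fun j hj h => ?_⟩
      let I0 : Finset (Fin (d + 1)) := Finset.univ.filter fun l => τ l ∈ C
      let I : Finset (Fin (d + 2)) := insert 0 (I0.map ⟨Fin.succ, Fin.succ_injective _⟩)
      have hI0 : k ≤ I0.card := by
        rw [← hk']
        calc b'.card ≤ (I0.image τ).card := by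
              apply Finset.card_le_card
              intro i hi
              obtain ⟨l, hl⟩ := hcov i hi
              rw [Finset.mem_image]
              exact ⟨l, Finset.mem_filter.2 ⟨Finset.mem_univ _, by rw [hl]; exact hb'C hi⟩, hl⟩
          _ ≤ I0.card := Finset.card_image_le
      have hIcard : k + 1 ≤ I.card := by
        rw [Finset.card_insert_of_notMem, Finset.card_map]
        · omega
        · intro h
          obtain ⟨l, _, hl⟩ := Finset.mem_map.1 h
          exact Fin.succ_ne_zero l hl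
      have hIC : ∀ l ∈ I, (Fin.cons j τ : Fin (d + 2) → ι) l ∈ C := by
        intro l hl
        rcases Finset.mem_insert.1 hl with rfl | hl
        · exact hj
        · obtain ⟨l', hl', rfl⟩ := Finset.mem_map.1 hl
          exact (Finset.mem_filter.1 hl').2
      have h1 := MM_dvd h (fun l => x ((Fin.cons j τ : Fin (d + 2) → ι) l)) (p : ℤ) I
        (fun l hl l' hl' q => hC _ (hIC l hl) _ (hIC l' hl') q)
      refine dvd_trans ?_ h1
      rw [hq]
      push_cast
      exact pow_dvd_pow _ (by omega))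
    (Pi.single 0 1) hE0
  -- the family with dummy vectors
  let a' : {i // i ∈ C} ⊕ Fin (d + 1) → Fin (d + 1) → ℤ :=
    Sum.elim (fun i => hp x i.1) (fun j => Pi.single j 1)
  have hbsub : ∀ i ∈ b, i ∈ C := fun i hi => hbC hi
  let sb : Finset ({i // i ∈ C} ⊕ Fin (d + 1)) :=
    b.attach.image fun i => Sum.inl ⟨i.1, hbsub i.1 i.2⟩
  have hsbmem : ∀ i (hi : i ∈ b), (Sum.inl ⟨i, hbsub i hi⟩ : {i // i ∈ C} ⊕ Fin (d + 1)) ∈ sb := by
    intro i hi
    exact Finset.mem_image.2 ⟨⟨i, hi⟩, Finset.mem_attach _ _, rfl⟩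
  have hsbli : LinearIndepOn ℝ (fun z l => (a' z l : ℝ))
      (sb : Set ({i // i ∈ C} ⊕ Fin (d + 1))) := by
    have h1 : LinearIndependent ℝ (fun i : (b : Set ι) => (fun l => (hp x i.1 l : ℝ))) := hbli
    let e : ↥(sb : Set ({i // i ∈ C} ⊕ Fin (d + 1))) → ↥(b : Set ι) := fun z =>
      ⟨(Finset.mem_image.1 z.2).choose.1, (Finset.mem_image.1 z.2).choose.2⟩
    have he : ∀ z, (Sum.inl ⟨(e z).1, hbsub _ (e z).2⟩ : {i // i ∈ C} ⊕ Fin (d + 1)) = z.1 :=
      fun z => (Finset.mem_image.1 z.2).choose_spec.2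
    have heinj : Function.Injective e := by
      intro z z' h
      apply Subtype.ext
      rw [← he z, ← he z', h]
    have h2 := h1.comp e heinj
    have h3 : ((fun i : (b : Set ι) => (fun l => (hp x i.1 l : ℝ))) ∘ e)
        = fun z : (sb : Set ({i // i ∈ C} ⊕ Fin (d + 1))) => (fun l => (a' z.1 l : ℝ)) := by
      funext z
      rw [← he z]
      rfl
    rw [h3] at h2
    exact h2
  have hspan' : ∃ τ : Fin (d + 1) → {i // i ∈ C} ⊕ Fin (d + 1),
      (Matrix.of fun j => a' (τ j)).det ≠ 0 := by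
    refine ⟨fun j => Sum.inr j, ?_⟩
    have h1 : (Matrix.of fun j : Fin (d + 1) => a' (Sum.inr j)) = 1 := by
      ext j l
      simp only [a', Sum.elim_inr, Matrix.of_apply, Matrix.one_apply]
      rw [Pi.single_apply]
      simp only [eq_comm]
    rw [h1, Matrix.det_one]
    exact one_ne_zero
  obtain ⟨τ, hτinj, hτ, hτcov⟩ := complete a' hspan' sb hsbli
  -- the number of class vectors is at most `k`
  have hdetR : (Matrix.of fun j => (fun l => (a' (τ j) l : ℝ))).det ≠ 0 := by
    have h1 : (Matrix.of fun j => (fun l => (a' (τ j) l : ℝ))).det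
        = (((Matrix.of fun j => a' (τ j)).det : ℤ) : ℝ) := by
      rw [of_cast]
    rw [h1]
    exact_mod_cast hτ
  have hliτ : LinearIndependent ℝ (fun j => (fun l => (a' (τ j) l : ℝ))) :=
    (Matrix.linearIndependent_rows_iff_isUnit
      (A := (Matrix.of fun j => (fun l => (a' (τ j) l : ℝ))))).2
      ((Matrix.isUnit_iff_isUnit_det _).2 (isUnit_iff_ne_zero.2 hdetR))
  let L : Finset (Fin (d + 1)) := Finset.univ.filter fun l => (τ l).isLeft
  have hLcard : L.card ≤ k := by
    have h1 : LinearIndependent ℝ (fun l : {l // l ∈ L} => (fun q => (a' (τ l.1) q : ℝ))) :=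
      hliτ.comp (fun l : {l // l ∈ L} => l.1) Subtype.val_injective
    have h2 := finrank_span_eq_card h1
    have h3 : Submodule.span ℝ (Set.range fun l : {l // l ∈ L} => (fun q => (a' (τ l.1) q : ℝ)))
        ≤ Submodule.span ℝ ((fun i p => (hp x i p : ℝ)) '' (C : Set ι)) := by
      apply Submodule.span_mono
      rintro _ ⟨l, rfl⟩
      have h4 := (Finset.mem_filter.1 l.2).2
      obtain ⟨i, hi⟩ := Sum.isLeft_iff.1 h4
      refine ⟨i.1, i.2, ?_⟩
      show _ = fun q => (a' (τ l.1) q : ℝ)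
      rw [hi]
      rfl
    have h4 := Submodule.finrank_mono h3
    rw [h2, ← hkrank] at h4
    simpa using h4
  let J : Finset (Fin (d + 1)) := Finset.univ.filter fun j => ∃ l, τ l = Sum.inr j
  have hJcard : d + 1 ≤ J.card + k := by
    have h1 : (Finset.univ \ L).card ≤ J.card := by
      apply Finset.card_le_card_of_injOn
        (fun l => Sum.elim (fun _ => 0) (fun j => j) (τ l))
      · intro l hl
        rw [Finset.mem_coe, Finset.mem_sdiff] at hl
        have h2 : ¬ (τ l).isLeft := fun h => hl.2 (Finset.mem_filter.2 ⟨Finset.mem_univ _, h⟩)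
        rw [Finset.mem_coe, Finset.mem_filter]
        rcases h3 : τ l with i | j
        · rw [h3] at h2
          exact absurd rfl h2
        · refine ⟨Finset.mem_univ _, l, ?_⟩
          show τ l = Sum.inr (Sum.elim (fun _ => 0) (fun j => j) (τ l))
          rw [h3]
          rfl
      · intro l hl l' hl' h
        rw [Finset.mem_coe, Finset.mem_sdiff] at hl hl'
        have h2 : ¬ (τ l).isLeft := fun h => hl.2 (Finset.mem_filter.2 ⟨Finset.mem_univ _, h⟩)
        have h2' : ¬ (τ l').isLeft := fun h => hl'.2 (Finset.mem_filter.2 ⟨Finset.mem_univ _, h⟩)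
        apply hτinj
        rcases h3 : τ l with i | j
        · rw [h3] at h2
          exact absurd rfl h2
        · rcases h4 : τ l' with i | j'
          · rw [h4] at h2'
            exact absurd rfl h2'
          · simp only [h3, h4, Sum.elim_inr] at h
            rw [h]
    rw [Finset.card_sdiff_of_subset (Finset.subset_univ L), Finset.card_univ, Fintype.card_fin] at h1
    omega
  -- the final family
  let ι' : Type := {i // i ∈ C} ⊕ {j // j ∈ J}
  let a2 : ι' → Fin (d + 1) → ℤ := Sum.elim (fun i => hp x i.1) (fun j => Pi.single j.1 1)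
  let lo2 : ι' → ℝ := Sum.elim (fun i => lo i.1) (fun _ => 0)
  let up2 : ι' → ℝ := Sum.elim (fun i => up i.1) (fun _ => T')
  have hspanb : ∀ i ∈ C, ∀ w : (Fin (d + 1) → ℝ) →ₗ[ℝ] ℝ,
      (∀ i ∈ b, w (fun l => (hp x i l : ℝ)) = 0) → w (fun l => (hp x i l : ℝ)) = 0 := by
    intro i hi w hw
    have h1 : Submodule.span ℝ ((fun i p => (hp x i p : ℝ)) '' (b : Set ι)) ≤ LinearMap.ker w := by
      rw [Submodule.span_le]
      rintro _ ⟨i, hi, rfl⟩
      exact LinearMap.mem_ker.2 (hw i hi)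
    exact LinearMap.mem_ker.1 (h1 (hbspan i hi))
  have hnotin : ∀ i ∈ C, ∀ j ∈ J, hp x i ≠ Pi.single j 1 := by
    intro i hi j hj h
    obtain ⟨l, hl⟩ := (Finset.mem_filter.1 hj).2
    -- a functional vanishing on the other rows
    set N : Matrix (Fin (d + 1)) (Fin (d + 1)) ℝ :=
      Matrix.of fun j => (fun l => (a' (τ j) l : ℝ)) with hN
    let y : Fin (d + 1) → ℝ := N⁻¹.mulVec (Pi.single l 1)
    have hy : N.mulVec y = Pi.single l 1 := by
      show N.mulVec (N⁻¹.mulVec (Pi.single l 1)) = _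
      rw [Matrix.mulVec_mulVec, Matrix.mul_nonsing_inv _ (isUnit_iff_ne_zero.2 hdetR),
        Matrix.one_mulVec]
    let w : (Fin (d + 1) → ℝ) →ₗ[ℝ] ℝ := Fintype.linearCombination ℝ y
    have hw : ∀ v, w v = ∑ q, v q * y q := fun v => by
      simp [w, Fintype.linearCombination_apply]
    have h1 : w (fun l => (hp x i l : ℝ)) = 0 := by
      apply hspanb i hi
      intro i' hi'
      obtain ⟨l', hl'⟩ := hτcov _ (hsbmem i' hi')
      rw [hw]
      have h2 := congrFun hy l'
      have h3 : l' ≠ l := by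
        rintro rfl
        rw [hl] at hl'
        exact Sum.inr_ne_inl hl'
      rw [Pi.single_eq_of_ne h3] at h2
      rw [← h2]
      show _ = ∑ q, N l' q * y q
      apply Finset.sum_congr rfl
      intro q _
      rw [hN, Matrix.of_apply, hl']
      rfl
    have h4 : w (fun l => (hp x i l : ℝ)) = 1 := by
      rw [hw]
      have h2 := congrFun hy l
      rw [Pi.single_eq_same] at h2
      rw [← h2]
      show _ = ∑ q, N l q * y q
      apply Finset.sum_congr rfl
      intro q _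
      rw [hN, Matrix.of_apply, hl, h]
      rfl
    rw [h1] at h4
    exact zero_ne_one h4
  have ha2inj : Function.Injective a2 := by
    rintro (i | j) (i' | j') h
    · have h1 : hp x i.1 = hp x i'.1 := h
      rw [Subtype.ext (hp_inj hinj h1)]
    · exact absurd h (hnotin i.1 i.2 j'.1 j'.2)
    · exact absurd h.symm (hnotin i'.1 i'.2 j.1 j.2)
    · have h1 : (Pi.single j.1 1 : Fin (d + 1) → ℤ) = Pi.single j'.1 1 := h
      congr 1
      apply Subtype.ext
      by_contra hne
      have h2 := congrFun h1 j.1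
      rw [Pi.single_eq_same, Pi.single_eq_of_ne hne] at h2
      exact one_ne_zero h2
  have hspan2 : ∃ τ : Fin (d + 1) → ι', (Matrix.of fun j => a2 (τ j)).det ≠ 0 := by
    have h1 : ∀ l, ∃ z : ι', a2 z = a' (τ l) := by
      intro l
      rcases h3 : τ l with i | j
      · exact ⟨Sum.inl i, rfl⟩
      · exact ⟨Sum.inr ⟨j, Finset.mem_filter.2 ⟨Finset.mem_univ _, l, h3⟩⟩, rfl⟩
    choose z hz using h1
    refine ⟨z, ?_⟩
    simp only [hz]
    exact hτ
  set N0 : ℝ := 1 + ∑ i ∈ C, ∑ q, |(x i q : ℝ)| with hN0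
  have hN0pos : 0 < N0 := by
    have : 0 ≤ ∑ i ∈ C, ∑ q, |(x i q : ℝ)| :=
      Finset.sum_nonneg fun i _ => Finset.sum_nonneg fun q _ => abs_nonneg _
    linarith
  have hE2 : ∀ z : ι', 0 < ∑ l, (a2 z l : ℝ) * (Fin.cons N0 (fun _ => 1) : Fin (d + 1) → ℝ) l := by
    rintro (i | j)
    · show 0 < ∑ l, (hp x i.1 l : ℝ) * (Fin.cons N0 (fun _ => 1) : Fin (d + 1) → ℝ) l
      rw [Fin.sum_univ_succ]
      simp only [hp, Fin.cons_zero, Fin.cons_succ, Int.cast_one, one_mul, mul_one]
      have h1 : ∑ q, |(x i.1 q : ℝ)| ≤ ∑ i ∈ C, ∑ q, |(x i q : ℝ)| :=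
        Finset.single_le_sum (f := fun i => ∑ q, |(x i q : ℝ)|)
          (fun i _ => Finset.sum_nonneg fun q _ => abs_nonneg _) i.2
      have h2 : -∑ q, |(x i.1 q : ℝ)| ≤ ∑ q, (x i.1 q : ℝ) := by
        rw [← Finset.sum_neg_distrib]
        exact Finset.sum_le_sum fun q _ => neg_abs_le _
      linarith
    · show 0 < ∑ l, (((Pi.single j.1 1 : Fin (d + 1) → ℤ) l : ℤ) : ℝ)
        * (Fin.cons N0 (fun _ => 1) : Fin (d + 1) → ℝ) l
      rw [Finset.sum_eq_single j.1]
      · rw [Pi.single_eq_same, Int.cast_one, one_mul]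
        refine Fin.cases ?_ (fun l => ?_) j.1
        · simpa using hN0pos
        · simp
      · intro l _ hl
        rw [Pi.single_eq_of_ne hl]
        simp
      · intro h
        exact absurd (Finset.mem_univ _) h
  have hfeas : ∀ M : ℕ, 0 < M → ∀ k0 : Fin (d + 1) → ℤ, ∃ y : Fin (d + 1) → ℝ, ∀ z : ι',
      T' * (((∑ l, a2 z l * k0 l) / (M : ℤ) : ℤ) : ℝ) - lo2 z ≤ ∑ l, (a2 z l : ℝ) * y l ∧
      ∑ l, (a2 z l : ℝ) * y l
        ≤ T' * (((∑ l, a2 z l * k0 l) / (M : ℤ) : ℤ) : ℝ) + T' - up2 z := by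
    intro M hM k0
    obtain ⟨y0, hy0⟩ := hsolv M hM k0
    set N : Matrix (Fin (d + 1)) (Fin (d + 1)) ℝ :=
      Matrix.of fun j => (fun l => (a' (τ j) l : ℝ)) with hN
    let rhs : Fin (d + 1) → ℝ := fun l =>
      Sum.elim (fun i : {i // i ∈ C} => ∑ q, (hp x i.1 q : ℝ) * y0 q)
        (fun j : Fin (d + 1) => T' * (((k0 j) / (M : ℤ) : ℤ) : ℝ)) (τ l)
    let y : Fin (d + 1) → ℝ := N⁻¹.mulVec rhs
    have hy : N.mulVec y = rhs := by
      show N.mulVec (N⁻¹.mulVec rhs) = _
      rw [Matrix.mulVec_mulVec, Matrix.mul_nonsing_inv _ (isUnit_iff_ne_zero.2 hdetR),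
        Matrix.one_mulVec]
    have hyl : ∀ l, ∑ q, (a' (τ l) q : ℝ) * y q = rhs l := fun l => congrFun hy l
    have hCy : ∀ i ∈ C, ∑ q, (hp x i q : ℝ) * y q = ∑ q, (hp x i q : ℝ) * y0 q := by
      intro i hi
      let w : (Fin (d + 1) → ℝ) →ₗ[ℝ] ℝ := Fintype.linearCombination ℝ (y - y0)
      have hw : ∀ v, w v = ∑ q, v q * y q - ∑ q, v q * y0 q := fun v => by
        simp only [w, Fintype.linearCombination_apply, smul_eq_mul, Pi.sub_apply]
        rw [← Finset.sum_sub_distrib]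
        exact Finset.sum_congr rfl fun q _ => by ring
      have h1 : w (fun l => (hp x i l : ℝ)) = 0 := by
        apply hspanb i hi
        intro i' hi'
        obtain ⟨l', hl'⟩ := hτcov _ (hsbmem i' hi')
        rw [hw]
        have h2 := hyl l'
        have h3 : rhs l' = ∑ q, (hp x i' q : ℝ) * y0 q := by
          show Sum.elim _ _ (τ l') = _
          rw [hl']
          rfl
        rw [h3, hl'] at h2
        have h4 : ∑ q, (a' (Sum.inl ⟨i', hbsub i' hi'⟩) q : ℝ) * y q
            = ∑ q, (hp x i' q : ℝ) * y q := rfl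
        rw [h4] at h2
        rw [h2, sub_self]
      rw [hw] at h1
      linarith
    refine ⟨y, ?_⟩
    rintro (i | j)
    · have h1 := hy0 i.1 i.2
      rw [← hCy i.1 i.2] at h1
      exact h1
    · obtain ⟨l, hl⟩ := (Finset.mem_filter.1 j.2).2
      have h2 := hyl l
      have h3 : rhs l = T' * (((k0 j.1) / (M : ℤ) : ℤ) : ℝ) := by
        show Sum.elim _ _ (τ l) = _
        rw [hl]
        rfl
      rw [h3, hl] at h2
      have h4 : ∑ q, (a2 (Sum.inr j) q : ℝ) * y q = T' * (((k0 j.1) / (M : ℤ) : ℤ) : ℝ) := h2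
      have h5 : ∑ q, a2 (Sum.inr j) q * k0 q = k0 j.1 := by
        show ∑ q, (Pi.single j.1 1 : Fin (d + 1) → ℤ) q * k0 q = k0 j.1
        rw [Finset.sum_eq_single j.1]
        · rw [Pi.single_eq_same, one_mul]
        · intro q _ hq
          rw [Pi.single_eq_of_ne hq, zero_mul]
        · intro h
          exact absurd (Finset.mem_univ _) h
      rw [h4, h5]
      have h6 : lo2 (Sum.inr j) = 0 := rfl
      have h7 : up2 (Sum.inr j) = T' := rfl
      rw [h6, h7]
      constructor <;> linarith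
  obtain ⟨g, hg0, hgd, hsum⟩ := F_feas a2 ha2inj lo2 up2
    (by
      rintro (i | j)
      · exact hlu i.1
      · exact hT'0)
    T' hspan2 _ hE2 hfeas
  have hg1 : ∀ z, g z = 1 := by
    intro z
    have h1 : ∃ l, a2 z l = 1 := by
      rcases z with i | j
      · exact ⟨0, by simp [a2, hp]⟩
      · exact ⟨j.1, by simp [a2]⟩
    obtain ⟨l, hl⟩ := h1
    have h2 := hgd z l
    rw [hl] at h2
    have h3 := Int.eq_one_of_dvd_one (Int.natCast_nonneg _) h2
    exact_mod_cast h3
  simp only [hg1, Nat.primeFactors_one, Finset.sum_empty, sub_zero, one_mul] at hsum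
  rw [Fintype.sum_sum_type] at hsum
  have h1 : ∑ i : {i // i ∈ C}, (up2 (Sum.inl i) - lo2 (Sum.inl i)) = ∑ i ∈ C, (up i - lo i) := by
    rw [← Finset.sum_coe_sort C (fun i => up i - lo i)]
    rfl
  have h2 : ∑ j : {j // j ∈ J}, (up2 (Sum.inr j) - lo2 (Sum.inr j)) = (J.card : ℝ) * T' := by
    have h3 : ∀ j : {j // j ∈ J}, up2 (Sum.inr j) - lo2 (Sum.inr j) = T' := fun j => sub_zero T'
    rw [Finset.sum_congr rfl fun j _ => h3 j, Finset.sum_const, Finset.card_univ,
      Fintype.card_coe, nsmul_eq_mul]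
  rw [h1, h2] at hsum
  have h3 : ((d + 1 : ℕ) : ℝ) ≤ (J.card : ℝ) + k := by exact_mod_cast hJcard
  have h4 : ∑ i ∈ C, (up i - lo i) ≤ (k : ℝ) * T' := by nlinarith
  refine h4.trans ?_
  rw [hT'def, hq]
  exact pow_bound p k hp2 hk2 T hT0

end Pool.Agent.Helper62.LS
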