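import Mathlib

/-!
# LS: sums over the discrete torus and counting
-/

namespace Pool.Agent.Helper62.LS

open Finset

/-- equivariant choice of solutions -/
theorem equivariant_choice {A Z V : Type} [AddCommGroup A] [AddCommGroup Z] [AddCommGroup V]
    (α : Z →+ A) (hα : Function.Injective α) (β : Z →+ V) (Φ : A → V → Prop)
    (hΦ : ∀ f v z, Φ f v → Φ (f + α z) (v + β z)) :
    ∃ Y : A → V, (∀ f, (∃ v, Φ f v) → Φ f (Y f)) ∧ ∀ f z, Y (f + α z) = Y f + β z := by
  classical
  let rep : A → A := fun f => (QuotientAddGroup.mk (s := α.range) f).out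
  have hrep : ∀ f, ∃ z, f = rep f + α z := by
    intro f
    have h1 : (QuotientAddGroup.mk (s := α.range) (rep f)) = QuotientAddGroup.mk f :=
      Quotient.out_eq _
    rw [QuotientAddGroup.eq] at h1
    obtain ⟨z, hz⟩ := h1
    refine ⟨z, ?_⟩
    rw [hz]
    abel
  choose w hw using hrep
  let Y0 : A → V := fun h => if h' : ∃ v, Φ h v then h'.choose else 0
  have hY0 : ∀ h, (∃ v, Φ h v) → Φ h (Y0 h) := by
    intro h h'
    have : Y0 h = h'.choose := dif_pos h'
    rw [this]
    exact h'.choose_spec
  refine ⟨fun f => Y0 (rep f) + β (w f), ?_, ?_⟩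
  · intro f ⟨v, hv⟩
    have h1 : Φ (rep f) (v + β (-w f)) := by
      have h2 := hΦ f v (-w f) hv
      have h3 : f + α (-w f) = rep f := by
        rw [map_neg]
        have := hw f
        nth_rewrite 1 [this]
        abel
      rwa [h3] at h2
    have h2 := hΦ (rep f) (Y0 (rep f)) (w f) (hY0 _ ⟨_, h1⟩)
    rwa [← hw f] at h2
  · intro f z
    have h1 : rep (f + α z) = rep f := by
      show (QuotientAddGroup.mk (s := α.range) (f + α z)).out
        = (QuotientAddGroup.mk (s := α.range) f).out
      congr 1
      rw [QuotientAddGroup.eq]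
      refine ⟨-z, ?_⟩
      rw [map_neg]
      abel
    have h2 : w (f + α z) = w f + z := by
      apply hα
      rw [map_add]
      have h3 := hw (f + α z)
      rw [h1] at h3
      have h4 := hw f
      have h5 : rep f + α (w (f + α z)) = rep f + (α (w f) + α z) := by
        rw [← h3]
        nth_rewrite 1 [h4]
        abel
      exact add_left_cancel h5
    show Y0 (rep (f + α z)) + β (w (f + α z)) = Y0 (rep f) + β (w f) + β z
    rw [h1, h2, map_add]
    abel

section Torus

variable {r : ℕ} (M : ℕ) [NeZero M]

/-- the standard representative -/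
def lift (k : Fin r → ZMod M) : Fin r → ℤ := fun p => ((k p).val : ℤ)

/-- the sum over the discrete torus -/
noncomputable def SS (f : (Fin r → ℤ) → ℝ) : ℝ := ∑ k : Fin r → ZMod M, f (lift M k)

/-- periodic functions -/
def Per (f : (Fin r → ℤ) → ℝ) : Prop :=
  ∀ k z : Fin r → ℤ, f (k + fun p => (M : ℤ) * z p) = f k

variable {M}

theorem Per.eq {f : (Fin r → ℤ) → ℝ} (hf : Per M f) (k k' : Fin r → ℤ)
    (h : ∀ p, (k p : ZMod M) = (k' p : ZMod M)) : f k = f k' := by
  have h1 : ∀ p, ∃ z : ℤ, k p = k' p + (M : ℤ) * z := by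
    intro p
    have h2 := (ZMod.intCast_eq_intCast_iff_dvd_sub (k' p) (k p) M).1 (h p).symm
    obtain ⟨z, hz⟩ := h2
    exact ⟨z, by linarith⟩
  choose z hz using h1
  have h2 : k = k' + fun p => (M : ℤ) * z p := funext hz
  rw [h2, hf]

theorem lift_cast (k : Fin r → ZMod M) (p : Fin r) : ((lift M k p : ℤ) : ZMod M) = k p := by
  unfold lift
  simp

theorem SS_shift {f : (Fin r → ℤ) → ℝ} (hf : Per M f) (v : Fin r → ℤ) :
    SS M (fun k => f (k + v)) = SS M f := by
  unfold SS
  have h1 : ∀ k : Fin r → ZMod M, f (lift M k + v) = f (lift M (k + fun p => (v p : ZMod M))) := by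
    intro k
    apply hf.eq
    intro p
    rw [lift_cast]
    simp only [Pi.add_apply]
    push_cast
    rw [lift_cast]
  simp only [h1]
  exact Fintype.sum_equiv (Equiv.addRight fun p => (v p : ZMod M)) _ _ fun k => rfl

theorem SS_add (f g : (Fin r → ℤ) → ℝ) : SS M (fun k => f k + g k) = SS M f + SS M g := by
  unfold SS
  exact Finset.sum_add_distrib

theorem SS_sub (f g : (Fin r → ℤ) → ℝ) : SS M (fun k => f k - g k) = SS M f - SS M g := by
  unfold SS
  exact Finset.sum_sub_distrib _ _

theorem SS_sum {ι : Type} (s : Finset ι) (f : ι → (Fin r → ℤ) → ℝ) :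
    SS M (fun k => ∑ i ∈ s, f i k) = ∑ i ∈ s, SS M (f i) := by
  unfold SS
  exact Finset.sum_comm

theorem SS_mono {f g : (Fin r → ℤ) → ℝ} (h : ∀ k, f k ≤ g k) : SS M f ≤ SS M g := by
  unfold SS
  exact Finset.sum_le_sum fun k _ => h _

theorem SS_const (c : ℝ) : SS (r := r) M (fun _ => c) = (M : ℝ) ^ r * c := by
  unfold SS
  rw [Finset.sum_const, nsmul_eq_mul, Finset.card_univ, Fintype.card_fun, ZMod.card,
    Fintype.card_fin]
  push_cast
  rfl

/-- pushing the uniform measure forward by a surjective character -/
theorem SS_char (u c : Fin r → ℤ) (huc : ∑ p, u p * c p = 1) (h : ZMod M → ℝ) :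
    (M : ℝ) * SS M (fun k => h ((∑ p, u p * k p : ℤ) : ZMod M))
      = (M : ℝ) ^ r * ∑ t : ZMod M, h t := by
  have hper : Per M (fun k : Fin r → ℤ => h ((∑ p, u p * k p : ℤ) : ZMod M)) := by
    intro k z
    show h _ = h _
    congr 1
    push_cast
    apply Finset.sum_congr rfl
    intro p _
    simp
  have h1 : ∀ s : ZMod M, SS M (fun k => h ((∑ p, u p * k p : ℤ) : ZMod M))
      = SS M (fun k => h (((∑ p, u p * k p : ℤ) : ZMod M) + s)) := by
    intro s
    rw [← SS_shift hper (fun p => (s.val : ℤ) * c p)]
    congr 1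
    funext k
    congr 1
    have h2 : ∑ p, u p * ((k + fun p => (s.val : ℤ) * c p) p)
        = ∑ p, u p * k p + (s.val : ℤ) := by
      have h3 : ∑ p, u p * ((k + fun p => (s.val : ℤ) * c p) p)
          = ∑ p, u p * k p + (s.val : ℤ) * ∑ p, u p * c p := by
        rw [Finset.mul_sum, ← Finset.sum_add_distrib]
        apply Finset.sum_congr rfl
        intro p _
        simp only [Pi.add_apply]
        ring
      rw [h3, huc, mul_one]
    rw [h2]
    push_cast
    simp
  have h2 : (M : ℝ) * SS M (fun k => h ((∑ p, u p * k p : ℤ) : ZMod M))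
      = ∑ s : ZMod M, SS M (fun k => h (((∑ p, u p * k p : ℤ) : ZMod M) + s)) := by
    rw [← Finset.sum_congr rfl fun s _ => h1 s, Finset.sum_const, nsmul_eq_mul, Finset.card_univ,
      ZMod.card]
  rw [h2]
  unfold SS
  rw [Finset.sum_comm]
  have h3 : ∀ k : Fin r → ZMod M,
      ∑ s : ZMod M, h (((∑ p, u p * lift M k p : ℤ) : ZMod M) + s) = ∑ t : ZMod M, h t := by
    intro k
    exact Fintype.sum_equiv (Equiv.addLeft _) _ _ fun s => rfl
  simp only [h3]
  rw [Finset.sum_const, nsmul_eq_mul, Finset.card_univ, Fintype.card_fun, ZMod.card,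
    Fintype.card_fin]
  push_cast
  rfl

/-- the kernel of multiplication by a nonzero integer -/
theorem card_ker (D : ℤ) (hD : D ≠ 0) :
    (Finset.univ.filter fun x : ZMod M => (D : ZMod M) * x = 0).card ≤ D.natAbs := by
  classical
  have hM : 0 < M := Nat.pos_of_ne_zero (NeZero.ne M)
  have h1 : ∀ x : ZMod M, (D : ZMod M) * x = 0 → M ∣ D.natAbs * x.val := by
    intro x hx
    have h2 : ((D * (x.val : ℤ) : ℤ) : ZMod M) = 0 := by
      push_cast
      simpa using hx
    rw [ZMod.intCast_zmod_eq_zero_iff_dvd] at h2
    have h3 := Int.natAbs_dvd_natAbs.2 h2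
    rwa [Int.natAbs_natCast, Int.natAbs_mul, Int.natAbs_natCast] at h3
  have hD' : 0 < D.natAbs := Int.natAbs_pos.2 hD
  calc (Finset.univ.filter fun x : ZMod M => (D : ZMod M) * x = 0).card
      ≤ (Finset.range D.natAbs).card := by
        apply Finset.card_le_card_of_injOn (fun x => D.natAbs * x.val / M)
        · intro x hx
          rw [Finset.coe_range, Set.mem_Iio]
          apply Nat.div_lt_of_lt_mul
          have h2 : x.val < M := ZMod.val_lt x
          rw [mul_comm M]
          exact Nat.mul_lt_mul_of_pos_left h2 hD'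
        · intro x hx y hy hxy
          rw [Finset.mem_coe, Finset.mem_filter] at hx hy
          have h2 := Nat.div_mul_cancel (h1 x hx.2)
          have h3 := Nat.div_mul_cancel (h1 y hy.2)
          have hxy' : D.natAbs * x.val / M = D.natAbs * y.val / M := hxy
          rw [hxy'] at h2
          rw [h2] at h3
          have h4 := Nat.eq_of_mul_eq_mul_left hD' h3
          exact ZMod.val_injective M h4
    _ = D.natAbs := Finset.card_range _

/-- points with two prescribed independent characters -/
theorem card_two (u v : Fin r → ℤ) (p q : Fin r) (hD : u p * v q - u q * v p ≠ 0)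
    (a b : ZMod M) :
    M ^ 2 * (Finset.univ.filter fun k : Fin r → ZMod M =>
        ∑ i, (u i : ZMod M) * k i = a ∧ ∑ i, (v i : ZMod M) * k i = b).card
      ≤ (u p * v q - u q * v p).natAbs ^ 2 * M ^ r := by
  classical
  set D : ℤ := u p * v q - u q * v p with hDdef
  have hpq : p ≠ q := by
    rintro rfl
    apply hD
    rw [hDdef]
    ring
  set Sol : Finset (Fin r → ZMod M) := Finset.univ.filter fun k : Fin r → ZMod M =>
        ∑ i, (u i : ZMod M) * k i = a ∧ ∑ i, (v i : ZMod M) * k i = b with hSol
  let f : (Fin r → ZMod M) × (ZMod M × ZMod M) → (Fin r → ZMod M) := fun z =>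
    z.1 + Pi.single p z.2.1 + Pi.single q z.2.2
  have hcard : (Sol ×ˢ (Finset.univ : Finset (ZMod M × ZMod M))).card = M ^ 2 * Sol.card := by
    rw [Finset.card_product, Finset.card_univ, Fintype.card_prod, ZMod.card]
    ring
  have hsum : ∀ (w : Fin r → ℤ) (k : Fin r → ZMod M) (x y : ZMod M),
      ∑ i, (w i : ZMod M) * (k + Pi.single p x + Pi.single q y : Fin r → ZMod M) i
        = ∑ i, (w i : ZMod M) * k i + (w p : ZMod M) * x + (w q : ZMod M) * y := by
    intro w k x y
    have h1 : ∀ i, (w i : ZMod M) * (k + Pi.single p x + Pi.single q y : Fin r → ZMod M) i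
        = (w i : ZMod M) * k i + (w i : ZMod M) * (Pi.single p x : Fin r → ZMod M) i
          + (w i : ZMod M) * (Pi.single q y : Fin r → ZMod M) i := by
      intro i
      simp only [Pi.add_apply]
      ring
    simp only [h1, Finset.sum_add_distrib]
    congr 1
    · congr 1
      rw [Finset.sum_eq_single p]
      · simp
      · intro i _ hi
        rw [Pi.single_eq_of_ne hi, mul_zero]
      · simp
    · rw [Finset.sum_eq_single q]
      · simp
      · intro i _ hi
        rw [Pi.single_eq_of_ne hi, mul_zero]
      · simp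
  have hfib : ∀ w : Fin r → ZMod M,
      ((Sol ×ˢ (Finset.univ : Finset (ZMod M × ZMod M))).filter fun z => f z = w).card
        ≤ D.natAbs ^ 2 := by
    intro w
    rcases ((Sol ×ˢ (Finset.univ : Finset (ZMod M × ZMod M))).filter fun z => f z = w).eq_empty_or_nonempty
      with h | ⟨z0, hz0⟩
    · rw [h]
      simp
    · rw [Finset.mem_filter, Finset.mem_product, hSol, Finset.mem_filter] at hz0
      set K : Finset (ZMod M) := Finset.univ.filter fun x : ZMod M => (D : ZMod M) * x = 0 with hK
      calc ((Sol ×ˢ (Finset.univ : Finset (ZMod M × ZMod M))).filter fun z => f z = w).card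
          ≤ (K ×ˢ K).card := by
            apply Finset.card_le_card_of_injOn (fun z => (z.2.1 - z0.2.1, z.2.2 - z0.2.2))
            · intro z hz
              rw [Finset.mem_coe, Finset.mem_filter, Finset.mem_product, hSol,
                Finset.mem_filter] at hz
              have hk : z.1 + Pi.single p z.2.1 + Pi.single q z.2.2
                  = z0.1 + Pi.single p z0.2.1 + Pi.single q z0.2.2 := hz.2.trans hz0.2.symm
              have h1 := hsum u z.1 z.2.1 z.2.2
              have h2 := hsum u z0.1 z0.2.1 z0.2.2
              have h3 := hsum v z.1 z.2.1 z.2.2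
              have h4 := hsum v z0.1 z0.2.1 z0.2.2
              rw [hk, h2, hz0.1.1.2.1, hz.1.1.2.1] at h1
              rw [hk, h4, hz0.1.1.2.2, hz.1.1.2.2] at h3
              rw [Finset.mem_coe, Finset.mem_product, hK]
              simp only [Finset.mem_filter, Finset.mem_univ, true_and]
              have e1 : (u p : ZMod M) * (z.2.1 - z0.2.1) + (u q : ZMod M) * (z.2.2 - z0.2.2)
                  = 0 := by linear_combination -h1
              have e2 : (v p : ZMod M) * (z.2.1 - z0.2.1) + (v q : ZMod M) * (z.2.2 - z0.2.2)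
                  = 0 := by linear_combination -h3
              rw [hDdef]
              push_cast
              constructor
              · linear_combination (v q : ZMod M) * e1 - (u q : ZMod M) * e2
              · linear_combination (u p : ZMod M) * e2 - (v p : ZMod M) * e1
            · intro z hz z' hz' h
              rw [Finset.mem_coe, Finset.mem_filter] at hz hz'
              have h1 : z.2.1 = z'.2.1 := by
                have := congrArg Prod.fst h
                simpa using this
              have h2 : z.2.2 = z'.2.2 := by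
                have := congrArg Prod.snd h
                simpa using this
              have h3 : z.1 + Pi.single p z.2.1 + Pi.single q z.2.2
                  = z'.1 + Pi.single p z'.2.1 + Pi.single q z'.2.2 := hz.2.trans hz'.2.symm
              rw [h1, h2] at h3
              have h4 : z.1 = z'.1 := by
                have := add_right_cancel (add_right_cancel h3)
                exact this
              exact Prod.ext h4 (Prod.ext h1 h2)
        _ = K.card ^ 2 := by rw [Finset.card_product]; ring
        _ ≤ D.natAbs ^ 2 := Nat.pow_le_pow_left (card_ker D hD) 2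
  have h1 := Finset.card_le_mul_card_image_of_maps_to
    (s := Sol ×ˢ (Finset.univ : Finset (ZMod M × ZMod M))) (t := Finset.univ) (f := f)
    (fun z _ => Finset.mem_univ _) (D.natAbs ^ 2) (fun w _ => hfib w)
  rw [hcard, Finset.card_univ, Fintype.card_fun, ZMod.card, Fintype.card_fin] at h1
  exact h1

end Torus

end Pool.Agent.Helper62.LS
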