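import Pool.Agent.Helper62.LS.Class

/-!
# LS: contraction at a point, lengths
-/

namespace Pool.Agent.Helper62.LS

open Finset

/-- a functional without zeros on finitely many nonzero vectors -/
theorem generic {ι : Type} [Finite ι] {r : ℕ} (v : ι → Fin r → ℤ) (hv : ∀ i, v i ≠ 0) :
    ∃ E : Fin r → ℝ, ∀ i, ∑ p, (v i p : ℝ) * E p ≠ 0 := by
  classical
  obtain ⟨f, hf⟩ := Module.exists_dual_forall_apply_ne_zero (K := ℝ)
    (fun i p => (v i p : ℝ)) (by
      intro i h
      apply hv i
      funext p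
      have := congrFun h p
      simp only [Pi.zero_apply] at this
      exact_mod_cast this)
  refine ⟨fun p => f (fun j => if p = j then 1 else 0), fun i => ?_⟩
  have h1 := LinearMap.pi_apply_eq_sum_univ f (fun p => (v i p : ℝ))
  have h2 := hf i
  rw [h1] at h2
  exact h2

/-- flipping the signs of the rows -/
theorem MM_flip {r : ℕ} (s : Fin (r + 1) → ℝ) (hs : ∀ i, s i = 1 ∨ s i = -1)
    (x : Fin (r + 1) → ℝ) (a : Fin (r + 1) → Fin r → ℝ) :
    |(MM (fun i => s i * x i) (fun i p => s i * a i p)).det| = |(MM x a).det| := by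
  have h1 : MM (fun i => s i * x i) (fun i p => s i * a i p)
      = Matrix.of fun i j => s i * MM x a i j := by
    ext i j
    refine Fin.cases ?_ (fun j => ?_) j
    · simp [MM]
    · simp [MM]
  rw [h1, Matrix.det_mul_column, abs_mul]
  have h2 : |∏ i, s i| = 1 := by
    rw [Finset.abs_prod]
    apply Finset.prod_eq_one
    intro i _
    rcases hs i with h | h <;> rw [h] <;> norm_num
  rw [h2, one_mul]

/-- **(F)** without orientation -/
theorem F_any {ι : Type} [Fintype ι] [DecidableEq ι] {r : ℕ} (a : ι → Fin r → ℤ)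
    (hinj : Function.Injective a) (hne : ∀ i j, a i + a j ≠ 0)
    (lo up : ι → ℝ) (hlu : ∀ i, lo i ≤ up i) (T : ℝ)
    (hT : ∀ (τ : Fin (r + 1) → ι) (x : Fin (r + 1) → ℝ),
      (∀ i, x i = lo (τ i) ∨ x i = up (τ i)) →
      |(MM x (fun i p => (a (τ i) p : ℝ))).det| ≤ T)
    (hspan : ∃ τ : Fin r → ι, (Matrix.of fun j => a (τ j)).det ≠ 0) :
    ∃ g : ι → ℕ, (∀ i, 0 < g i) ∧ (∀ i p, (g i : ℤ) ∣ a i p) ∧
      ∑ i, (1 - ∑ p ∈ (g i).primeFactors, (1 : ℝ) / p) * (up i - lo i) ≤ r * T := by
  classical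
  obtain ⟨E, hE⟩ := generic a (fun i h => hne i i (by rw [h, add_zero]))
  let s : ι → ℤ := fun i => if 0 < ∑ p, (a i p : ℝ) * E p then 1 else -1
  have hs : ∀ i, s i = 1 ∨ s i = -1 := by
    intro i
    simp only [s]
    split_ifs
    · exact Or.inl rfl
    · exact Or.inr rfl
  have hss : ∀ i, s i * s i = 1 := by
    intro i
    rcases hs i with h | h <;> rw [h] <;> norm_num
  let a' : ι → Fin r → ℤ := fun i p => s i * a i p
  let lo' : ι → ℝ := fun i => if s i = 1 then lo i else -up i
  let up' : ι → ℝ := fun i => if s i = 1 then up i else -lo i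
  have hlen : ∀ i, up' i - lo' i = up i - lo i := by
    intro i
    simp only [lo', up']
    split_ifs <;> ring
  have hinj' : Function.Injective a' := by
    intro i j h
    have h1 : ∀ p, s i * a i p = s j * a j p := fun p => congrFun h p
    rcases hs i with hi | hi <;> rcases hs j with hj | hj <;> rw [hi, hj] at h1
    · apply hinj
      funext p
      have := h1 p
      linarith
    · exfalso
      apply hne i j
      funext p
      have := h1 p
      simp only [Pi.add_apply, Pi.zero_apply]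
      linarith
    · exfalso
      apply hne i j
      funext p
      have := h1 p
      simp only [Pi.add_apply, Pi.zero_apply]
      linarith
    · apply hinj
      funext p
      have := h1 p
      linarith
  have hT' : ∀ (τ : Fin (r + 1) → ι) (x : Fin (r + 1) → ℝ),
      (∀ i, x i = lo' (τ i) ∨ x i = up' (τ i)) →
      |(MM x (fun i p => (a' (τ i) p : ℝ))).det| ≤ T := by
    intro τ x hx
    have h1 : MM x (fun i p => (a' (τ i) p : ℝ))
        = MM (fun i => (s (τ i) : ℝ) * ((s (τ i) : ℝ) * x i))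
          (fun i p => (s (τ i) : ℝ) * (a (τ i) p : ℝ)) := by
      congr 1
      · funext i
        have : (s (τ i) : ℝ) * (s (τ i) : ℝ) = 1 := by exact_mod_cast hss (τ i)
        rw [← mul_assoc, this, one_mul]
      · funext i p
        simp only [a']
        push_cast
        ring
    rw [h1, MM_flip (fun i => (s (τ i) : ℝ)) (fun i => by
      rcases hs (τ i) with h | h <;> rw [h] <;> norm_num)]
    apply hT
    intro i
    have h2 := hx i
    simp only [lo', up'] at h2
    rcases hs (τ i) with h | h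
    · rw [h] at h2 ⊢
      simpa using h2
    · have h3 : ¬ ((-1 : ℤ) = 1) := by norm_num
      rw [h] at h2 ⊢
      rw [if_neg h3, if_neg h3] at h2
      push_cast
      rcases h2 with h2 | h2
      · right
        rw [h2]
        ring
      · left
        rw [h2]
        ring
  have hspan' : ∃ τ : Fin r → ι, (Matrix.of fun j => a' (τ j)).det ≠ 0 := by
    obtain ⟨τ, hτ⟩ := hspan
    refine ⟨τ, ?_⟩
    have h1 : (Matrix.of fun j => a' (τ j))
        = Matrix.of fun i j => s (τ i) * (Matrix.of fun j => a (τ j)) i j := by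
      ext i j
      simp [a']
    rw [h1, Matrix.det_mul_column]
    apply mul_ne_zero _ hτ
    rw [Finset.prod_ne_zero_iff]
    intro i _
    rcases hs (τ i) with h | h <;> rw [h] <;> norm_num
  have hE' : ∀ i, 0 < ∑ p, (a' i p : ℝ) * E p := by
    intro i
    have h1 : ∑ p, (a' i p : ℝ) * E p = (s i : ℝ) * ∑ p, (a i p : ℝ) * E p := by
      rw [Finset.mul_sum]
      apply Finset.sum_congr rfl
      intro p _
      simp only [a']
      push_cast
      ring
    rw [h1]
    by_cases h : 0 < ∑ p, (a i p : ℝ) * E p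
    · have : s i = 1 := if_pos h
      rw [this]
      simpa using h
    · have h2 : s i = -1 := if_neg h
      rw [h2]
      have h3 : ∑ p, (a i p : ℝ) * E p < 0 := lt_of_le_of_ne (not_lt.1 h) (hE i)
      push_cast
      linarith
  obtain ⟨g, hg0, hgd, hsum⟩ := F_pos a' hinj' lo' up'
    (fun i => by have := hlen i; have := hlu i; linarith) T hT' hspan' E hE'
  refine ⟨g, hg0, fun i p => ?_, ?_⟩
  · have h1 := hgd i p
    have h2 : a i p = s i * a' i p := by
      simp only [a']
      rw [← mul_assoc, hss, one_mul]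
    rw [h2]
    exact Dvd.dvd.mul_left h1 _
  · simp only [hlen] at hsum
    exact hsum

/-- contraction of the homogenised determinant -/
theorem of_contract {d : ℕ} (x0 : Fin d → ℤ) (xs : Fin d → Fin d → ℤ) :
    (Matrix.of fun i : Fin (d + 1) => (Fin.cons 1
      ((Fin.cons x0 xs : Fin (d + 1) → Fin d → ℤ) i) : Fin (d + 1) → ℤ)).det
      = (Matrix.of fun j => xs j - x0).det := by
  set B : Matrix (Fin (d + 1)) (Fin (d + 1)) ℤ := Matrix.of fun i =>
    (Fin.cases (Fin.cons 1 x0) (fun j => Fin.cons 0 (xs j - x0)) i : Fin (d + 1) → ℤ) with hB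
  have h1 : (Matrix.of fun i : Fin (d + 1) => (Fin.cons 1
      ((Fin.cons x0 xs : Fin (d + 1) → Fin d → ℤ) i) : Fin (d + 1) → ℤ)).det = B.det := by
    apply Matrix.det_eq_of_forall_row_eq_smul_add_const
      (Fin.cons 0 (fun _ => 1) : Fin (d + 1) → ℤ) 0 (Fin.cons_zero _ _)
    intro i j
    refine Fin.cases ?_ (fun i => ?_) i
    · simp [hB]
    · refine Fin.cases ?_ (fun j => ?_) j
      · simp [hB]
      · simp [hB]
  rw [h1, Matrix.det_succ_column_zero, Fin.sum_univ_succ]
  have h2 : ∑ i : Fin d, (-1 : ℤ) ^ ((i.succ : Fin (d + 1)) : ℕ) * B i.succ 0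
      * (B.submatrix i.succ.succAbove Fin.succ).det = 0 := by
    apply Finset.sum_eq_zero
    intro i _
    simp [hB]
  rw [h2, add_zero]
  simp only [Fin.val_zero, pow_zero, one_mul]
  have h3 : B 0 0 = 1 := by simp [hB]
  rw [h3, one_mul]
  congr 1

/-- a spanning family of differences -/
theorem span_contract {ι : Type} [Fintype ι] [DecidableEq ι] {d : ℕ} (x : ι → Fin d → ℤ)
    (hspan : ∃ τ : Fin (d + 1) → ι,
      (Matrix.of fun j => (Fin.cons 1 (x (τ j)) : Fin (d + 1) → ℤ)).det ≠ 0) (i0 : ι) :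
    ∃ τ : Fin d → {i // i ≠ i0}, (Matrix.of fun j => x (τ j).1 - x i0).det ≠ 0 := by
  obtain ⟨τ, hτinj, hτ, hcov⟩ := complete (hp x) hspan {i0} (by
    rw [Finset.coe_singleton, linearIndepOn_singleton_iff]
    intro h0
    have h1 := congrFun h0 0
    simp [hp] at h1)
  obtain ⟨l0, hl0⟩ := hcov i0 (Finset.mem_singleton_self i0)
  set σ : Equiv.Perm (Fin (d + 1)) := Equiv.swap 0 l0 with hσ
  have h0 : τ (σ 0) = i0 := by
    rw [hσ, Equiv.swap_apply_left, hl0]
  have hne : ∀ j : Fin d, τ (σ j.succ) ≠ i0 := by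
    intro j h
    rw [← h0] at h
    exact Fin.succ_ne_zero j (σ.injective (hτinj h))
  refine ⟨fun j => ⟨τ (σ j.succ), hne j⟩, ?_⟩
  have h1 := of_contract (x i0) (fun j => x (τ (σ j.succ)))
  have h2 : (Matrix.of fun i : Fin (d + 1) => (Fin.cons 1
      ((Fin.cons (x i0) (fun j => x (τ (σ j.succ))) : Fin (d + 1) → Fin d → ℤ) i) :
        Fin (d + 1) → ℤ))
      = (Matrix.of fun j => hp x (τ j)).submatrix σ id := by
    ext i j
    refine Fin.cases ?_ (fun i => ?_) i
    · simp only [Matrix.submatrix_apply, Matrix.of_apply, Fin.cons_zero, id]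
      rw [h0]
      rfl
    · rfl
  rw [h2, Matrix.det_permute] at h1
  rw [← h1]
  apply mul_ne_zero _ hτ
  rcases Int.units_eq_one_or (Equiv.Perm.sign σ) with h | h <;> rw [h] <;> simp

/-- **contraction** -/
theorem contract_bound {ι : Type} [Fintype ι] [DecidableEq ι] {d : ℕ} (x : ι → Fin d → ℤ)
    (hinj : Function.Injective x) (lo up : ι → ℝ) (hlu : ∀ i, lo i ≤ up i) (T : ℝ)
    (hT : ∀ (τ : Fin (d + 2) → ι) (h : Fin (d + 2) → ℝ),
      (∀ i, h i = lo (τ i) ∨ h i = up (τ i)) →
      |(MM h (fun i => (Fin.cons 1 (fun p => (x (τ i) p : ℝ)) : Fin (d + 1) → ℝ))).det| ≤ T)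
    (hspan : ∃ τ : Fin (d + 1) → ι,
      (Matrix.of fun j => (Fin.cons 1 (x (τ j)) : Fin (d + 1) → ℤ)).det ≠ 0) (i0 : ι)
    (hmid : ∀ i j, i ≠ i0 → j ≠ i0 → (x i - x i0) + (x j - x i0) ≠ 0) :
    ∃ g : ι → ℕ, (∀ i, 0 < g i) ∧ (∀ i, i ≠ i0 → ∀ p, (g i : ℤ) ∣ x i p - x i0 p) ∧
      ∑ i ∈ Finset.univ.erase i0,
        (1 - ∑ p ∈ (g i).primeFactors, (1 : ℝ) / p) * (up i - lo i) ≤ d * T := by
  classical
  set h0 := up i0 with hh0
  let ι' : Type := {i // i ≠ i0}
  let a' : ι' → Fin d → ℤ := fun i => x i.1 - x i0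
  have ha'inj : Function.Injective a' := by
    intro i j h
    apply Subtype.ext
    apply hinj
    exact sub_left_injective h
  obtain ⟨g, hg0, hgd, hsum⟩ := F_any a' ha'inj
    (fun i j => hmid i.1 j.1 i.2 j.2) (fun i => lo i.1 - h0) (fun i => up i.1 - h0)
    (fun i => by have := hlu i.1; linarith) T
    (by
      intro τ h hh
      have h1 := MM_contract h0 (fun i => h i + h0) (fun p => (x i0 p : ℝ))
        (fun i p => (x (τ i).1 p : ℝ))
      have h2 : (fun i => h i + h0 - h0) = h := by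
        funext i
        ring
      have h3 : (fun i : Fin (d + 1) => (fun p => (x (τ i).1 p : ℝ)) - fun p => (x i0 p : ℝ))
          = fun i p => (a' (τ i) p : ℝ) := by
        funext i p
        simp [a']
      rw [h2] at h1
      simp only [h3] at h1
      rw [← h1]
      have h4 := hT (Fin.cons i0 (fun i => (τ i).1)) (Fin.cons h0 (fun i => h i + h0))
        (by
          intro i
          refine Fin.cases ?_ (fun i => ?_) i
          · right
            rfl
          · simp only [Fin.cons_succ]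
            rcases hh i with h | h
            · left
              rw [h]
              ring
            · right
              rw [h]
              ring)
      refine le_trans (le_of_eq ?_) h4
      congr 3
      funext i
      refine Fin.cases ?_ (fun i => ?_) i
      · rfl
      · rfl)
    (span_contract x hspan i0)
  refine ⟨fun i => if h : i ≠ i0 then g ⟨i, h⟩ else 1, ?_, ?_, ?_⟩
  · intro i
    show 0 < (if h : i ≠ i0 then g ⟨i, h⟩ else 1)
    split_ifs with h
    · exact hg0 _
    · exact one_pos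
  · intro i hi p
    show (((if h : i ≠ i0 then g ⟨i, h⟩ else 1 : ℕ)) : ℤ) ∣ _
    rw [dif_pos hi]
    exact hgd ⟨i, hi⟩ p
  · refine le_trans (le_of_eq ?_) hsum
    symm
    have h1 : ∑ i : ι', (1 - ∑ p ∈ (g i).primeFactors, (1 : ℝ) / p)
          * ((up i.1 - h0) - (lo i.1 - h0))
        = ∑ i : ι', (fun i : ι => (1 - ∑ p ∈ ((if h : i ≠ i0 then g ⟨i, h⟩ else 1) : ℕ).primeFactors,
            (1 : ℝ) / p) * (up i - lo i)) i.1 := by
      apply Finset.sum_congr rfl
      intro i _
      show _ = (1 - ∑ p ∈ ((if h : i.1 ≠ i0 then g ⟨i.1, h⟩ else 1) : ℕ).primeFactors,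
            (1 : ℝ) / p) * (up i.1 - lo i.1)
      rw [dif_pos i.2]
      ring
    rw [h1]
    have h2 : (Finset.univ.erase i0 : Finset ι) = Finset.univ.filter (fun i => i ≠ i0) := by
      ext i
      simp
    rw [h2]
    exact (Finset.sum_subtype (p := fun i => i ≠ i0) (Finset.univ.filter (fun i => i ≠ i0))
      (by intro i; simp) (fun i : ι => (1 - ∑ p ∈ ((if h : i ≠ i0 then g ⟨i, h⟩ else 1) : ℕ).primeFactors,
            (1 : ℝ) / p) * (up i - lo i))).symm

/-- length times determinant -/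
theorem len_det {ι : Type} {r : ℕ} (a : ι → Fin r → ℤ) (lo up : ι → ℝ) (T : ℝ)
    (hlu : ∀ i, lo i ≤ up i)
    (hT : ∀ (τ : Fin (r + 1) → ι) (x : Fin (r + 1) → ℝ),
      (∀ i, x i = lo (τ i) ∨ x i = up (τ i)) →
      |(MM x (fun i p => (a (τ i) p : ℝ))).det| ≤ T)
    (τ : Fin r → ι) (l0 : Fin r) :
    (up (τ l0) - lo (τ l0)) * |(((Matrix.of fun j => a (τ j)).det : ℤ) : ℝ)| ≤ T := by
  set f : Fin (r + 1) → ι := Fin.cons (τ l0) τ with hf
  have h1 := hT f (Fin.cons (up (τ l0)) (fun j => lo (τ j))) (by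
    intro i
    refine Fin.cases ?_ (fun i => ?_) i
    · right
      rfl
    · left
      rfl)
  have h2 : (MM (Fin.cons (lo (τ l0)) (fun j => lo (τ j)) : Fin (r + 1) → ℝ)
      (fun i p => (a (f i) p : ℝ))).det = 0 := by
    apply Matrix.det_zero_of_row_eq (i := 0) (j := l0.succ) (Fin.succ_ne_zero l0).symm
    funext j
    refine Fin.cases ?_ (fun j => ?_) j
    · simp [MM]
    · simp [MM, hf]
  have h3 : (MM (Fin.cons (up (τ l0)) (fun j => lo (τ j)) : Fin (r + 1) → ℝ)
      (fun i p => (a (f i) p : ℝ))).det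
      - (MM (Fin.cons (lo (τ l0)) (fun j => lo (τ j)) : Fin (r + 1) → ℝ)
      (fun i p => (a (f i) p : ℝ))).det
      = (up (τ l0) - lo (τ l0)) * (((Matrix.of fun j => a (τ j)).det : ℤ) : ℝ) := by
    rw [MM_expand, MM_expand, Fin.sum_univ_succ, Fin.sum_univ_succ]
    have h4 : (Matrix.of fun j : Fin r => (fun p => (a (f ((0 : Fin (r + 1)).succAbove j)) p : ℝ))).det
        = (((Matrix.of fun j => a (τ j)).det : ℤ) : ℝ) := by
      rw [of_cast]
      congr 1
    simp only [Fin.cons_zero, Fin.cons_succ, Fin.val_zero, pow_zero, one_mul]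
    rw [h4]
    ring
  rw [h2, sub_zero] at h3
  rw [h3, abs_mul, abs_of_nonneg (sub_nonneg.2 (hlu _))] at h1
  exact h1

/-- two congruent rows -/
theorem of_dvd_pair {n : ℕ} (N : Matrix (Fin n) (Fin n) ℤ) (l1 l2 : Fin n) (h12 : l1 ≠ l2) (p : ℕ)
    (h : ∀ q, (p : ℤ) ∣ N l1 q - N l2 q) : (p : ℤ) ∣ N.det := by
  rw [← ZMod.intCast_zmod_eq_zero_iff_dvd]
  have h1 : ((N.det : ℤ) : ZMod p) = (N.map (Int.castRingHom (ZMod p))).det := by
    rw [← RingHom.mapMatrix_apply, ← RingHom.map_det]
    rfl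
  rw [h1]
  apply Matrix.det_zero_of_row_eq h12
  funext q
  simp only [Matrix.map_apply]
  have h2 := h q
  have h3 : (((N l1 q - N l2 q : ℤ)) : ZMod p) = 0 := (ZMod.intCast_zmod_eq_zero_iff_dvd _ _).2 h2
  push_cast at h3
  exact sub_eq_zero.1 h3

end Pool.Agent.Helper62.LS
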