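import Mathlib

/-!
# LS: determinants and dependencies
-/

namespace Pool.Agent.Helper62.LS

open Finset

/-- the matrix with rows `(x i, a i)` -/
def MM {R : Type} [CommRing R] {r : ℕ} (x : Fin (r + 1) → R) (a : Fin (r + 1) → Fin r → R) :
    Matrix (Fin (r + 1)) (Fin (r + 1)) R :=
  Matrix.of fun i => (Fin.cons (x i) (a i) : Fin (r + 1) → R)

theorem MM_expand {R : Type} [CommRing R] {r : ℕ} (x : Fin (r + 1) → R)
    (a : Fin (r + 1) → Fin r → R) :
    (MM x a).det = ∑ i : Fin (r + 1), (-1) ^ (i : ℕ) * x i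
      * (Matrix.of fun j : Fin r => a (i.succAbove j)).det := by
  rw [Matrix.det_succ_column_zero]
  refine Finset.sum_congr rfl fun i _ => ?_
  congr 2

/-- subtracting a combination of the other columns from the first one -/
theorem MM_sub {r : ℕ} (x : Fin (r + 1) → ℝ) (a : Fin (r + 1) → Fin r → ℝ) (y : Fin r → ℝ) :
    (MM (fun i => x i - ∑ p, a i p * y p) a).det = (MM x a).det := by
  have h := Matrix.det_updateCol_sum (MM x a) 0 (Fin.cons 1 (fun p => -y p))
  rw [Fin.cons_zero, one_smul] at h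
  rw [← h]
  congr 1
  ext i j
  refine Fin.cases ?_ (fun j => ?_) j
  · rw [Matrix.updateCol_self]
    simp only [MM, Matrix.of_apply, Fin.cons_zero, Fin.sum_univ_succ, Fin.cons_succ, smul_eq_mul,
      one_mul]
    rw [sub_eq_add_neg, ← Finset.sum_neg_distrib]
    congr 1
    exact Finset.sum_congr rfl fun p _ => by ring
  · rw [Matrix.updateCol_ne (Fin.succ_ne_zero j)]
    simp [MM]

/-- the determinant with a first column is a multiple of the dependency of the rows -/
theorem dep {r : ℕ} (a : Fin (r + 1) → Fin r → ℝ) (β : Fin (r + 1) → ℝ)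
    (hβ : ∀ p, ∑ i, β i * a i p = 0)
    (hD : (Matrix.of fun j : Fin r => a j.succ).det ≠ 0) (x : Fin (r + 1) → ℝ) :
    β 0 * (MM x a).det = (Matrix.of fun j : Fin r => a j.succ).det * ∑ i, β i * x i := by
  set A : Matrix (Fin r) (Fin r) ℝ := Matrix.of fun j : Fin r => a j.succ with hA
  -- solve for y
  obtain ⟨y, hy⟩ : ∃ y : Fin r → ℝ, ∀ j : Fin r, ∑ p, a j.succ p * y p = x j.succ := by
    refine ⟨A⁻¹.mulVec fun j => x j.succ, fun j => ?_⟩
    have h1 : A.mulVec (A⁻¹.mulVec fun j => x j.succ) = fun j => x j.succ := by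
      rw [Matrix.mulVec_mulVec, Matrix.mul_nonsing_inv _ (isUnit_iff_ne_zero.2 hD),
        Matrix.one_mulVec]
    exact congrFun h1 j
  have h1 : (MM x a).det = (x 0 - ∑ p, a 0 p * y p) * A.det := by
    rw [← MM_sub x a y, MM_expand, Fin.sum_univ_succ]
    have h2 : ∑ i : Fin r, (-1 : ℝ) ^ ((i.succ : Fin (r + 1)) : ℕ)
        * (x i.succ - ∑ p, a i.succ p * y p)
        * (Matrix.of fun j : Fin r => a (i.succ.succAbove j)).det = 0 := by
      apply Finset.sum_eq_zero
      intro i _
      rw [hy i, sub_self, mul_zero, zero_mul]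
    rw [h2, add_zero]
    simp [hA, Fin.succAbove_zero]
  have h3 : ∑ i, β i * x i = β 0 * (x 0 - ∑ p, a 0 p * y p) := by
    have h4 : ∑ i, β i * ∑ p, a i p * y p = 0 := by
      simp only [Finset.mul_sum]
      rw [Finset.sum_comm]
      apply Finset.sum_eq_zero
      intro p _
      have h5 := hβ p
      have h6 : ∑ i, β i * (a i p * y p) = (∑ i, β i * a i p) * y p := by
        rw [Finset.sum_mul]
        exact Finset.sum_congr rfl fun i _ => by ring
      rw [h6, h5, zero_mul]
    have h5 : ∑ i, β i * x i = ∑ i, β i * (x i - ∑ p, a i p * y p) := by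
      simp only [mul_sub, Finset.sum_sub_distrib]
      rw [h4, sub_zero]
    rw [h5, Fin.sum_univ_succ]
    have h6 : ∑ i : Fin r, β i.succ * (x i.succ - ∑ p, a i.succ p * y p) = 0 := by
      apply Finset.sum_eq_zero
      intro i _
      rw [hy i, sub_self, mul_zero]
    rw [h6, add_zero]
  rw [h1, h3]
  ring

end Pool.Agent.Helper62.LS
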