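import Pool.Agent.Helper62.LS.Lay

/-!
# LS (block E, helper16): numerical estimates
-/

namespace Pool.Agent.Helper62.LS

open Finset

theorem one_sub_sum_le_prod {α : Type*} (s : Finset α) (a : α → ℝ) (h0 : ∀ i ∈ s, 0 ≤ a i)
    (h1 : ∀ i ∈ s, a i ≤ 1) : 1 - ∑ i ∈ s, a i ≤ ∏ i ∈ s, (1 - a i) ∧ ∏ i ∈ s, (1 - a i) ≤ 1 ∧
      0 ≤ ∏ i ∈ s, (1 - a i) := by
  classical
  induction s using Finset.induction_on with
  | empty => simp
  | insert i s hi ih =>
    obtain ⟨h2, h3, h4⟩ := ih (fun j hj => h0 j (Finset.mem_insert_of_mem hj))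
      (fun j hj => h1 j (Finset.mem_insert_of_mem hj))
    have h5 := h0 i (Finset.mem_insert_self i s)
    have h6 := h1 i (Finset.mem_insert_self i s)
    rw [Finset.sum_insert hi, Finset.prod_insert hi]
    refine ⟨?_, ?_, ?_⟩
    · nlinarith
    · nlinarith
    · exact mul_nonneg (by linarith) h4

theorem own_ge (S : Finset ℕ) (hS : ∀ g ∈ S, 0 < g) (g : ℕ) (hg : 0 < g) :
    1 - (own S g : ℝ) / g ≤ ∑ p ∈ g.primeFactors, (1 : ℝ) / p := by
  classical
  have hgR : (0 : ℝ) < g := by exact_mod_cast hg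
  have h1 : g.totient ≤ own S g := by
    unfold own
    rw [Nat.totient_eq_card_coprime]
    apply Finset.card_le_card
    intro a ha
    rw [Finset.mem_filter] at ha ⊢
    refine ⟨ha.1, fun g' hg' hlt hdvd => ?_⟩
    have h2 : g ∣ g' := (Nat.Coprime.dvd_mul_right ha.2).1 hdvd
    exact absurd (Nat.le_of_dvd (hS g' hg') h2) (not_le.2 hlt)
  have h2 : (g.totient : ℝ) = g * ∏ p ∈ g.primeFactors, (1 - 1 / (p : ℝ)) := by
    have h3 := Nat.totient_eq_mul_prod_factors g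
    have h4 : ((g.totient : ℚ) : ℝ) = ((g * ∏ p ∈ g.primeFactors, (1 - (p : ℚ)⁻¹) : ℚ) : ℝ) := by
      rw [h3]
    push_cast at h4
    simpa [one_div] using h4
  have h3 : (g.totient : ℝ) / g = ∏ p ∈ g.primeFactors, (1 - 1 / (p : ℝ)) := by
    rw [h2]
    field_simp
  have h4 : (g.totient : ℝ) / g ≤ (own S g : ℝ) / g := by
    have : (g.totient : ℝ) ≤ own S g := by exact_mod_cast h1
    gcongr
  obtain ⟨h5, _, _⟩ := one_sub_sum_le_prod g.primeFactors (fun p => 1 / (p : ℝ))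
    (fun p _ => by positivity)
    (fun p hp => by
      have h6 : 1 ≤ p := (Nat.prime_of_mem_primeFactors hp).one_lt.le
      have h7 : (1 : ℝ) ≤ p := by exact_mod_cast h6
      rw [div_le_one (by linarith)]
      exact h7)
  linarith

theorem sum_odd (N : ℕ) : ∑ k ∈ Finset.range N, (1 : ℝ) / (2 * (k : ℝ) + 5) ^ 2
    ≤ 1 / 8 - 1 / (4 * ((N : ℝ) + 2)) := by
  induction N with
  | zero => norm_num
  | succ N ih =>
    rw [Finset.sum_range_succ]
    have hN : (0 : ℝ) ≤ N := Nat.cast_nonneg N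
    have h1 : (1 : ℝ) / (2 * (N : ℝ) + 5) ^ 2 ≤ 1 / (4 * ((N : ℝ) + 2)) - 1 / (4 * ((N : ℝ) + 3)) := by
      have h2 : (1 : ℝ) / (4 * ((N : ℝ) + 2)) - 1 / (4 * ((N : ℝ) + 3))
          = 1 / (4 * ((N : ℝ) + 2) * ((N : ℝ) + 3)) := by
        field_simp
        ring
      rw [h2]
      apply one_div_le_one_div_of_le (by positivity)
      nlinarith
    push_cast
    have h3 : (N : ℝ) + 1 + 2 = N + 3 := by ring
    rw [h3]
    linarith

theorem sum_primes (P : Finset ℕ) (hP : ∀ p ∈ P, p.Prime) :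
    ∑ p ∈ P, (1 : ℝ) / (p : ℝ) ^ 2 ≤ 35 / 72 := by
  classical
  set N := P.sup id with hN
  set Q : Finset ℕ := insert 2 (insert 3 ((Finset.range N).image fun k => 2 * k + 5)) with hQ
  have hPQ : P ⊆ Q := by
    intro p hp
    rw [hQ, Finset.mem_insert, Finset.mem_insert, Finset.mem_image]
    have h1 := hP p hp
    have h2 := h1.two_le
    rcases h1.eq_two_or_odd with h3 | h3
    · exact Or.inl h3
    · right
      by_cases h4 : p = 3
      · exact Or.inl h4
      · right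
        refine ⟨(p - 5) / 2, ?_, ?_⟩
        · rw [Finset.mem_range]
          have h5 : p ≤ N := Finset.le_sup (f := id) hp
          omega
        · omega
  have h1 : ∑ p ∈ P, (1 : ℝ) / (p : ℝ) ^ 2 ≤ ∑ p ∈ Q, (1 : ℝ) / (p : ℝ) ^ 2 :=
    Finset.sum_le_sum_of_subset_of_nonneg hPQ (fun _ _ _ => by positivity)
  have h2 : ∑ p ∈ Q, (1 : ℝ) / (p : ℝ) ^ 2
      = 1 / 4 + (1 / 9 + ∑ k ∈ Finset.range N, (1 : ℝ) / (2 * (k : ℝ) + 5) ^ 2) := by
    rw [hQ, Finset.sum_insert, Finset.sum_insert, Finset.sum_image]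
    · push_cast
      norm_num
    · intro a _ b _ hab
      simp only at hab
      omega
    · rw [Finset.mem_image]
      rintro ⟨k, _, hk⟩
      omega
    · rw [Finset.mem_insert, Finset.mem_image]
      rintro (h | ⟨k, _, hk⟩)
      · omega
      · omega
  have h3 := sum_odd N
  have h4 : (0 : ℝ) ≤ 1 / (4 * ((N : ℝ) + 2)) := by positivity
  rw [h2] at h1
  linarith

theorem number_bound (P : Finset ℕ) (hP : ∀ p ∈ P, p.Prime) (ℓ T : ℝ) (hℓ : 0 ≤ ℓ)
    (hT : ℓ ≤ T / 2) :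
    ℓ + ∑ p ∈ P, 1 / (p : ℝ) * (2 * T / p - ℓ) ≤ 35 / 36 * T := by
  classical
  have hT0 : 0 ≤ T := by linarith
  have h1 : ∑ p ∈ P, 1 / (p : ℝ) * (2 * T / p - ℓ)
      = 2 * T * (∑ p ∈ P, (1 : ℝ) / (p : ℝ) ^ 2) - ℓ * ∑ p ∈ P, 1 / (p : ℝ) := by
    rw [Finset.mul_sum, Finset.mul_sum, ← Finset.sum_sub_distrib]
    apply Finset.sum_congr rfl
    intro p hp
    have hp0 : (p : ℝ) ≠ 0 := by exact_mod_cast (hP p hp).ne_zero
    field_simp
  rw [h1]
  have h2 := sum_primes P hP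
  by_cases h3 : 1 ≤ ∑ p ∈ P, 1 / (p : ℝ)
  · nlinarith
  · push Not at h3
    have h4 : ∑ p ∈ P, (2 / (p : ℝ) ^ 2 - 1 / (2 * (p : ℝ))) ≤ 11 / 36 := by
      have h5 : ∀ p ∈ P, 2 / (p : ℝ) ^ 2 - 1 / (2 * (p : ℝ))
          ≤ (if p = 2 then (1 / 4 : ℝ) else 0) + (if p = 3 then (1 / 18 : ℝ) else 0) := by
        intro p hp
        have h6 := hP p hp
        by_cases h7 : p = 2
        · subst h7; norm_num
        · by_cases h8 : p = 3
          · subst h8; norm_num
          · rw [if_neg h7, if_neg h8, add_zero]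
            have h9 : 4 ≤ p := by
              have := h6.two_le
              omega
            have h10 : (4 : ℝ) ≤ p := by exact_mod_cast h9
            have h11 : 2 / (p : ℝ) ^ 2 - 1 / (2 * (p : ℝ)) = (4 - p) / (2 * (p : ℝ) ^ 2) := by
              field_simp
              ring
            rw [h11]
            apply div_nonpos_of_nonpos_of_nonneg
            · linarith
            · positivity
      have h12 : ∀ (a : ℕ) (c : ℝ), 0 ≤ c → ∑ p ∈ P, (if p = a then c else 0) ≤ c := by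
        intro a c hc
        rw [Finset.sum_ite_eq']
        split_ifs
        · exact le_rfl
        · exact hc
      calc ∑ p ∈ P, (2 / (p : ℝ) ^ 2 - 1 / (2 * (p : ℝ)))
          ≤ ∑ p ∈ P, ((if p = 2 then (1 / 4 : ℝ) else 0) + (if p = 3 then (1 / 18 : ℝ) else 0)) :=
            Finset.sum_le_sum h5
        _ = ∑ p ∈ P, (if p = 2 then (1 / 4 : ℝ) else 0)
            + ∑ p ∈ P, (if p = 3 then (1 / 18 : ℝ) else 0) := Finset.sum_add_distrib
        _ ≤ 1 / 4 + 1 / 18 := add_le_add (h12 2 _ (by norm_num)) (h12 3 _ (by norm_num))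
        _ = 11 / 36 := by norm_num
    have h5 : ∑ p ∈ P, (2 / (p : ℝ) ^ 2 - 1 / (2 * (p : ℝ)))
        = 2 * (∑ p ∈ P, (1 : ℝ) / (p : ℝ) ^ 2) - 1 / 2 * ∑ p ∈ P, 1 / (p : ℝ) := by
      rw [Finset.mul_sum, Finset.mul_sum, ← Finset.sum_sub_distrib]
      apply Finset.sum_congr rfl
      intro p hp
      have hp0 : (p : ℝ) ≠ 0 := by exact_mod_cast (hP p hp).ne_zero
      field_simp
    rw [h5] at h4
    have h6 : ℓ * (1 - ∑ p ∈ P, 1 / (p : ℝ)) ≤ T / 2 * (1 - ∑ p ∈ P, 1 / (p : ℝ)) :=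
      mul_le_mul_of_nonneg_right hT (by linarith)
    nlinarith

end Pool.Agent.Helper62.LS
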