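import Pool.Agent.Helper62.LS.Avg
import Pool.Agent.Helper62.LS.App
import Pool.Agent.Helper62.LS.Num

/-!
# LS: the bound for families of vectors
-/

namespace Pool.Agent.Helper62.LS

open Finset

/-- enlarging an independent set inside a set -/
theorem extend_in {ι : Type} [Fintype ι] {r : ℕ} (a : ι → Fin r → ℤ) (s t : Finset ι) (hst : s ⊆ t)
    (hs : LinearIndepOn ℝ (fun i p => (a i p : ℝ)) (s : Set ι)) :
    ∃ b : Finset ι, s ⊆ b ∧ b ⊆ t ∧ LinearIndepOn ℝ (fun i p => (a i p : ℝ)) (b : Set ι) ∧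
      ∀ i ∈ t, (fun p => (a i p : ℝ)) ∈
        Submodule.span ℝ ((fun i p => (a i p : ℝ)) '' (b : Set ι)) := by
  classical
  obtain ⟨b, hbt, hsb, hspan, hli⟩ := exists_linearIndepOn_extension hs
    (t := (t : Set ι)) (by exact_mod_cast hst)
  refine ⟨b.toFinset, ?_, ?_, ?_, ?_⟩
  · intro i hi
    rw [Set.mem_toFinset]
    exact hsb hi
  · intro i hi
    rw [Set.mem_toFinset] at hi
    exact hbt hi
  · rwa [Set.coe_toFinset]
  · intro i hi
    rw [Set.coe_toFinset]
    exact hspan ⟨i, hi, rfl⟩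

/-- a nonsingular choice of vectors containing a given independent set -/
theorem complete {ι : Type} [Fintype ι] {r : ℕ} (a : ι → Fin r → ℤ)
    (hspan : ∃ τ : Fin r → ι, (Matrix.of fun j => a (τ j)).det ≠ 0) (s : Finset ι)
    (hs : LinearIndepOn ℝ (fun i p => (a i p : ℝ)) (s : Set ι)) :
    ∃ τ : Fin r → ι, Function.Injective τ ∧ (Matrix.of fun j => a (τ j)).det ≠ 0 ∧
      ∀ i ∈ s, ∃ j, τ j = i := by
  classical
  obtain ⟨b, hsb, _, hli, hall⟩ := extend_in a s Finset.univ (Finset.subset_univ s) hs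
  obtain ⟨τ0, hτ0⟩ := hspan
  have hdet0 : (Matrix.of fun j => (fun p => (a (τ0 j) p : ℝ))).det ≠ 0 := by
    have h1 : (Matrix.of fun j => (fun p => (a (τ0 j) p : ℝ))).det
        = (((Matrix.of fun j => a (τ0 j)).det : ℤ) : ℝ) := by
      rw [of_cast]
    rw [h1]
    exact_mod_cast hτ0
  have hli0 : LinearIndependent ℝ (fun j => (fun p => (a (τ0 j) p : ℝ))) := by
    have h1 := (Matrix.linearIndependent_rows_iff_isUnit
      (A := (Matrix.of fun j => (fun p => (a (τ0 j) p : ℝ))))).2
      ((Matrix.isUnit_iff_isUnit_det _).2 (isUnit_iff_ne_zero.2 hdet0))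
    exact h1
  have hspan0 : Submodule.span ℝ (Set.range fun j => (fun p => (a (τ0 j) p : ℝ))) = ⊤ := by
    apply hli0.span_eq_top_of_card_eq_finrank'
    simp
  have htop : Submodule.span ℝ ((fun i p => (a i p : ℝ)) '' (b : Set ι)) = ⊤ := by
    rw [eq_top_iff, ← hspan0, Submodule.span_le]
    rintro _ ⟨j, rfl⟩
    exact hall (τ0 j) (Finset.mem_univ _)
  have hli' : LinearIndependent ℝ (fun i : (b : Set ι) => (fun p => (a i.1 p : ℝ))) := hli
  have hrange : Set.range (fun i : (b : Set ι) => (fun p => (a i.1 p : ℝ)))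
      = (fun i p => (a i p : ℝ)) '' (b : Set ι) := by
    ext v
    constructor
    · rintro ⟨i, rfl⟩
      exact ⟨i.1, i.2, rfl⟩
    · rintro ⟨i, hi, rfl⟩
      exact ⟨⟨i, hi⟩, rfl⟩
  let B := Module.Basis.mk hli' (by rw [hrange, htop])
  have hcard : Fintype.card (b : Set ι) = r := by
    have h1 := Module.finrank_eq_card_basis B
    rw [← h1]
    simp
  let e : Fin r ≃ (b : Set ι) := (Fintype.equivFinOfCardEq hcard).symm
  refine ⟨fun j => (e j).1, fun i j h => e.injective (Subtype.ext h), ?_, ?_⟩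
  · have h1 : LinearIndependent ℝ (fun j : Fin r => (fun p => (a (e j).1 p : ℝ))) :=
      hli'.comp e e.injective
    have h2 := (Matrix.linearIndependent_rows_iff_isUnit
      (A := (Matrix.of fun j => (fun p => (a (e j).1 p : ℝ))))).1 h1
    have h3 := isUnit_iff_ne_zero.1 ((Matrix.isUnit_iff_isUnit_det _).1 h2)
    intro h4
    apply h3
    have h5 : (Matrix.of fun j => (fun p => (a (e j).1 p : ℝ))).det
        = (((Matrix.of fun j => a (e j).1).det : ℤ) : ℝ) := by
      rw [of_cast]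
    rw [h5, h4]
    norm_num
  · intro i hi
    exact ⟨e.symm ⟨i, hsb hi⟩, by simp⟩

/-- the content of an integer vector -/
theorem prim {r : ℕ} (v : Fin r → ℤ) (hv : v ≠ 0) :
    ∃ (g : ℕ) (u c : Fin r → ℤ), 0 < g ∧ (∀ p, v p = g * u p) ∧ dt u c = 1 := by
  classical
  let I : Ideal ℤ := Ideal.span (Set.range v)
  obtain ⟨g, hg⟩ : ∃ g, I = Ideal.span {g} :=
    ⟨Submodule.IsPrincipal.generator I, (Ideal.span_singleton_generator I).symm⟩
  have hdvd : ∀ p, g ∣ v p := by
    intro p
    rw [← Ideal.mem_span_singleton, ← hg]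
    exact Ideal.subset_span ⟨p, rfl⟩
  have hg0 : g ≠ 0 := by
    rintro rfl
    apply hv
    funext p
    exact zero_dvd_iff.1 (hdvd p)
  have hgI : g ∈ Submodule.span ℤ (Set.range v) := by
    have h1 : g ∈ I := by
      rw [hg]
      exact Ideal.mem_span_singleton_self g
    exact h1
  rw [Submodule.mem_span_range_iff_exists_fun] at hgI
  obtain ⟨c, hc⟩ := hgI
  choose u hu using hdvd
  have h1 : g * ∑ p, c p * u p = g * 1 := by
    rw [mul_one, Finset.mul_sum]
    nth_rewrite 2 [← hc]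
    apply Finset.sum_congr rfl
    intro p _
    rw [smul_eq_mul, hu p]
    ring
  have h2 : ∑ p, c p * u p = 1 := mul_left_cancel₀ hg0 h1
  refine ⟨g.natAbs, fun p => g.sign * u p, fun p => g.sign * c p, Int.natAbs_pos.2 hg0, ?_, ?_⟩
  · intro p
    rw [hu p]
    have h3 : (g.natAbs : ℤ) * (g.sign * u p) = (g.sign * g.natAbs) * u p := by ring
    rw [h3, Int.sign_mul_natAbs]
  · unfold dt
    have h3 : ∀ p, g.sign * u p * (g.sign * c p) = (g.sign * g.sign) * (c p * u p) := fun p => by ring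
    simp only [h3]
    rw [← Finset.mul_sum, h2, mul_one]
    rcases lt_or_gt_of_ne hg0 with h | h
    · rw [Int.sign_eq_neg_one_of_neg h]
      norm_num
    · rw [Int.sign_eq_one_of_pos h]
      norm_num

/-- **(F)** from feasibility of all floor systems -/
theorem F_feas {ι : Type} [Fintype ι] [DecidableEq ι] {r : ℕ} (a : ι → Fin r → ℤ)
    (hinj : Function.Injective a) (lo up : ι → ℝ) (hlu : ∀ i, lo i ≤ up i) (T : ℝ)
    (hspan : ∃ τ : Fin r → ι, (Matrix.of fun j => a (τ j)).det ≠ 0)
    (E : Fin r → ℝ) (hE : ∀ i, 0 < ∑ p, (a i p : ℝ) * E p)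
    (hfeas : ∀ M : ℕ, 0 < M → ∀ k : Fin r → ℤ, ∃ y : Fin r → ℝ, ∀ i,
      T * (((∑ p, a i p * k p) / (M : ℤ) : ℤ) : ℝ) - lo i ≤ ∑ p, (a i p : ℝ) * y p ∧
      ∑ p, (a i p : ℝ) * y p ≤ T * (((∑ p, a i p * k p) / (M : ℤ) : ℤ) : ℝ) + T - up i) :
    ∃ g : ι → ℕ, (∀ i, 0 < g i) ∧ (∀ i p, (g i : ℤ) ∣ a i p) ∧
      ∑ i, (1 - ∑ p ∈ (g i).primeFactors, (1 : ℝ) / p) * (up i - lo i) ≤ r * T := by
  classical
  have ha0 : ∀ i, a i ≠ 0 := by
    intro i h
    have h1 := hE i
    rw [h] at h1
    simp at h1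
  choose g u c hg0 hau huc using fun i => prim (a i) (ha0 i)
  let Kf : Finset (Fin r → ℤ) := Finset.univ.image u
  let κ : Type := {w // w ∈ Kf}
  have huK : ∀ i, u i ∈ Kf := fun i => Finset.mem_image_of_mem u (Finset.mem_univ i)
  let uK : ι → κ := fun i => ⟨u i, huK i⟩
  have hrep : ∀ w : κ, ∃ i, uK i = w := by
    intro w
    obtain ⟨i, _, hi⟩ := Finset.mem_image.1 w.2
    exact ⟨i, Subtype.ext hi⟩
  choose rep hrep' using hrep
  let G : κ → Finset ℕ := fun w => (Finset.univ.filter fun i => uK i = w).image g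
  have hgG : ∀ i, g i ∈ G (uK i) := fun i =>
    Finset.mem_image.2 ⟨i, Finset.mem_filter.2 ⟨Finset.mem_univ i, rfl⟩, rfl⟩
  have hGex : ∀ w, ∀ n ∈ G w, ∃ i, uK i = w ∧ g i = n := by
    intro w n hn
    obtain ⟨i, hi, hin⟩ := Finset.mem_image.1 hn
    exact ⟨i, (Finset.mem_filter.1 hi).2, hin⟩
  have huniq : ∀ i j, uK i = uK j → g i = g j → i = j := by
    intro i j h1 h2
    apply hinj
    funext p
    rw [hau i p, hau j p, h2]
    have : u i = u j := congrArg Subtype.val h1
    rw [this]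
  let loK : κ → ℕ → ℝ := fun w n => if h : ∃ i, uK i = w ∧ g i = n then lo h.choose else 0
  let upK : κ → ℕ → ℝ := fun w n => if h : ∃ i, uK i = w ∧ g i = n then up h.choose else 0
  have hloK : ∀ i, loK (uK i) (g i) = lo i := by
    intro i
    have h : ∃ j, uK j = uK i ∧ g j = g i := ⟨i, rfl, rfl⟩
    have h1 : loK (uK i) (g i) = lo h.choose := dif_pos h
    rw [h1, huniq _ _ h.choose_spec.1 h.choose_spec.2]
  have hupK : ∀ i, upK (uK i) (g i) = up i := by
    intro i
    have h : ∃ j, uK j = uK i ∧ g j = g i := ⟨i, rfl, rfl⟩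
    have h1 : upK (uK i) (g i) = up h.choose := dif_pos h
    rw [h1, huniq _ _ h.choose_spec.1 h.choose_spec.2]
  have hEu : ∀ i, 0 < ∑ p, (u i p : ℝ) * E p := by
    intro i
    have h1 := hE i
    have h2 : ∑ p, (a i p : ℝ) * E p = (g i : ℝ) * ∑ p, (u i p : ℝ) * E p := by
      rw [Finset.mul_sum]
      apply Finset.sum_congr rfl
      intro p _
      rw [hau i p]
      push_cast
      ring
    rw [h2] at h1
    exact pos_of_mul_pos_right h1 (Nat.cast_nonneg _)
  have hnp : ∀ w w' : κ, w ≠ w' → ∃ p q, w.1 p * w'.1 q - w.1 q * w'.1 p ≠ 0 := by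
    intro w w' hne
    by_contra hcon
    push Not at hcon
    apply hne
    set i := rep w with hi
    set j := rep w' with hj
    have hwi : w.1 = u i := by rw [← hrep' w]
    have hwj : w'.1 = u j := by rw [← hrep' w']
    rw [hwi, hwj] at hcon
    -- u j = lam * u i
    have key : ∀ i j : ι, (∀ p q, u i p * u j q - u i q * u j p = 0) →
        ∀ p, u j p = dt (u j) (c i) * u i p := by
      intro i j h p
      have h1 : u j p * dt (u i) (c i) = dt (u j) (c i) * u i p := by
        unfold dt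
        rw [Finset.mul_sum, Finset.sum_mul]
        apply Finset.sum_congr rfl
        intro q _
        have h2 := h p q
        linear_combination (-(c i q)) * h2
      rwa [huc i, mul_one] at h1
    have e1 := key i j hcon
    have e2 := key j i (fun p q => by have := hcon p q; linarith)
    have h3 : dt (u j) (c i) * dt (u i) (c j) = 1 := by
      have h4 : dt (u i) (c i) = dt (u i) (c j) * dt (u j) (c i) := by
        unfold dt at e2 ⊢
        rw [Finset.mul_sum]
        apply Finset.sum_congr rfl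
        intro p _
        rw [e2 p]
        ring
      rw [huc i] at h4
      linarith
    have h5 : 0 < dt (u j) (c i) := by
      have h6 : ∑ p, (u j p : ℝ) * E p = (dt (u j) (c i) : ℝ) * ∑ p, (u i p : ℝ) * E p := by
        rw [Finset.mul_sum]
        apply Finset.sum_congr rfl
        intro p _
        rw [e1 p]
        push_cast
        ring
      have h7 := hEu j
      rw [h6] at h7
      have h8 := pos_of_mul_pos_left h7 (hEu i).le
      exact_mod_cast h8
    have h6 : dt (u j) (c i) = 1 := by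
      rcases Int.eq_one_or_neg_one_of_mul_eq_one h3 with h | h
      · exact h
      · linarith
    apply Subtype.ext
    rw [hwi, hwj]
    funext p
    rw [e1 p, h6, one_mul]
  have hsumK : ∀ f : κ → ℕ → ℝ, ∑ w : κ, ∑ n ∈ G w, f w n = ∑ i, f (uK i) (g i) := by
    intro f
    rw [Finset.sum_sigma']
    symm
    apply Finset.sum_bij (fun (i : ι) _ => (⟨uK i, g i⟩ : Σ _ : κ, ℕ))
    · intro i _
      rw [Finset.mem_sigma]
      exact ⟨Finset.mem_univ _, hgG i⟩
    · intro i _ j _ h
      have h1 : uK i = uK j := congrArg Sigma.fst h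
      have h2 : g i = g j := congrArg (fun z : (Σ _ : κ, ℕ) => z.2) h
      exact huniq i j h1 h2
    · rintro ⟨w, n⟩ hx
      rw [Finset.mem_sigma] at hx
      obtain ⟨i, hi1, hi2⟩ := hGex w n hx.2
      exact ⟨i, Finset.mem_univ _, by rw [hi1, hi2]⟩
    · intro i _
      rfl
  -- left inverse
  obtain ⟨τ, hτ⟩ := hspan
  set A : Matrix (Fin r) (Fin r) ℝ := Matrix.of fun j => (fun p => (a (τ j) p : ℝ)) with hA
  have hdetA : A.det ≠ 0 := by
    have h1 : A.det = (((Matrix.of fun j => a (τ j)).det : ℤ) : ℝ) := by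
      rw [hA, of_cast]
    rw [h1]
    exact_mod_cast hτ
  let lam : Fin r → κ → ℝ := fun p w =>
    ∑ j, if uK (τ j) = w then A⁻¹ p j * (g (τ j) : ℝ) else 0
  have hlam : ∀ (y : Fin r → ℝ) p, y p = ∑ w : κ, lam p w * rd w.1 y := by
    intro y p
    have h1 : y = A⁻¹.mulVec (A.mulVec y) := by
      rw [Matrix.mulVec_mulVec, Matrix.nonsing_inv_mul _ (isUnit_iff_ne_zero.2 hdetA),
        Matrix.one_mulVec]
    have h2 : ∀ j, A.mulVec y j = (g (τ j) : ℝ) * rd (u (τ j)) y := by
      intro j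
      unfold rd
      rw [Finset.mul_sum]
      show ∑ q, A j q * y q = _
      apply Finset.sum_congr rfl
      intro q _
      rw [hA, Matrix.of_apply, hau (τ j) q]
      push_cast
      ring
    calc y p = (A⁻¹.mulVec (A.mulVec y)) p := congrFun h1 p
      _ = ∑ j, A⁻¹ p j * A.mulVec y j := rfl
      _ = ∑ j, ∑ w : κ, if uK (τ j) = w then A⁻¹ p j * (g (τ j) : ℝ) * rd w.1 y else 0 := by
          apply Finset.sum_congr rfl
          intro j _
          rw [Finset.sum_ite_eq]
          rw [if_pos (Finset.mem_univ _), h2 j]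
          ring
      _ = ∑ w : κ, lam p w * rd w.1 y := by
          rw [Finset.sum_comm]
          apply Finset.sum_congr rfl
          intro w _
          show _ = (∑ j, if uK (τ j) = w then A⁻¹ p j * (g (τ j) : ℝ) else 0) * rd w.1 y
          rw [Finset.sum_mul]
          apply Finset.sum_congr rfl
          intro j _
          split_ifs <;> ring
  have hG0 : ∀ w, ∀ n ∈ G w, 0 < n := by
    intro w n hn
    obtain ⟨i, _, hi⟩ := hGex w n hn
    rw [← hi]
    exact hg0 i
  have hmain := avg (u := fun w : κ => w.1) (c := fun w => c (rep w)) (G := G) (lo := loK)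
    (up := upK) (T := T)
    (fun w => by
      have : w.1 = u (rep w) := by
        have := hrep' w
        exact (congrArg Subtype.val this).symm
      rw [this]
      exact huc (rep w))
    hnp hG0
    (fun w => ⟨g (rep w), by have := hgG (rep w); rwa [hrep' w] at this⟩)
    (fun w n hn => by
      obtain ⟨i, hi1, hi2⟩ := hGex w n hn
      rw [← hi1, ← hi2, hloK, hupK]
      exact hlu i)
    hlam
    (by
      intro M hM k
      obtain ⟨y, hy⟩ := hfeas M hM k
      refine ⟨y, fun w n hn => ?_⟩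
      obtain ⟨i, hi1, hi2⟩ := hGex w n hn
      have h1 : ∑ p, a i p * k p = (n : ℤ) * dt w.1 k := by
        rw [← hi1, ← hi2]
        show _ = (g i : ℤ) * dt (u i) k
        unfold dt
        rw [Finset.mul_sum]
        apply Finset.sum_congr rfl
        intro p _
        rw [hau i p]
        ring
      have h2 : ∑ p, (a i p : ℝ) * y p = (n : ℝ) * rd w.1 y := by
        rw [← hi1, ← hi2]
        show _ = (g i : ℝ) * rd (u i) y
        unfold rd
        rw [Finset.mul_sum]
        apply Finset.sum_congr rfl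
        intro p _
        rw [hau i p]
        push_cast
        ring
      have h3 := hy i
      rw [h1, h2] at h3
      have h4 : loK w n = lo i := by rw [← hi1, ← hi2, hloK]
      have h5 : upK w n = up i := by rw [← hi1, ← hi2, hupK]
      rw [h4, h5]
      exact h3)
  rw [hsumK] at hmain
  refine ⟨g, hg0, fun i p => ⟨u i p, hau i p⟩, le_trans (Finset.sum_le_sum fun i _ => ?_) hmain⟩
  rw [hloK, hupK]
  apply mul_le_mul_of_nonneg_right _ (sub_nonneg.2 (hlu i))
  have := own_ge (G (uK i)) (hG0 (uK i)) (g i) (hg0 i)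
  linarith

/-- **(F)** for vectors in a half space -/
theorem F_pos {ι : Type} [Fintype ι] [DecidableEq ι] {r : ℕ} (a : ι → Fin r → ℤ)
    (hinj : Function.Injective a) (lo up : ι → ℝ) (hlu : ∀ i, lo i ≤ up i) (T : ℝ)
    (hT : ∀ (τ : Fin (r + 1) → ι) (x : Fin (r + 1) → ℝ),
      (∀ i, x i = lo (τ i) ∨ x i = up (τ i)) →
      |(MM x (fun i p => (a (τ i) p : ℝ))).det| ≤ T)
    (hspan : ∃ τ : Fin r → ι, (Matrix.of fun j => a (τ j)).det ≠ 0)
    (E : Fin r → ℝ) (hE : ∀ i, 0 < ∑ p, (a i p : ℝ) * E p) :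
    ∃ g : ι → ℕ, (∀ i, 0 < g i) ∧ (∀ i p, (g i : ℤ) ∣ a i p) ∧
      ∑ i, (1 - ∑ p ∈ (g i).primeFactors, (1 : ℝ) / p) * (up i - lo i) ≤ r * T := by
  apply F_feas a hinj lo up hlu T hspan E hE
  intro M hM k
  obtain ⟨y, hy⟩ := floor_solvable a lo up T hT Finset.univ 1 one_pos
    (fun s _ hs => by
      obtain ⟨τ, _, h1, h2⟩ := complete a hspan s hs
      exact ⟨τ, h1, h2, fun j _ x => by simp⟩)
    E (fun i _ => hE i) M hM k
  refine ⟨y, fun i => ?_⟩
  have h1 := hy i (Finset.mem_univ i)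
  simp only [Nat.cast_one, div_one] at h1
  exact h1

end Pool.Agent.Helper62.LS
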