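import Pool.Agent.Helper62.LS.BadCnt

/-!
# LS: solution fields on the discrete torus
-/

namespace Pool.Agent.Helper62.LS

open Finset

/-- real dot product -/
noncomputable def rd {r : ℕ} (u : Fin r → ℤ) (y : Fin r → ℝ) : ℝ := ∑ p, (u p : ℝ) * y p

theorem rd_add {r : ℕ} (u : Fin r → ℤ) (y y' : Fin r → ℝ) : rd u (y + y') = rd u y + rd u y' := by
  unfold rd
  rw [← Finset.sum_add_distrib]
  exact Finset.sum_congr rfl fun p _ => by simp only [Pi.add_apply]; ring

theorem rd_sub {r : ℕ} (u : Fin r → ℤ) (y y' : Fin r → ℝ) : rd u (y - y') = rd u y - rd u y' := by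
  unfold rd
  rw [← Finset.sum_sub_distrib]
  exact Finset.sum_congr rfl fun p _ => by simp only [Pi.sub_apply]; ring

theorem rd_cast {r : ℕ} (u z : Fin r → ℤ) (T : ℝ) :
    rd u (fun p => T * (z p : ℝ)) = T * ((dt u z : ℤ) : ℝ) := by
  unfold rd dt
  push_cast
  rw [Finset.mul_sum]
  exact Finset.sum_congr rfl fun p _ => by ring

theorem ediv_diff (m : ℤ) (hm : 0 < m) (a b : ℤ) : |a / m - b / m| ≤ |a - b| := by
  have key : ∀ a b : ℤ, b ≤ a → a / m - b / m ≤ a - b ∧ 0 ≤ a / m - b / m := by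
    intro a b hab
    have h1 : b / m ≤ a / m := Int.ediv_le_ediv hm hab
    have h2 : a ≤ b + m * (a - b) := by nlinarith
    have h3 : a / m ≤ (b + m * (a - b)) / m := Int.ediv_le_ediv hm h2
    rw [Int.add_mul_ediv_left b (a - b) hm.ne'] at h3
    constructor <;> linarith
  rcases le_total a b with h | h
  · obtain ⟨h1, h2⟩ := key b a h
    rw [abs_sub_comm, abs_of_nonneg h2, abs_sub_comm a b, abs_of_nonneg (by linarith)]
    exact h1
  · obtain ⟨h1, h2⟩ := key a b h
    rw [abs_of_nonneg h2, abs_of_nonneg (by linarith)]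
    exact h1

section Fld

variable {κ : Type} [Fintype κ] [DecidableEq κ] {r : ℕ} (u c : κ → Fin r → ℤ) (G : κ → Finset ℕ)
  (lo up : κ → ℕ → ℝ) (T : ℝ) (M : ℕ)

/-- a periodic field of solutions -/
structure Sol (y : (Fin r → ℤ) → Fin r → ℝ) : Prop where
  lower : ∀ k i, ∀ g ∈ G i,
    T * ((dt (u i) k / ((M / g : ℕ) : ℤ) : ℤ) : ℝ) - lo i g ≤ g * rd (u i) (y k)
  upper : ∀ k i, ∀ g ∈ G i,
    g * rd (u i) (y k) ≤ T * ((dt (u i) k / ((M / g : ℕ) : ℤ) : ℤ) : ℝ) + T - up i g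
  per : ∀ (k z : Fin r → ℤ), y (k + fun p => (M : ℤ) * z p) = y k + fun p => T * (z p : ℝ)
  same : ∀ k k', SameF u G M k k' → y k = y k'

variable {u c G lo up T M}

theorem exists_sol (hM : 0 < M) (hGM : ∀ i, ∀ g ∈ G i, g ∣ M) (hG0 : ∀ i, ∀ g ∈ G i, 0 < g)
    (hne : ∀ i, (G i).Nonempty) (hinj : ∀ z : Fin r → ℤ, (∀ i, dt (u i) z = 0) → z = 0)
    (hfeas : ∀ k : Fin r → ℤ, ∃ y : Fin r → ℝ, ∀ i, ∀ g ∈ G i,
      T * ((dt (u i) k / ((M / g : ℕ) : ℤ) : ℤ) : ℝ) - lo i g ≤ g * rd (u i) y ∧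
      g * rd (u i) y ≤ T * ((dt (u i) k / ((M / g : ℕ) : ℤ) : ℤ) : ℝ) + T - up i g) :
    ∃ y : (Fin r → ℤ) → Fin r → ℝ, Sol u G lo up T M y := by
  classical
  let α : (Fin r → ℤ) →+ (κ → ℕ → ℤ) :=
    { toFun := fun z i g => if g ∈ G i then (g : ℤ) * dt (u i) z else 0
      map_zero' := by
        funext i g
        have : dt (u i) (0 : Fin r → ℤ) = 0 := by simp [dt]
        simp [this]
      map_add' := by
        intro z z'
        funext i g
        simp only [Pi.add_apply]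
        rw [dt_add]
        split_ifs <;> ring }
  let β : (Fin r → ℤ) →+ (Fin r → ℝ) :=
    { toFun := fun z p => T * (z p : ℝ)
      map_zero' := by
        funext p
        simp
      map_add' := by
        intro z z'
        funext p
        simp only [Pi.add_apply]
        push_cast
        ring }
  have hα : Function.Injective α := by
    rw [injective_iff_map_eq_zero]
    intro z hz
    apply hinj
    intro i
    obtain ⟨g, hg⟩ := hne i
    have h1 : α z i g = 0 := by rw [hz]; rfl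
    have h2 : α z i g = (g : ℤ) * dt (u i) z := if_pos hg
    rw [h2] at h1
    have h3 : (g : ℤ) ≠ 0 := by exact_mod_cast (hG0 i g hg).ne'
    exact (mul_eq_zero.1 h1).resolve_left h3
  let Φ : (κ → ℕ → ℤ) → (Fin r → ℝ) → Prop := fun f v => ∀ i, ∀ g ∈ G i,
    T * (f i g : ℝ) - lo i g ≤ g * rd (u i) v ∧ g * rd (u i) v ≤ T * (f i g : ℝ) + T - up i g
  have hΦ : ∀ f v z, Φ f v → Φ (f + α z) (v + β z) := by
    intro f v z h i g hg
    obtain ⟨h1, h2⟩ := h i g hg
    have h3 : rd (u i) (v + β z) = rd (u i) v + T * ((dt (u i) z : ℤ) : ℝ) := by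
      rw [rd_add]
      congr 1
      exact rd_cast (u i) z T
    have h4 : (((f + α z) i g : ℤ) : ℝ) = (f i g : ℝ) + g * ((dt (u i) z : ℤ) : ℝ) := by
      have h5 : α z i g = (g : ℤ) * dt (u i) z := if_pos hg
      simp only [Pi.add_apply]
      rw [h5]
      push_cast
      ring
    rw [h3, h4]
    constructor <;> nlinarith
  obtain ⟨Y, hY, hYeq⟩ := equivariant_choice α hα β Φ hΦ
  let fl : (Fin r → ℤ) → (κ → ℕ → ℤ) := fun k i g =>
    if g ∈ G i then dt (u i) k / ((M / g : ℕ) : ℤ) else 0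
  have hfl : ∀ k i g, g ∈ G i → fl k i g = dt (u i) k / ((M / g : ℕ) : ℤ) := fun k i g hg => if_pos hg
  have hex : ∀ k, ∃ v, Φ (fl k) v := by
    intro k
    obtain ⟨y, hy⟩ := hfeas k
    refine ⟨y, fun i g hg => ?_⟩
    rw [hfl k i g hg]
    exact hy i g hg
  refine ⟨fun k => Y (fl k), ?_, ?_, ?_, ?_⟩
  · intro k i g hg
    have := (hY (fl k) (hex k) i g hg).1
    rwa [hfl k i g hg] at this
  · intro k i g hg
    have := (hY (fl k) (hex k) i g hg).2
    rwa [hfl k i g hg] at this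
  · intro k z
    have h1 : fl (k + fun p => (M : ℤ) * z p) = fl k + α z := by
      funext i g
      simp only [Pi.add_apply]
      by_cases hg : g ∈ G i
      · have h2 : α z i g = (g : ℤ) * dt (u i) z := if_pos hg
        rw [hfl _ i g hg, hfl _ i g hg, h2, dt_add, dt_mul]
        have hMg : 0 < M / g := Nat.div_pos (Nat.le_of_dvd hM (hGM i g hg)) (hG0 i g hg)
        have h3 : (M : ℤ) = ((M / g : ℕ) : ℤ) * (g : ℤ) := by
          exact_mod_cast (Nat.div_mul_cancel (hGM i g hg)).symm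
        have h4 : (M : ℤ) * dt (u i) z = ((M / g : ℕ) : ℤ) * ((g : ℤ) * dt (u i) z) := by
          rw [h3]
          simp only [Nat.cast_mul, Nat.mul_div_assoc, ← h3]
          nth_rewrite 1 [h3]
          ring
        rw [h4, Int.add_mul_ediv_left _ _ (by exact_mod_cast hMg.ne')]
      · have h2 : α z i g = 0 := if_neg hg
        have h3 : fl (k + fun p => (M : ℤ) * z p) i g = 0 := if_neg hg
        have h4 : fl k i g = 0 := if_neg hg
        rw [h2, h3, h4, add_zero]
    show Y (fl (k + fun p => (M : ℤ) * z p)) = Y (fl k) + _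
    rw [h1, hYeq]
    rfl
  · intro k k' h
    have h1 : fl k = fl k' := by
      funext i g
      by_cases hg : g ∈ G i
      · rw [hfl k i g hg, hfl k' i g hg]
        exact h i g hg
      · have h3 : fl k i g = 0 := if_neg hg
        have h4 : fl k' i g = 0 := if_neg hg
        rw [h3, h4]
    show Y (fl k) = Y (fl k')
    rw [h1]

/-- a bound for the differences, independent of `M` -/
noncomputable def kdiff (lam : Fin r → κ → ℝ) (T B : ℝ) (C : ℤ) : ℝ :=
  ∑ p, ∑ i, |lam p i| * (|T| * (C : ℝ) + |T| + B)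

theorem Sol.bdd {y : (Fin r → ℤ) → Fin r → ℝ} (h : Sol u G lo up T M y) (hM : 0 < M)
    (hGM : ∀ i, ∀ g ∈ G i, g ∣ M) (hG0 : ∀ i, ∀ g ∈ G i, 0 < g)
    (hne : ∀ i, (G i).Nonempty) {lam : Fin r → κ → ℝ}
    (hlam : ∀ (y : Fin r → ℝ) p, y p = ∑ i, lam p i * rd (u i) y) {C : ℤ} (hC : 0 ≤ C) {B : ℝ}
    (hB : ∀ i, ∀ g ∈ G i, |lo i g| + |up i g| ≤ B) (hB0 : 0 ≤ B) (k v : Fin r → ℤ)
    (hv : ∀ j, |dt (u j) v| ≤ C) (p : Fin r) :
    |y (k + v) p - y k p| ≤ kdiff lam T B C := by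
  have hCR : (0 : ℝ) ≤ C := by exact_mod_cast hC
  have hpos : 0 ≤ |T| * (C : ℝ) + |T| + B := by positivity
  have h1 : ∀ i, |rd (u i) (y (k + v) - y k)| ≤ |T| * (C : ℝ) + |T| + B := by
    intro i
    obtain ⟨g, hg⟩ := hne i
    have hg1 : (1 : ℝ) ≤ g := by exact_mod_cast hG0 i g hg
    have hMg : 0 < M / g := Nat.div_pos (Nat.le_of_dvd hM (hGM i g hg)) (hG0 i g hg)
    have l1 := h.lower (k + v) i g hg
    have u1 := h.upper (k + v) i g hg
    have l2 := h.lower k i g hg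
    have u2 := h.upper k i g hg
    have hb := hB i g hg
    have hd : |((dt (u i) (k + v) / ((M / g : ℕ) : ℤ) : ℤ) : ℝ)
        - ((dt (u i) k / ((M / g : ℕ) : ℤ) : ℤ) : ℝ)| ≤ C := by
      have h2 := ediv_diff ((M / g : ℕ) : ℤ) (by exact_mod_cast hMg) (dt (u i) (k + v)) (dt (u i) k)
      have h3 : |dt (u i) (k + v) - dt (u i) k| ≤ C := by
        rw [dt_add, add_sub_cancel_left]
        exact hv i
      exact_mod_cast h2.trans h3
    have hTd : |T * (((dt (u i) (k + v) / ((M / g : ℕ) : ℤ) : ℤ) : ℝ)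
        - ((dt (u i) k / ((M / g : ℕ) : ℤ) : ℤ) : ℝ))| ≤ |T| * C := by
      rw [abs_mul]
      exact mul_le_mul_of_nonneg_left hd (abs_nonneg T)
    have h4 := abs_le.1 hTd
    have h5 := neg_abs_le (lo i g)
    have h6 := le_abs_self (lo i g)
    have h7 := neg_abs_le (up i g)
    have h8 := le_abs_self (up i g)
    have h9 := neg_abs_le T
    have h10 := le_abs_self T
    rw [rd_sub]
    have h11 : |(g : ℝ) * (rd (u i) (y (k + v)) - rd (u i) (y k))| ≤ |T| * (C : ℝ) + |T| + B := by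
      rw [abs_le, mul_sub]
      constructor <;> linarith [h4.1, h4.2]
    rw [abs_mul, abs_of_nonneg (by linarith : (0 : ℝ) ≤ g)] at h11
    refine le_trans ?_ h11
    nlinarith [abs_nonneg (rd (u i) (y (k + v)) - rd (u i) (y k))]
  have h2 : y (k + v) p - y k p = ∑ i, lam p i * rd (u i) (y (k + v) - y k) := by
    rw [← hlam (y (k + v) - y k) p]
    rfl
  rw [h2]
  calc |∑ i, lam p i * rd (u i) (y (k + v) - y k)|
      ≤ ∑ i, |lam p i * rd (u i) (y (k + v) - y k)| := Finset.abs_sum_le_sum_abs _ _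
    _ ≤ ∑ i, |lam p i| * (|T| * (C : ℝ) + |T| + B) := by
        apply Finset.sum_le_sum
        intro i _
        rw [abs_mul]
        exact mul_le_mul_of_nonneg_left (h1 i) (abs_nonneg _)
    _ ≤ kdiff lam T B C := by
        unfold kdiff
        exact Finset.single_le_sum
          (f := fun p => ∑ i, |lam p i| * (|T| * (C : ℝ) + |T| + B))
          (fun p _ => Finset.sum_nonneg fun i _ => mul_nonneg (abs_nonneg _) hpos)
          (Finset.mem_univ p)

/-- the jump at a layer -/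
theorem Sol.jump {y : (Fin r → ℤ) → Fin r → ℝ} (h : Sol u G lo up T M y) (hM : 0 < M)
    (hGM : ∀ i, ∀ g ∈ G i, g ∣ M) (hG0 : ∀ i, ∀ g ∈ G i, 0 < g) (i : κ)
    (hc : dt (u i) (c i) = 1) (k : Fin r → ℤ) (hlay : Lay M (G i) (dt (u i) k)) :
    wt M (G i) (fun g => up i g - lo i g) (dt (u i) k) ≤ rd (u i) (y (k + c i) - y k) := by
  obtain ⟨g, hg, how⟩ := exists_ownd hlay
  rw [wt_of_ownd hg how]
  have hg0 : (0 : ℝ) < g := by exact_mod_cast hG0 i g hg
  have hMg : 0 < M / g := Nat.div_pos (Nat.le_of_dvd hM (hGM i g hg)) (hG0 i g hg)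
  have l1 := h.lower (k + c i) i g hg
  have u2 := h.upper k i g hg
  rw [dt_add, hc, ediv_step _ (by exact_mod_cast hMg) _ how.1] at l1
  rw [Int.cast_add, Int.cast_one] at l1
  rw [div_le_iff₀ hg0, rd_sub]
  nlinarith

end Fld

end Pool.Agent.Helper62.LS
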