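import Pool.Agent.Helper62.LS.Cnt

/-!
# LS: layers of the discrete torus
-/

namespace Pool.Agent.Helper62.LS

open Finset

/-- number of hyperplanes owned by the multiplicity `g` -/
def own (S : Finset ℕ) (g : ℕ) : ℕ :=
  ((Finset.range g).filter fun p => ∀ g' ∈ S, g' < g → ¬ (g ∣ g' * p)).card

/-- dot product -/
def dt {r : ℕ} (u k : Fin r → ℤ) : ℤ := ∑ p, u p * k p

theorem dt_add {r : ℕ} (u k v : Fin r → ℤ) : dt u (k + v) = dt u k + dt u v := by
  unfold dt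
  rw [← Finset.sum_add_distrib]
  exact Finset.sum_congr rfl fun p _ => by simp only [Pi.add_apply]; ring

theorem dt_smul {r : ℕ} (u k : Fin r → ℤ) (s : ℤ) : dt u (s • k) = s * dt u k := by
  unfold dt
  rw [Finset.mul_sum]
  exact Finset.sum_congr rfl fun p _ => by simp only [Pi.smul_apply, smul_eq_mul]; ring

theorem dt_single {r : ℕ} (u : Fin r → ℤ) (p : Fin r) : dt u (Pi.single p 1) = u p := by
  unfold dt
  rw [Finset.sum_eq_single p]
  · simp
  · intro q _ hq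
    rw [Pi.single_eq_of_ne hq, mul_zero]
  · simp

theorem dt_mul {r : ℕ} (u z : Fin r → ℤ) (M : ℤ) : dt u (fun p => M * z p) = M * dt u z := by
  unfold dt
  rw [Finset.mul_sum]
  exact Finset.sum_congr rfl fun p _ => by ring

theorem ediv_const (m : ℤ) (hm : 0 < m) (a b : ℤ) (hab : a ≤ b)
    (h : ∀ τ, a ≤ τ → τ < b → ¬ m ∣ τ + 1) : a / m = b / m := by
  by_contra hne
  have h1 : a / m ≤ b / m := Int.ediv_le_ediv hm hab
  have h2 : a / m + 1 ≤ b / m := by omega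
  have h3 : m * (b / m) ≤ b := Int.mul_ediv_self_le hm.ne'
  have h4 : a < m * (a / m) + m := by
    have h5 := Int.emod_add_mul_ediv a m
    have h6 := Int.emod_lt_of_pos a hm
    linarith
  have h5 : m * (a / m) + m ≤ m * (b / m) := by nlinarith
  apply h (m * (b / m) - 1) (by linarith) (by linarith)
  rw [sub_add_cancel]
  exact dvd_mul_right m _

theorem ediv_step (m : ℤ) (hm : 0 < m) (τ : ℤ) (h : m ∣ τ + 1) : (τ + 1) / m = τ / m + 1 := by
  obtain ⟨j, hj⟩ := h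
  rw [hj, Int.mul_ediv_cancel_left j hm.ne']
  have h1 : τ = m * j - 1 := by linarith
  have h2 : τ / m = j - 1 := by
    rw [h1]
    apply (Int.ediv_emod_unique hm (r := m - 1) (q := j - 1)).2 _ |>.1
    refine ⟨by ring, by linarith, by linarith⟩
  rw [h2]
  ring

/-- a layer: some floor changes between `τ` and `τ + 1` -/
def Lay (M : ℕ) (S : Finset ℕ) (τ : ℤ) : Prop := ∃ g ∈ S, (((M / g : ℕ)) : ℤ) ∣ τ + 1

/-- `g` is the owner of the layer -/
def Ownd (M : ℕ) (S : Finset ℕ) (g : ℕ) (τ : ℤ) : Prop :=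
  (((M / g : ℕ)) : ℤ) ∣ τ + 1 ∧ ∀ g' ∈ S, g' < g → ¬ (((M / g' : ℕ)) : ℤ) ∣ τ + 1

open Classical in
/-- weight of a layer -/
noncomputable def wt (M : ℕ) (S : Finset ℕ) (ℓ : ℕ → ℝ) (τ : ℤ) : ℝ :=
  ∑ g ∈ S, if Ownd M S g τ then ℓ g / g else 0

theorem wt_of_ownd {M : ℕ} {S : Finset ℕ} {ℓ : ℕ → ℝ} {τ : ℤ} {g : ℕ} (hg : g ∈ S)
    (h : Ownd M S g τ) : wt M S ℓ τ = ℓ g / g := by
  classical
  unfold wt
  rw [Finset.sum_eq_single g]
  · rw [if_pos h]
  · intro g' hg' hne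
    rw [if_neg]
    intro h'
    rcases lt_or_gt_of_ne hne with h1 | h1
    · exact h.2 g' hg' h1 h'.1
    · exact h'.2 g hg h1 h.1
  · intro h'
    exact absurd hg h'

theorem wt_of_not {M : ℕ} {S : Finset ℕ} {ℓ : ℕ → ℝ} {τ : ℤ} (h : ¬ Lay M S τ) :
    wt M S ℓ τ = 0 := by
  classical
  unfold wt
  apply Finset.sum_eq_zero
  intro g hg
  rw [if_neg]
  intro h'
  exact h ⟨g, hg, h'.1⟩

theorem exists_ownd {M : ℕ} {S : Finset ℕ} {τ : ℤ} (h : Lay M S τ) :
    ∃ g ∈ S, Ownd M S g τ := by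
  classical
  obtain ⟨g, hg, hd⟩ := h
  obtain ⟨g0, hg0, hmin⟩ := Finset.exists_min_image
    (S.filter fun g => (((M / g : ℕ)) : ℤ) ∣ τ + 1) id ⟨g, Finset.mem_filter.2 ⟨hg, hd⟩⟩
  rw [Finset.mem_filter] at hg0
  refine ⟨g0, hg0.1, hg0.2, fun g' hg' hlt hd' => ?_⟩
  have := hmin g' (Finset.mem_filter.2 ⟨hg', hd'⟩)
  simp only [id] at this
  omega

theorem dvd_shift {M g : ℕ} (hg : g ∣ M) (τ s : ℤ) :
    (((M / g : ℕ)) : ℤ) ∣ τ + (M : ℤ) * s + 1 ↔ (((M / g : ℕ)) : ℤ) ∣ τ + 1 := by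
  have h1 : (((M / g : ℕ)) : ℤ) ∣ (M : ℤ) * s := by
    apply Dvd.dvd.mul_right
    exact_mod_cast Nat.div_dvd_of_dvd hg
  have h2 : τ + (M : ℤ) * s + 1 = (τ + 1) + (M : ℤ) * s := by ring
  rw [h2]
  exact dvd_add_left h1

theorem Lay_shift {M : ℕ} {S : Finset ℕ} (hS : ∀ g ∈ S, g ∣ M) (τ s : ℤ) :
    Lay M S (τ + (M : ℤ) * s) ↔ Lay M S τ := by
  unfold Lay
  constructor
  · rintro ⟨g, hg, h⟩
    exact ⟨g, hg, (dvd_shift (hS g hg) τ s).1 h⟩
  · rintro ⟨g, hg, h⟩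
    exact ⟨g, hg, (dvd_shift (hS g hg) τ s).2 h⟩

theorem Ownd_shift {M : ℕ} {S : Finset ℕ} (hS : ∀ g ∈ S, g ∣ M) {g : ℕ} (hg : g ∈ S) (τ s : ℤ) :
    Ownd M S g (τ + (M : ℤ) * s) ↔ Ownd M S g τ := by
  unfold Ownd
  rw [dvd_shift (hS g hg)]
  constructor
  · rintro ⟨h1, h2⟩
    exact ⟨h1, fun g' hg' hlt h => h2 g' hg' hlt ((dvd_shift (hS g' hg') τ s).2 h)⟩
  · rintro ⟨h1, h2⟩
    exact ⟨h1, fun g' hg' hlt h => h2 g' hg' hlt ((dvd_shift (hS g' hg') τ s).1 h)⟩

theorem wt_shift {M : ℕ} {S : Finset ℕ} (hS : ∀ g ∈ S, g ∣ M) (ℓ : ℕ → ℝ) (τ s : ℤ) :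
    wt M S ℓ (τ + (M : ℤ) * s) = wt M S ℓ τ := by
  classical
  unfold wt
  apply Finset.sum_congr rfl
  intro g hg
  rw [if_congr (Ownd_shift hS hg τ s) rfl rfl]

/-- the total weight of the layers -/
theorem sum_wt {M : ℕ} [NeZero M] {S : Finset ℕ} (hS : ∀ g ∈ S, g ∣ M) (hS0 : ∀ g ∈ S, 0 < g)
    (ℓ : ℕ → ℝ) (hℓ : ∀ g ∈ S, 0 ≤ ℓ g) :
    ∑ g ∈ S, (own S g : ℝ) / g * ℓ g ≤ ∑ t : ZMod M, wt M S ℓ (t.val : ℤ) := by
  classical
  have hM : 0 < M := Nat.pos_of_ne_zero (NeZero.ne M)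
  unfold wt
  rw [Finset.sum_comm]
  apply Finset.sum_le_sum
  intro g hg
  have hg0 := hS0 g hg
  have hMg : 0 < M / g := Nat.div_pos (Nat.le_of_dvd hM (hS g hg)) hg0
  have hMgg : M / g * g = M := Nat.div_mul_cancel (hS g hg)
  rw [← Finset.sum_filter, Finset.sum_const, nsmul_eq_mul]
  have h1 : (own S g : ℝ) / g * ℓ g = (own S g : ℝ) * (ℓ g / g) := by ring
  rw [h1]
  apply mul_le_mul_of_nonneg_right _ (div_nonneg (hℓ g hg) (Nat.cast_nonneg _))
  have h2 : own S g ≤ (Finset.univ.filter fun t : ZMod M => Ownd M S g (t.val : ℤ)).card := by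
    unfold own
    apply Finset.card_le_card_of_injOn
      (fun p : ℕ => (((((M / g : ℕ) : ℤ) * p - 1 : ℤ)) : ZMod M))
    · intro p hp
      rw [Finset.mem_coe, Finset.mem_filter, Finset.mem_range] at hp
      rw [Finset.mem_coe, Finset.mem_filter]
      refine ⟨Finset.mem_univ _, ?_⟩
      set τ : ℤ := ((M / g : ℕ) : ℤ) * p - 1 with hτ
      have h3 : ∃ s : ℤ, (((τ : ZMod M).val : ℕ) : ℤ) = τ + (M : ℤ) * s := by
        rw [ZMod.val_intCast]
        refine ⟨-(τ / M), ?_⟩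
        have := Int.emod_add_mul_ediv τ (M : ℤ)
        linarith
      obtain ⟨s, hs⟩ := h3
      rw [hs, Ownd_shift hS hg]
      constructor
      · rw [hτ, sub_add_cancel]
        exact dvd_mul_right _ _
      · intro g' hg' hlt hd
        rw [hτ, sub_add_cancel] at hd
        apply hp.2 g' hg' hlt
        have h4 : M / g' ∣ M / g * p := by exact_mod_cast hd
        obtain ⟨j, hj⟩ := h4
        have hg'0 := hS0 g' hg'
        have hMg' : M / g' * g' = M := Nat.div_mul_cancel (hS g' hg')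
        refine ⟨j, ?_⟩
        have h5 : M * (g' * p) = M * (g * j) := by
          calc M * (g' * p) = (M / g * g) * (g' * p) := by rw [hMgg]
            _ = g * g' * (M / g * p) := by ring
            _ = g * g' * (M / g' * j) := by rw [hj]
            _ = (M / g' * g') * (g * j) := by ring
            _ = M * (g * j) := by rw [hMg']
        exact Nat.eq_of_mul_eq_mul_left hM h5
    · intro p hp p' hp' h
      rw [Finset.mem_coe, Finset.mem_filter, Finset.mem_range] at hp hp'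
      have h3 : (M : ℤ) ∣ (((M / g : ℕ) : ℤ) * p' - 1) - (((M / g : ℕ) : ℤ) * p - 1) :=
        (ZMod.intCast_eq_intCast_iff_dvd_sub _ _ M).1 h
      have h4 : (((M / g : ℕ) : ℤ) * p' - 1) - (((M / g : ℕ) : ℤ) * p - 1)
          = ((M / g : ℕ) : ℤ) * ((p' : ℤ) - p) := by ring
      rw [h4] at h3
      have h5 : (M : ℤ) = ((M / g : ℕ) : ℤ) * (g : ℤ) := by exact_mod_cast hMgg.symm
      rw [h5] at h3
      have h6 : (g : ℤ) ∣ (p' : ℤ) - p :=
        Int.dvd_of_mul_dvd_mul_left (by exact_mod_cast hMg.ne') h3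
      have h7 : |(p' : ℤ) - p| < g := by
        rw [abs_lt]
        have := hp.1
        have := hp'.1
        constructor <;> omega
      have h8 := Int.eq_zero_of_abs_lt_dvd h6 h7
      omega
  exact_mod_cast h2

/-- the number of layers -/
theorem card_lay {M : ℕ} [NeZero M] {S : Finset ℕ} (hS : ∀ g ∈ S, g ∣ M) (hS0 : ∀ g ∈ S, 0 < g)
    [DecidablePred fun t : ZMod M => Lay M S (t.val : ℤ)] :
    (Finset.univ.filter fun t : ZMod M => Lay M S (t.val : ℤ)).card ≤ ∑ g ∈ S, g := by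
  classical
  have hM : 0 < M := Nat.pos_of_ne_zero (NeZero.ne M)
  have h1 : (Finset.univ.filter fun t : ZMod M => Lay M S (t.val : ℤ))
      ⊆ S.biUnion fun g => Finset.univ.filter fun t : ZMod M =>
        (((M / g : ℕ)) : ℤ) ∣ (t.val : ℤ) + 1 := by
    intro t ht
    rw [Finset.mem_filter] at ht
    obtain ⟨g, hg, hd⟩ := ht.2
    rw [Finset.mem_biUnion]
    exact ⟨g, hg, by rw [Finset.mem_filter]; exact ⟨Finset.mem_univ _, hd⟩⟩
  refine (Finset.card_le_card h1).trans (Finset.card_biUnion_le.trans (Finset.sum_le_sum ?_))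
  intro g hg
  have hg0 := hS0 g hg
  have hMg : 0 < M / g := Nat.div_pos (Nat.le_of_dvd hM (hS g hg)) hg0
  have hMgg : M / g * g = M := Nat.div_mul_cancel (hS g hg)
  have h2 : (Finset.univ.filter fun t : ZMod M => (((M / g : ℕ)) : ℤ) ∣ (t.val : ℤ) + 1).card
      ≤ (Finset.range g).card := by
    apply Finset.card_le_card_of_injOn (fun t : ZMod M => (t.val + 1) / (M / g) - 1)
    · intro t ht
      rw [Finset.mem_coe, Finset.mem_filter] at ht
      rw [Finset.coe_range, Set.mem_Iio]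
      have h3 : M / g ∣ t.val + 1 := by exact_mod_cast ht.2
      have h4 : t.val + 1 ≤ M := ZMod.val_lt t
      have h5 : (t.val + 1) / (M / g) ≤ g := by
        apply Nat.div_le_of_le_mul
        rw [hMgg]
        exact h4
      show (t.val + 1) / (M / g) - 1 < g
      omega
    · intro t ht t' ht' h
      rw [Finset.mem_coe, Finset.mem_filter] at ht ht'
      have h3 : M / g ∣ t.val + 1 := by exact_mod_cast ht.2
      have h3' : M / g ∣ t'.val + 1 := by exact_mod_cast ht'.2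
      have h4 : 0 < (t.val + 1) / (M / g) := Nat.div_pos (Nat.le_of_dvd (Nat.succ_pos _) h3) hMg
      have h4' : 0 < (t'.val + 1) / (M / g) :=
        Nat.div_pos (Nat.le_of_dvd (Nat.succ_pos _) h3') hMg
      have h5 : (t.val + 1) / (M / g) = (t'.val + 1) / (M / g) := by
        have : (t.val + 1) / (M / g) - 1 = (t'.val + 1) / (M / g) - 1 := h
        omega
      have h6 := Nat.div_mul_cancel h3
      have h7 := Nat.div_mul_cancel h3'
      rw [h5, h7] at h6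
      exact ZMod.val_injective M (by omega)
  rwa [Finset.card_range] at h2

end Pool.Agent.Helper62.LS
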