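import Pool.Agent.Helper62.LS.Lay

/-!
# LS: the averaging step on the discrete torus
-/

namespace Pool.Agent.Helper62.LS

open Finset

theorem floor_eq (m : ℤ) (hm : 0 < m) (a b : ℤ)
    (h : ∀ τ, min a b ≤ τ → τ < max a b → ¬ m ∣ τ + 1) : a / m = b / m := by
  rcases le_total a b with hab | hab
  · rw [min_eq_left hab, max_eq_right hab] at h
    exact ediv_const m hm a b hab h
  · rw [min_eq_right hab, max_eq_left hab] at h
    exact (ediv_const m hm b a hab h).symm

section Step

variable {κ : Type} {r : ℕ} (u c : κ → Fin r → ℤ) (G : κ → Finset ℕ) (M : ℕ) (C : ℤ)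

/-- the character `i` is near one of its layers -/
def Near (i : κ) (k : Fin r → ℤ) : Prop :=
  ∃ δ : ℤ, -C ≤ δ ∧ δ ≤ C ∧ Lay M (G i) (dt (u i) k + δ)

/-- two characters are near layers -/
def Bad (k : Fin r → ℤ) : Prop := ∃ i j, i ≠ j ∧ Near u G M C i k ∧ Near u G M C j k

/-- all relevant floors are equal -/
def SameF (k k' : Fin r → ℤ) : Prop :=
  ∀ i, ∀ g ∈ G i, dt (u i) k / ((M / g : ℕ) : ℤ) = dt (u i) k' / ((M / g : ℕ) : ℤ)

variable {u c G M C}

theorem sameF_of {n : ℕ} (hM : 0 < M) (hGM : ∀ i, ∀ g ∈ G i, g ∣ M) (hG0 : ∀ i, ∀ g ∈ G i, 0 < g)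
    (hn : ∀ i, ∀ g ∈ G i, n ∣ M / g) (hnC : C < n)
    (i : κ) (k v w : Fin r → ℤ) (hbad : ¬ Bad u G M C k) (hlay : Lay M (G i) (dt (u i) k))
    (hC0 : 0 ≤ C)
    (hv : ∀ j, |dt (u j) v| ≤ C) (hw : ∀ j, |dt (u j) w| ≤ C)
    (hside : (dt (u i) v ≤ 0 ∧ dt (u i) w ≤ 0) ∨ (1 ≤ dt (u i) v ∧ 1 ≤ dt (u i) w)) :
    SameF u G M (k + v) (k + w) := by
  have hneari : Near u G M C i k := ⟨0, by linarith, hC0, by rwa [add_zero]⟩
  intro j g hg
  have hmg : 0 < M / g := Nat.div_pos (Nat.le_of_dvd hM (hGM j g hg)) (hG0 j g hg)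
  apply floor_eq _ (by exact_mod_cast hmg)
  intro τ h1 h2 hd
  rw [dt_add, dt_add] at h1 h2
  have hvj := abs_le.1 (hv j)
  have hwj := abs_le.1 (hw j)
  by_cases hij : j = i
  · subst hij
    obtain ⟨g', hg', hd'⟩ := hlay
    have e1 : (n : ℤ) ∣ τ + 1 := dvd_trans (by exact_mod_cast hn j g hg) hd
    have e2 : (n : ℤ) ∣ dt (u j) k + 1 := dvd_trans (by exact_mod_cast hn j g' hg') hd'
    have e3 : (n : ℤ) ∣ τ - dt (u j) k := by
      have := dvd_sub e1 e2
      have h3 : τ + 1 - (dt (u j) k + 1) = τ - dt (u j) k := by ring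
      rwa [h3] at this
    have e4 : τ - dt (u j) k = 0 := by
      apply Int.eq_zero_of_abs_lt_dvd e3
      rw [abs_lt]
      rcases le_total (dt (u j) k + dt (u j) v) (dt (u j) k + dt (u j) w) with h | h
      · rw [min_eq_left h] at h1
        rw [max_eq_right h] at h2
        constructor <;> linarith
      · rw [min_eq_right h] at h1
        rw [max_eq_left h] at h2
        constructor <;> linarith
    have e5 : τ = dt (u j) k := by linarith
    subst e5
    rcases hside with ⟨h3, h4⟩ | ⟨h3, h4⟩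
    · rcases lt_max_iff.1 h2 with h5 | h5 <;> linarith
    · rcases min_le_iff.1 h1 with h5 | h5 <;> linarith
  · apply hbad
    refine ⟨j, i, hij, ⟨τ - dt (u j) k, ?_, ?_, ⟨g, hg, ?_⟩⟩, hneari⟩
    · rcases le_total (dt (u j) k + dt (u j) v) (dt (u j) k + dt (u j) w) with h | h
      · rw [min_eq_left h] at h1
        linarith
      · rw [min_eq_right h] at h1
        linarith
    · rcases le_total (dt (u j) k + dt (u j) v) (dt (u j) k + dt (u j) w) with h | h
      · rw [max_eq_right h] at h2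
        linarith
      · rw [max_eq_left h] at h2
        linarith
    · have h3 : dt (u j) k + (τ - dt (u j) k) + 1 = τ + 1 := by ring
      rw [h3]
      exact hd

/-- position of the layers crossed by a coordinate step -/
def sg (a : ℤ) (s : ℕ) : ℤ := if 0 ≤ a then (s : ℤ) else -1 - (s : ℤ)

theorem abs_sg_le (a : ℤ) (s : ℕ) (hs : s < a.natAbs) : |sg a s| ≤ |a| := by
  unfold sg
  split_ifs with h
  · rw [abs_of_nonneg (by positivity), abs_of_nonneg h]
    omega
  · rw [abs_of_nonpos (by omega), abs_of_neg (by omega)]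
    omega

open Classical in
/-- number of layers of the character `i` crossed by the step `e_p` at `k` -/
noncomputable def nn (M : ℕ) (S : Finset ℕ) (a τ : ℤ) : ℝ :=
  ∑ s ∈ Finset.range a.natAbs, if Lay M S (τ + sg a s) then 1 else 0

/-- no layer is crossed -/
theorem nn_zero {S : Finset ℕ} {a τ : ℤ} (h : nn M S a τ = 0) :
    ∀ t, min τ (τ + a) ≤ t → t < max τ (τ + a) → ¬ Lay M S t := by
  classical
  intro t h1 h2 hL
  unfold nn at h
  rw [Finset.sum_eq_zero_iff_of_nonneg (fun s _ => by split_ifs <;> norm_num)] at h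
  rcases le_or_gt 0 a with ha | ha
  · rw [min_eq_left (by linarith)] at h1
    rw [max_eq_right (by linarith)] at h2
    have h3 := h (t - τ).toNat (by rw [Finset.mem_range]; omega)
    unfold sg at h3
    rw [if_pos ha] at h3
    have h4 : τ + ((t - τ).toNat : ℤ) = t := by
      rw [Int.toNat_of_nonneg (by linarith)]
      ring
    rw [h4, if_pos hL] at h3
    exact one_ne_zero h3
  · rw [min_eq_right (by linarith)] at h1
    rw [max_eq_left (by linarith)] at h2
    have h3 := h (τ - 1 - t).toNat (by rw [Finset.mem_range]; omega)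
    unfold sg at h3
    rw [if_neg (not_le.2 ha)] at h3
    have h4 : τ + (-1 - ((τ - 1 - t).toNat : ℤ)) = t := by
      rw [Int.toNat_of_nonneg (by linarith)]
      ring
    rw [h4, if_pos hL] at h3
    exact one_ne_zero h3

theorem nn_nonneg {S : Finset ℕ} {a τ : ℤ} : 0 ≤ nn M S a τ := by
  classical
  unfold nn
  exact Finset.sum_nonneg fun s _ => by split_ifs <;> norm_num

theorem nn_le {S : Finset ℕ} {a τ : ℤ} : nn M S a τ ≤ (a.natAbs : ℝ) := by
  classical
  unfold nn
  have h1 : ∑ s ∈ Finset.range a.natAbs, (if Lay M S (τ + sg a s) then (1 : ℝ) else 0)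
      ≤ ∑ s ∈ Finset.range a.natAbs, (1 : ℝ) :=
    Finset.sum_le_sum fun s _ => by split_ifs <;> norm_num
  rw [Finset.sum_const, Finset.card_range, nsmul_eq_mul, mul_one] at h1
  exact h1

theorem sg_inj (a : ℤ) : Function.Injective (sg a) := by
  intro s t h
  unfold sg at h
  split_ifs at h <;> omega

/-- at most one layer is crossed -/
theorem nn_one {n : ℕ} {S : Finset ℕ} (hn : ∀ g ∈ S, n ∣ M / g) {a τ : ℤ} (ha : |a| ≤ C)
    (hnC : C < n) (h : nn M S a τ ≠ 0) :
    nn M S a τ = 1 ∧ ∃ δ : ℤ, -C ≤ δ ∧ δ ≤ C ∧ Lay M S (τ + δ) := by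
  classical
  obtain ⟨s0, hs0, hL0⟩ : ∃ s ∈ Finset.range a.natAbs, Lay M S (τ + sg a s) := by
    by_contra hcon
    push Not at hcon
    apply h
    unfold nn
    exact Finset.sum_eq_zero fun s hs => if_neg (hcon s hs)
  have hb := abs_le.1 ((abs_sg_le a s0 (Finset.mem_range.1 hs0)).trans ha)
  refine ⟨?_, sg a s0, hb.1, hb.2, hL0⟩
  unfold nn
  rw [Finset.sum_eq_single s0]
  · rw [if_pos hL0]
  · intro s hs hne
    rw [if_neg]
    intro hL
    obtain ⟨g0, hg0, hd0⟩ := hL0
    obtain ⟨g, hg, hd⟩ := hL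
    have e1 : (n : ℤ) ∣ τ + sg a s + 1 := dvd_trans (by exact_mod_cast hn g hg) hd
    have e2 : (n : ℤ) ∣ τ + sg a s0 + 1 := dvd_trans (by exact_mod_cast hn g0 hg0) hd0
    have e3 : (n : ℤ) ∣ sg a s - sg a s0 := by
      have h1 := dvd_sub e1 e2
      have h2 : τ + sg a s + 1 - (τ + sg a s0 + 1) = sg a s - sg a s0 := by ring
      rwa [h2] at h1
    have e4 : sg a s - sg a s0 = 0 := by
      apply Int.eq_zero_of_abs_lt_dvd e3
      have h3 := Finset.mem_range.1 hs
      have h4 := Finset.mem_range.1 hs0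
      have h5 : |sg a s - sg a s0| < |a| := by
        unfold sg
        split_ifs with h6
        · rw [abs_lt, abs_of_nonneg h6]
          constructor <;> omega
        · rw [abs_lt, abs_of_neg (not_le.1 h6)]
          constructor <;> omega
      linarith
    exact hne (sg_inj a (by linarith))
  · intro h'
    exact absurd hs0 h'

end Step

end Pool.Agent.Helper62.LS
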